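import Pool.Agent.LibMH.REPW
import Pool.Agent.LibCM2.PAR2

/-!
# Row CNTW: the count, explicit constant (MEDIUM; template LibCM3/TA3x.lean: `TA3_count`, `CA3_le`, `degree_countV`, proved)

`sfx_card`: `(u.tails).toFinset.card ≤ u.length + 1 ≤ w + 1` (letters `≥ 1`, so `u.length ≤ u.sum ≤ w`), `card_biUnion_le`.
`CW_le`: with `b = N`, `t`, `n f + 1 = t b`: as `CA3_le`: `c₀ (nf + 2) + 1 ≤ 4 (w + 1) t² b³`, `4 (nf + 2)² ≤ 9 (t b)²` (`t b ≥ 2`), `exp_four_le` (`e⁴ ≤ 55`; copy it from LibCM2/TAx.lean as a private lemma, do NOT import TAx):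
`2 * 4 (w+1) t² b³ * 416 * (9/4) (t b)² (w + 1) * 55 = 411840 (w + 1)² t⁴ b⁵`.
`hurwitz_count`: `I₀ = {x < q : 0 < x, ¬ IndepV}` as a Finset.  `finrank V = 0`: `V = ⊥`, all coefficients are `0`, `I₀` empty.  `finrank V = s + 1`: if `N (s + 1) = 1`
then `Ws = {[]}` (`Finset.card_eq_one`), `zetaH [] y = 1` (`zetaH_eq`, `sw`), so `c [] = 0`: `I₀` empty.  Else `nf = N (s + 1) - 1 ≥ 1`; `repw` gives `D` with `I₀.card ≤ N 2^(s+1) D.I.card`;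
if `D.I.card ≥ Cpar nf w c₀ q^(1 - 1/(nf+2))`, `par2x nf w c₀` gives admissible parameters, contradiction with the hypothesis `core` (it is `core4`, typed in parallel);
`D.c0 = 2 * ((sfx Ws).card * (Ws.card * (s + 1))) ≤ 2 (w + 1) N² (s + 1)`; monotonicity in `s + 1 ≤ D` of the exponent and the constant as in TA3x.
-/

namespace CM68

open Finset Pool.MH.Stmt

private theorem CNTW_exp : Real.exp 4 ≤ 55 := by
  have h1 : Real.exp 4 = Real.exp 1 ^ 4 := by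
    rw [← Real.exp_nat_mul]
    norm_num
  have h2 := Real.exp_one_lt_d9
  have h3 := Real.exp_pos 1
  rw [h1]
  calc Real.exp 1 ^ 4 ≤ 2.7182818286 ^ 4 := by gcongr
    _ ≤ 55 := by norm_num

theorem sfx_card {Ws : Finset (List ℕ)} {w : ℕ} (hadm : ∀ u ∈ Ws, Admissible u)
    (hw : ∀ u ∈ Ws, u.sum ≤ w) : (sfx Ws).card ≤ Ws.card * (w + 1) := by
  unfold sfx
  refine card_biUnion_le_card_mul _ _ _ fun u hu => ?_
  refine (List.toFinset_card_le _).trans ?_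
  rw [List.length_tails]
  have h1 : u.length ≤ u.sum := List.length_le_sum_of_one_le u (hadm u hu).1
  have h2 := hw u hu
  omega

theorem CW_le {N w t c₀ nf : ℕ} (hN : 1 ≤ N) (ht : 1 ≤ t) (hb : t * N = nf + 1) (hb2 : 2 ≤ t * N)
    (hc : c₀ ≤ 2 * ((w + 1) * (N ^ 2 * t))) :
    Cpar nf w c₀ ≤ 411840 * ((w : ℝ) + 1) ^ 2 * ((t : ℝ) ^ 4 * (N : ℝ) ^ 5) := by
  have hnf : nf + 2 = t * N + 1 := by omega
  have h1 : c₀ * (nf + 2) + 1 ≤ 4 * ((w + 1) * (t ^ 2 * N ^ 3)) := by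
    rw [hnf]
    have e2 : c₀ * (t * N + 1) ≤ 2 * ((w + 1) * (N ^ 2 * t)) * (t * N + 1) := Nat.mul_le_mul_right _ hc
    have e4 : 2 * ((w + 1) * (N ^ 2 * t)) * (t * N + 1) =
        2 * ((w + 1) * (t ^ 2 * N ^ 3)) + 2 * ((w + 1) * (N ^ 2 * t)) := by ring
    have e5 : 2 * ((w + 1) * (N ^ 2 * t)) ≤ (w + 1) * (t ^ 2 * N ^ 3) := by
      have : (w + 1) * (t ^ 2 * N ^ 3) = (t * N) * ((w + 1) * (N ^ 2 * t)) := by ring
      rw [this]
      exact Nat.mul_le_mul_right _ hb2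
    have e6 : 1 ≤ (w + 1) * (t ^ 2 * N ^ 3) :=
      Nat.mul_pos (by omega) (Nat.mul_pos (pow_pos (by omega) _) (pow_pos (by omega) _))
    omega
  have h2 : 4 * (nf + 2) ^ 2 ≤ 9 * (t * N) ^ 2 := by
    rw [hnf]
    nlinarith
  have h4 := CNTW_exp
  have h1' : ((c₀ * (nf + 2) + 1 : ℕ) : ℝ) ≤ 4 * (((w : ℝ) + 1) * ((t : ℝ) ^ 2 * (N : ℝ) ^ 3)) := by
    exact_mod_cast h1
  have h2' : 4 * ((nf : ℝ) + 2) ^ 2 ≤ 9 * ((t : ℝ) * N) ^ 2 := by exact_mod_cast h2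
  have h5 : ((416 * (nf + 2) ^ 2 * (w + 1) : ℕ) : ℝ) ≤ 936 * ((t : ℝ) * N) ^ 2 * ((w : ℝ) + 1) := by
    push_cast
    have e1 : (4 * ((nf : ℝ) + 2) ^ 2) * ((w : ℝ) + 1) ≤ (9 * ((t : ℝ) * N) ^ 2) * ((w : ℝ) + 1) := by
      gcongr
    linarith
  unfold Cpar
  calc 2 * ((c₀ * (nf + 2) + 1 : ℕ) : ℝ) * ((416 * (nf + 2) ^ 2 * (w + 1) : ℕ) : ℝ) *
        Real.exp 4 ≤ 2 * (4 * (((w : ℝ) + 1) * ((t : ℝ) ^ 2 * (N : ℝ) ^ 3))) *
          (936 * ((t : ℝ) * N) ^ 2 * ((w : ℝ) + 1)) * 55 := by gcongr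
    _ = 411840 * ((w : ℝ) + 1) ^ 2 * ((t : ℝ) ^ 4 * (N : ℝ) ^ 5) := by ring

private theorem CNTW_one (V : Submodule ℚ ℝ) (y : ℝ) : IndepV V {[]} fun u => zetaH u y := by
  intro c _ h w hw
  rw [mem_singleton] at hw
  subst hw
  rw [sum_singleton] at h
  have h1 : zetaH [] y = 1 := by
    unfold zetaH
    have hu : ∀ k : {k : Fin ([] : List ℕ).length → ℕ // StrictAnti k},
        ∏ i, (((k.1 i : ℝ) + y) ^ (([] : List ℕ).get i))⁻¹ = 1 := fun k =>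
      Finset.prod_eq_one fun i _ => Fin.elim0 i
    have : Unique {k : Fin ([] : List ℕ).length → ℕ // StrictAnti k} :=
      ⟨⟨⟨fun i => Fin.elim0 i, fun i => Fin.elim0 i⟩⟩, fun k => Subtype.ext (funext fun i => Fin.elim0 i)⟩
    rw [tsum_congr hu, tsum_fintype, Finset.sum_const, Finset.card_univ, Fintype.card_unique, one_smul]
  dsimp only at h
  rw [h1, mul_one] at h
  exact h

theorem hurwitz_count
    (core : ∀ (D : MDat) {δ k r Q₁ Q₂ : ℕ},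
      Adm2 D.q (D.Fs.erase ([], 0)).card D.w D.c0 D.I.card δ k r Q₁ Q₂ → False)
    {Ws : Finset (List ℕ)} {w D q : ℕ} (hnil : [] ∈ Ws)
    (hpre : ∀ u v : List ℕ, u ++ v ∈ Ws → u ∈ Ws) (hadm : ∀ u ∈ Ws, Admissible u)
    (hw : ∀ u ∈ Ws, u.sum ≤ w) (hq : 2 ≤ q) {V : Submodule ℚ ℝ} (hVf : Module.Finite ℚ V)
    (hVD : Module.finrank ℚ V ≤ D) :
    ({x : ℕ | 0 < x ∧ x < q ∧ ¬ IndepV V Ws fun u => zetaH u ((x : ℝ) / q)}.ncard : ℝ) ≤
      500000 * ((w : ℝ) + 1) ^ 2 * (2 ^ D * (D : ℝ) ^ 4 * (Ws.card : ℝ) ^ 6) *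
        (q : ℝ) ^ (1 - 1 / ((D : ℝ) * Ws.card + 1)) := by
  classical
  have hN1 : 1 ≤ Ws.card := Finset.card_pos.2 ⟨_, hnil⟩
  obtain ⟨N, hN⟩ : ∃ N, N = Ws.card := ⟨_, rfl⟩
  rw [← hN]
  rw [← hN] at hN1
  have hq1 : (1 : ℝ) ≤ q := by exact_mod_cast (by omega : 1 ≤ q)
  set θ : ℝ := 1 - 1 / ((D : ℝ) * (N : ℝ) + 1) with hθ
  have hqθ : 0 ≤ (q : ℝ) ^ θ := Real.rpow_nonneg (Nat.cast_nonneg q) θ
  have hRHS : 0 ≤ 500000 * ((w : ℝ) + 1) ^ 2 * (2 ^ D * (D : ℝ) ^ 4 * (N : ℝ) ^ 6) * (q : ℝ) ^ θ :=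
    mul_nonneg (by positivity) hqθ
  have hempty : {x : ℕ | 0 < x ∧ x < q ∧ ¬ IndepV V Ws fun u => zetaH u ((x : ℝ) / q)} = ∅ →
      ({x : ℕ | 0 < x ∧ x < q ∧ ¬ IndepV V Ws fun u => zetaH u ((x : ℝ) / q)}.ncard : ℝ) ≤
      500000 * ((w : ℝ) + 1) ^ 2 * (2 ^ D * (D : ℝ) ^ 4 * (N : ℝ) ^ 6) * (q : ℝ) ^ θ := by
    intro h
    rw [h, Set.ncard_empty, Nat.cast_zero]
    exact hRHS
  rcases Nat.eq_zero_or_pos (Module.finrank ℚ V) with hr0 | hrpos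
  · have hbot : V = ⊥ := by
      have hVf' := hVf
      exact Submodule.finrank_eq_zero.1 hr0
    refine hempty ?_
    rw [Set.eq_empty_iff_forall_notMem]
    rintro x ⟨-, -, h⟩
    apply h
    intro c hc _ u hu
    have h1 := hc u hu
    rw [hbot, Submodule.mem_bot] at h1
    exact h1
  obtain ⟨s, hs⟩ : ∃ s, Module.finrank ℚ V = s + 1 := ⟨Module.finrank ℚ V - 1, by omega⟩
  have hsD : s < D := by omega
  by_cases hb2 : (s + 1) * N = 1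
  · have hNone : Ws.card = 1 := by
      have h1 : N ≤ (s + 1) * N := Nat.le_mul_of_pos_left N (by omega)
      omega
    obtain ⟨a, ha⟩ := Finset.card_eq_one.1 hNone
    have ha' : a = [] := by
      rw [ha, mem_singleton] at hnil
      exact hnil.symm
    subst ha'
    refine hempty ?_
    rw [Set.eq_empty_iff_forall_notMem]
    rintro x ⟨-, -, h⟩
    apply h
    rw [ha]
    exact CNTW_one V _
  have hb2' : 2 ≤ (s + 1) * N := by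
    have h1 : 1 ≤ (s + 1) * N := Nat.mul_pos (by omega) hN1
    omega
  obtain ⟨nf, hnf⟩ : ∃ nf, nf = (s + 1) * N - 1 := ⟨_, rfl⟩
  have hnf' : (s + 1) * N = nf + 1 := by omega
  have hnf1 : 1 ≤ nf := by omega
  obtain ⟨I₀, hI₀⟩ : ∃ I₀ : Finset ℕ, I₀ = (range q).filter fun x : ℕ => 0 < x ∧
      ¬ IndepV V Ws fun u => zetaH u ((x : ℝ) / q) := ⟨_, rfl⟩
  have hset : {x : ℕ | 0 < x ∧ x < q ∧ ¬ IndepV V Ws fun u => zetaH u ((x : ℝ) / q)} = (I₀ : Set ℕ) := by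
    ext x
    rw [hI₀, Finset.mem_coe, Finset.mem_filter, mem_range]
    constructor
    · rintro ⟨h1, h2, h3⟩
      exact ⟨h2, h1, h3⟩
    · rintro ⟨h2, h1, h3⟩
      exact ⟨h1, h2, h3⟩
  rcases I₀.eq_empty_or_nonempty with h0 | hne
  · refine hempty ?_
    rw [hset, h0, Finset.coe_empty]
  rw [hset, Set.ncard_coe_finset]
  have hVf' := hVf
  obtain ⟨Dd, e1, e2, e3, e4, e5, e6⟩ := repw (q := q) (w := w) hs (Ws := Ws) hne hq hnil hpre hadm hw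
    (by
      intro x hx
      rw [hI₀, Finset.mem_filter, mem_range] at hx
      exact ⟨hx.2.1, hx.1⟩)
    (by
      intro x hx
      rw [hI₀, Finset.mem_filter, mem_range] at hx
      exact hx.2.2)
  have eFs : (Dd.Fs.erase ([], 0)).card = nf := by
    have hz0 : (([] : List ℕ), (0 : Fin (Dd.DD + 1))) ∈ Dd.Fs := by
      unfold MDat.Fs
      exact mem_product.2 ⟨Dd.hnil, mem_univ _⟩
    rw [card_erase_of_mem hz0]
    unfold MDat.Fs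
    rw [card_product, card_univ, Fintype.card_fin, e3, e4, ← hN, mul_comm, hnf', Nat.add_sub_cancel]
  have ec0 : Dd.c0 ≤ 2 * ((w + 1) * (N ^ 2 * (s + 1))) := by
    unfold MDat.c0
    rw [e3, e4, ← hN]
    have h1 := sfx_card hadm hw
    rw [← hN] at h1
    calc 2 * ((sfx Ws).card * (N * (s + 1))) ≤ 2 * ((N * (w + 1)) * (N * (s + 1))) :=
          Nat.mul_le_mul_left _ (Nat.mul_le_mul_right _ h1)
      _ = 2 * ((w + 1) * (N ^ 2 * (s + 1))) := by ring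
  have hIq : Dd.I.card ≤ q := by
    have h1 : Dd.I ⊆ range q := by
      intro x hx
      rw [mem_range, ← e1]
      exact (Dd.hI x hx).2
    calc Dd.I.card ≤ (range q).card := card_le_card h1
      _ = q := card_range q
  have hlt : (Dd.I.card : ℝ) ≤ Cpar nf w Dd.c0 * (q : ℝ) ^ (1 - 1 / ((nf : ℝ) + 2)) := by
    by_contra hcon
    push Not at hcon
    obtain ⟨δ, k, r', Q₁, Q₂, hA⟩ := par2x nf w Dd.c0 hnf1 q Dd.I.card hq hIq hcon.le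
    refine core Dd (δ := δ) (k := k) (r := r') (Q₁ := Q₁) (Q₂ := Q₂) ?_
    rw [eFs, e2, e1]
    exact hA
  have hθs : (q : ℝ) ^ (1 - 1 / ((nf : ℝ) + 2)) ≤ (q : ℝ) ^ θ := by
    refine Real.rpow_le_rpow_of_exponent_le hq1 ?_
    rw [hθ]
    have h1 : (nf : ℝ) + 2 = ((s : ℝ) + 1) * N + 1 := by
      have : (((s + 1) * N : ℕ) : ℝ) = ((nf + 1 : ℕ) : ℝ) := by rw [hnf']
      push_cast at this
      linarith
    have h2 : ((s : ℝ) + 1) * N + 1 ≤ (D : ℝ) * N + 1 := by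
      have h3 : (s : ℝ) + 1 ≤ D := by exact_mod_cast hsD
      have h4 := mul_le_mul_of_nonneg_right h3 (Nat.cast_nonneg N : (0 : ℝ) ≤ N)
      linarith
    have h5 : (0 : ℝ) < ((s : ℝ) + 1) * N + 1 := by positivity
    rw [h1]
    have h6 := one_div_le_one_div_of_le h5 h2
    linarith
  have hC := CW_le (N := N) (w := w) (t := s + 1) (c₀ := Dd.c0) (nf := nf) hN1 (by omega) hnf' hb2' ec0
  have hC0 := Cpar_pos nf w Dd.c0
  have htD : ((s + 1 : ℕ) : ℝ) ≤ D := by exact_mod_cast hsD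
  have h2D : (2 : ℝ) ^ (s + 1) ≤ 2 ^ D := pow_le_pow_right₀ (by norm_num) (by omega)
  have h3D : ((s + 1 : ℕ) : ℝ) ^ 4 ≤ (D : ℝ) ^ 4 := pow_le_pow_left₀ (Nat.cast_nonneg _) htD 4
  have hC2 : Cpar nf w Dd.c0 ≤ 411840 * ((w : ℝ) + 1) ^ 2 * ((D : ℝ) ^ 4 * (N : ℝ) ^ 5) := by
    refine hC.trans ?_
    gcongr
  have hcast : (I₀.card : ℝ) ≤ N * 2 ^ (s + 1) * (Dd.I.card : ℝ) := by
    have h1 : I₀.card ≤ N * 2 ^ (s + 1) * Dd.I.card := by rw [hN]; exact e6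
    exact_mod_cast h1
  calc (I₀.card : ℝ) ≤ N * 2 ^ (s + 1) * (Dd.I.card : ℝ) := hcast
    _ ≤ N * 2 ^ D * (411840 * ((w : ℝ) + 1) ^ 2 * ((D : ℝ) ^ 4 * (N : ℝ) ^ 5) * (q : ℝ) ^ θ) := by
        refine mul_le_mul (mul_le_mul_of_nonneg_left h2D (Nat.cast_nonneg _)) ?_ (Nat.cast_nonneg _)
          (by positivity)
        exact hlt.trans (mul_le_mul hC2 hθs (Real.rpow_nonneg (Nat.cast_nonneg q) _) (by positivity))
    _ = 411840 * ((w : ℝ) + 1) ^ 2 * (2 ^ D * (D : ℝ) ^ 4 * (N : ℝ) ^ 6) * (q : ℝ) ^ θ := by ring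
    _ ≤ _ := by
        have h1 : 0 ≤ ((w : ℝ) + 1) ^ 2 * (2 ^ D * (D : ℝ) ^ 4 * (N : ℝ) ^ 6) * (q : ℝ) ^ θ :=
          mul_nonneg (by positivity) hqθ
        linarith

end CM68
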