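import Pool.Agent.LibMH.Defs

/-!
# Row R1: the partial sums (MEDIUM)

Plan: all by induction on the word (`pw` unfolds by `simp only [pw]` / `rw [pw]`).
`pw_split`: `k :: v`: `Finset.sum_range_add` cuts the sum over `m < M + l` into `m < M` (this is `pw q x (k :: v) M`, the term `i = 0`) and
`m = M + m'`, `m' < l`, where `q (M + m') + x = q m' + (x + q M)` and `pw q x v (M + m')` is the induction hypothesis; the sum over
`i ∈ range (v.length + 1)` of the terms `pw (k :: v.take i) l * pw (v.drop i) M` gives the terms `i + 1` (`Finset.sum_range_succ'`).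
`pw_le_pow`: every `1 / (q m + x)^k ≤ 1` for `1 ≤ x`; `pw_mono_x`: `1 / (q m + x)^k ≤ 1 / (m + 1)^k` (`q m + x ≥ m + 1`).
`pw_scale`: `1 / (q m + x)^k = 1 / q^k * (1 / (m + x / q)^k)`.
`sum_prefix`: the prefixes of `w` are the `w.take i`, `i ≤ length`, distinct (`Finset.sum_filter`, `sum_image` with `i ↦ w.take i`, `(w.take i).length = i`), all in `Ws`
(`hpre`, `List.take_append_drop`).
`p_shift`: `(j + q l) % q = j % q`, `(j + q l) / q = j / q + l`, `pw_split` with `M = j / q + T + 1`, `j % q + q M = j + q (T + 1)`.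
-/

namespace CM68

open Finset Polynomial

theorem pw_nonneg (q : ℕ) {x : ℝ} (hx : 0 ≤ x) (v : List ℕ) (N : ℕ) : 0 ≤ pw q x v N := by
  induction v generalizing N with
  | nil => simp [pw]
  | cons k v ih =>
    simp only [pw]
    exact Finset.sum_nonneg fun m _ => mul_nonneg (by positivity) (ih m)

theorem pw_split (q : ℕ) (x : ℝ) (v : List ℕ) (M l : ℕ) :
    pw q x v (M + l) =
      ∑ i ∈ range (v.length + 1), pw q (x + q * M) (v.take i) l * pw q x (v.drop i) M := by
  induction v generalizing l with
  | nil => simp [pw]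
  | cons k v ih =>
    have hL : pw q x (k :: v) (M + l) = pw q x (k :: v) M +
        ∑ m ∈ range l, 1 / ((q : ℝ) * m + (x + q * M)) ^ k *
          ∑ i ∈ range (v.length + 1), pw q (x + q * M) (v.take i) m * pw q x (v.drop i) M := by
      simp only [pw]
      rw [Finset.sum_range_add]
      congr 1
      refine Finset.sum_congr rfl fun m _ => ?_
      rw [ih m]
      congr 3
      push_cast
      ring
    have hR : ∑ i ∈ range ((k :: v).length + 1),
        pw q (x + q * M) ((k :: v).take i) l * pw q x ((k :: v).drop i) M =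
        (∑ i ∈ range (v.length + 1), pw q (x + q * M) (k :: v.take i) l * pw q x (v.drop i) M) +
          pw q x (k :: v) M := by
      rw [List.length_cons, Finset.sum_range_succ' _ (v.length + 1)]
      simp only [List.take_succ_cons, List.drop_succ_cons, List.take_zero, List.drop_zero]
      congr 1
      simp only [pw, one_mul]
    rw [hL, hR, add_comm]
    congr 1
    simp only [pw]
    simp_rw [Finset.mul_sum, Finset.sum_mul]
    rw [Finset.sum_comm]
    refine Finset.sum_congr rfl fun i _ => ?_
    refine Finset.sum_congr rfl fun m _ => ?_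
    ring

theorem pw_le_pow {q : ℕ} {x : ℝ} (hx : 1 ≤ x) (v : List ℕ) (N : ℕ) :
    pw q x v N ≤ (N : ℝ) ^ v.length := by
  induction v generalizing N with
  | nil => simp [pw]
  | cons k v ih =>
    simp only [pw, List.length_cons]
    calc ∑ m ∈ range N, 1 / ((q : ℝ) * m + x) ^ k * pw q x v m
        ≤ ∑ _m ∈ range N, (1 : ℝ) * (N : ℝ) ^ v.length := by
          refine Finset.sum_le_sum fun m hm => ?_
          have hm' := Finset.mem_range.1 hm
          refine mul_le_mul ?_ ?_ (pw_nonneg q (by linarith) v m) zero_le_one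
          · rw [div_le_one (by positivity)]
            apply one_le_pow₀
            have : (0 : ℝ) ≤ (q : ℝ) * m := by positivity
            linarith
          · refine (ih m).trans ?_
            exact pow_le_pow_left₀ (Nat.cast_nonneg m) (by exact_mod_cast hm'.le) _
      _ = (N : ℝ) ^ (v.length + 1) := by
          rw [Finset.sum_const, Finset.card_range, nsmul_eq_mul]
          ring

theorem pw_mono_x {q : ℕ} (hq : 1 ≤ q) {x : ℝ} (hx : 1 ≤ x) (v : List ℕ) (N : ℕ) :
    pw q x v N ≤ pw 1 1 v N := by
  induction v generalizing N with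
  | nil => simp [pw]
  | cons k v ih =>
    simp only [pw]
    refine Finset.sum_le_sum fun m _ => ?_
    refine mul_le_mul ?_ (ih m) (pw_nonneg q (by linarith) v m) (by positivity)
    apply one_div_le_one_div_of_le (by positivity)
    apply pow_le_pow_left₀ (by positivity)
    have h1 : (1 : ℝ) ≤ q := by exact_mod_cast hq
    have h2 : (0 : ℝ) ≤ m := Nat.cast_nonneg m
    push_cast
    nlinarith

theorem pw_scale {q : ℕ} (hq : 1 ≤ q) (x : ℝ) (v : List ℕ) (N : ℕ) :
    pw q x v N = 1 / (q : ℝ) ^ v.sum * pw 1 (x / q) v N := by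
  have hq0 : (q : ℝ) ≠ 0 := by exact_mod_cast (by omega : q ≠ 0)
  induction v generalizing N with
  | nil => simp [pw]
  | cons k v ih =>
    simp only [pw, List.sum_cons]
    rw [Finset.mul_sum]
    refine Finset.sum_congr rfl fun m _ => ?_
    rw [ih m]
    have h1 : (q : ℝ) * m + x = q * (((1 : ℕ) : ℝ) * m + x / q) := by
      push_cast
      field_simp
    rw [h1, mul_pow, pow_add]
    simp only [one_div, mul_inv]
    ring

/-- the sum over the prefixes of a word -/
theorem sum_prefix {Ws : Finset (List ℕ)} (hpre : ∀ u v : List ℕ, u ++ v ∈ Ws → u ∈ Ws)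
    {w : List ℕ} (hw : w ∈ Ws) (f : List ℕ → ℝ) :
    ∑ u ∈ Ws, (if u <+: w then f u else 0) = ∑ i ∈ range (w.length + 1), f (w.take i) := by
  rw [← Finset.sum_filter]
  have himg : Ws.filter (fun u => u <+: w) = (range (w.length + 1)).image fun i => w.take i := by
    ext u
    rw [Finset.mem_filter, Finset.mem_image]
    constructor
    · rintro ⟨_, hu⟩
      refine ⟨u.length, ?_, ?_⟩
      · rw [Finset.mem_range]
        exact Nat.lt_succ_of_le hu.length_le
      · exact (List.prefix_iff_eq_take.1 hu).symm
    · rintro ⟨i, _, rfl⟩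
      refine ⟨?_, List.take_prefix i w⟩
      apply hpre (w.take i) (w.drop i)
      rw [List.take_append_drop]
      exact hw
  rw [himg, Finset.sum_image]
  intro i hi j hj hij
  simp only [Finset.coe_range, Set.mem_Iio] at hi hj
  have h1 := congrArg List.length hij
  simp only [List.length_take] at h1
  omega

/-- the partial sums at the node `j + q l` -/
theorem p_shift {q : ℕ} (hq : 1 ≤ q) (T : ℕ) (v : List ℕ) (j l : ℕ) :
    pw q (((j + q * l) % q : ℕ) : ℝ) v ((j + q * l) / q + T + 1) =
      ∑ i ∈ range (v.length + 1), pw q ((j : ℝ) + q * (T + 1)) (v.take i) l *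
        pw q ((j % q : ℕ) : ℝ) (v.drop i) (j / q + T + 1) := by
  have h1 : (j + q * l) % q = j % q := Nat.add_mul_mod_self_left j q l
  have h2 : (j + q * l) / q = j / q + l := Nat.add_mul_div_left j l (by omega)
  have h3 : j / q + l + T + 1 = (j / q + T + 1) + l := by ring
  rw [h1, h2, h3, pw_split]
  have h4 : ((j % q : ℕ) : ℝ) + q * ((j / q + T + 1 : ℕ) : ℝ) = (j : ℝ) + q * (T + 1) := by
    have h5 : (j : ℝ) = ((j % q : ℕ) : ℝ) + q * ((j / q : ℕ) : ℝ) := by
      have := Nat.mod_add_div j q
      exact_mod_cast this.symm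
    rw [h5]
    push_cast
    have h6 : ((j % q + q * (j / q) : ℕ)) = j := Nat.mod_add_div j q
    ring
  rw [h4]

end CM68
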