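import Pool.Agent.LibCM2.Defs

/-!
# MH: linear relations between the multiple Hurwitz zeta values `ζ(w; x/q)`, `w` in a finite set of words: definitions

A word is a list `k_1 :: k_2 :: .. :: k_r :: []` of positive integers; `k_1` belongs to the largest summation variable.
`pw q x w N` is the sum of `∏ (q m_i + x)^(-k_i)` over `N > m_1 > .. > m_r ≥ 0`, `sw q x w` the sum over all `m_1 > .. > m_r ≥ 0`.
`sw 1 y w = ζ(w; y)`, `sw q x w = q^(-|w|) ζ(w; x/q)`.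

The data `MDat` are as `Dat3` (LibCM3/Defs3.lean) with words instead of monomials, and deconcatenation instead of Taylor's formula.
-/

namespace CM68

open Finset Polynomial

/-- the sum of `∏ (q m_i + x)^(-k_i)` over `N > m_1 > .. > m_r ≥ 0` -/
noncomputable def pw (q : ℕ) (x : ℝ) : List ℕ → ℕ → ℝ
  | [], _ => 1
  | k :: v, N => ∑ m ∈ range N, 1 / ((q : ℝ) * m + x) ^ k * pw q x v m

/-- the sum of `∏ (q m_i + x)^(-k_i)` over `m_1 > .. > m_r ≥ 0` -/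
noncomputable def sw (q : ℕ) (x : ℝ) : List ℕ → ℝ
  | [] => 1
  | k :: v => ∑' m : ℕ, 1 / ((q : ℝ) * m + x) ^ k * pw q x v m

/-- positive letters, the first one at least `2` -/
def Adms (u : List ℕ) : Prop := (∀ k ∈ u, 1 ≤ k) ∧ ∀ k ∈ u.head?, 2 ≤ k

/-- The data: level `q`; `Ws` a finite set of admissible words of weight `≤ w`, closed under prefixes; for `x ∈ I` the relation
`∑ u ∈ Ws, (∑ δ, co u δ x * vv δ) * sw q x u = 0`, whose words have length `≤ e`; `β₀` a word of length `e`; the vectors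
`(co β₀ δ x)_δ` lie in `U` and spread in `U`, and `U` contains `(1, 0, .., 0)`. -/
structure MDat where
  q : ℕ
  w : ℕ
  e : ℕ
  DD : ℕ
  Ws : Finset (List ℕ)
  I : Finset ℕ
  vv : Fin (DD + 1) → ℝ
  co : List ℕ → Fin (DD + 1) → ℕ → ℚ
  β₀ : List ℕ
  U : Submodule ℚ (Fin (DD + 1) → ℚ)
  hq : 2 ≤ q
  hnil : [] ∈ Ws
  hpre : ∀ u v : List ℕ, u ++ v ∈ Ws → u ∈ Ws
  hadm : ∀ u ∈ Ws, Adms u
  hw : ∀ u ∈ Ws, u.sum ≤ w
  hI : ∀ x ∈ I, 0 < x ∧ x < q
  hIne : I.Nonempty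
  hv : vv 0 ≠ 0
  hsup : ∀ x ∈ I, ∀ u ∈ Ws, ∀ δ, co u δ x ≠ 0 → u.length ≤ e
  hβ₀ : β₀ ∈ Ws
  hβe : β₀.length = e
  hU : ∀ x ∈ I, (fun δ => co β₀ δ x) ∈ U
  hspread : ∀ U' : Submodule ℚ (Fin (DD + 1) → ℚ), U' < U → ∀ F : Finset ℕ, F ⊆ I →
    (∀ x ∈ F, (fun δ => co β₀ δ x) ∈ U') → 2 * F.card < I.card
  hone : (fun δ => if δ = 0 then (1 : ℚ) else 0) ∈ U
  hrel : ∀ x ∈ I, ∑ u ∈ Ws, (∑ δ, (co u δ x : ℝ) * vv δ) * sw q (x : ℝ) u = 0

/-- the suffixes of the words of `Ws` -/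
def sfx (Ws : Finset (List ℕ)) : Finset (List ℕ) := Ws.biUnion fun u => (u.tails).toFinset

namespace MDat

variable (D : MDat)

/-- the nodes `j` -/
def Nd (n : ℕ) : Finset ℕ := P D.q n D.I

/-- the families `(u, δ)` -/
def Fs : Finset (List ℕ × Fin (D.DD + 1)) := D.Ws ×ˢ univ

/-- the tails: the sum over `m_1 > .. > m_r > j / q + T` -/
noncomputable def A (T : ℕ) (u : List ℕ) (j : ℕ) : ℝ := sw D.q ((j : ℝ) + D.q * (T + 1)) u

/-- the sum of `∏ (q m_i + j % q)^(-k_i)` over `j / q + T ≥ m_1 > .. > m_r ≥ 0` -/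
noncomputable def p (T : ℕ) (v : List ℕ) (j : ℕ) : ℝ := pw D.q ((j % D.q : ℕ) : ℝ) v (j / D.q + T + 1)

/-- the coefficients of the tails -/
noncomputable def H (T : ℕ) (u : List ℕ) (δ : Fin (D.DD + 1)) (j : ℕ) : ℝ :=
  ∑ w ∈ D.Ws, if u <+: w then (D.co w δ (j % D.q) : ℝ) * D.p T (w.drop u.length) j else 0

/-- the index set of the rows (i) -/
abbrev RA4 (d : ℕ) : Type := (D.Fs.erase ([], 0)) × Fin d

/-- the rows (i) -/
noncomputable def rowA (T d : ℕ) (a : D.RA4 d) (j : ℕ) : ℝ :=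
  D.H T a.1.1.1 a.1.1.2 j * (j.choose a.2 : ℝ)

/-- the rows (iv) -/
noncomputable def rowB (T i j : ℕ) : ℝ := D.H T [] 0 j * (j.choose i : ℝ)

/-- the span of the rows (i), as functions on the nodes -/
noncomputable def rsp (n T d : ℕ) : Submodule ℝ (D.Nd n → ℝ) :=
  Submodule.span ℝ (Set.range fun (a : D.RA4 d) (j : D.Nd n) => D.rowA T d a j)

/-- the column factors -/
noncomputable def wt (n T j : ℕ) : ℕ := ⌊|(WP D.q n T D.w).eval (j : ℝ)|⌋₊

/-- the sum of the ratios `|vv δ / vv 0|` -/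
noncomputable def Vm : ℝ := ∑ δ, |D.vv δ / D.vv 0|

/-- the constant of the zero estimate -/
def c0 : ℕ := 2 * ((sfx D.Ws).card * (D.Ws.card * (D.DD + 1)))

/-- the constants of the expansions of the tails -/
noncomputable def Kc : ℝ := ∑ u ∈ D.Ws, sw 1 1 u

def ec : ℕ := 2 * D.w

end MDat

end CM68
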