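import Mathlib

/-!
# Row R9: Casorati's lemma for words (STRONG, ONLY MATHLIB; template LibCM2/Z7.lean, proved; simpler)

`F` a field over `ℝ` with an automorphism `σ` whose fixed elements are real.  `pwF σ ρ v l = ∑_{l > t_1 > .. > t_r ≥ 0} ∏ σ^(t_i) (ρ k_i)`.
`E` is a finite set of pairs (word, index), closed under prefixes of the word.  Claim: no nontrivial relation over `F` between the functions `pwF v σ^l (f i)`,
`(v, i) ∈ E`, for `l < card E`.
* `pwF_succ`: `pwF v (l + 1) = σ (pwF v l) + ρ (last letter) * σ (pwF v.dropLast l)` for `v ≠ []` (either all `t_i ≥ 1` or `t_r = 0`); induction on `v`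
  (`k :: v`, `v ≠ []`: `∑_{m < l+1} σ^m (ρ k) pwF v m`, the term `m = 0` is `pwF v 0 = 0`, `Finset.sum_range_succ'`; `v = []`: `∑_{m<l+1} σ^m (ρ k) = ρ k + σ (∑_{m<l} ..)`).
* `casw`: induction on `card E` for all `E, c` (as `Z7_main`).  Take `(v*, i*) ∈ E` with `v*.length` maximal; `E' = E.erase (v*, i*)` is prefix-closed.
  If `c (v*, i*) = 0`: induction hypothesis.  If not, divide: `c (v*, i*) = 1`.  `R (l + 1)` is `∑_{(v, i) ∈ E} c (v, i) [σ (pwF v l) + ρ_last σ (pwF v⁻ l)] σ^(l+1) (f i)`
  `= ∑_{(v, i) ∈ E} c' (v, i) σ (pwF v l σ^l (f i))`, `c' (v, i) = c (v, i) + ∑_{k ∈ K, (v ++ [k], i) ∈ E} c (v ++ [k], i) ρ k`; `c' (v*, i*) = 1`.  The difference with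
  `σ (R l)`, then `σ.symm`: a relation on `E'` for `l < card E'`; so `c' = σ c` on `E`: (1) for `v` of maximal length `c (v, i)` is `σ`-fixed, hence real (`hconst`);
  (2) if `v* ≠ []`, at `(v*.dropLast, i*)`: `σ c - c = ∑_{k ∈ K, ..} c (v ++ [k], i*) ρ k` with real coefficients (all `v ++ [k]` have maximal length), the one of the last
  letter of `v*` is `1`: contradiction with `hns`.  (3) If `v* = []`: all words of `E` are `[]`, `R 0`: `∑ c ([], i) f i = 0`, real coefficients, one of them `1`:
  contradiction with `hf`.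
-/

namespace CM68

open Finset

/-- the sum over `l > t_1 > .. > t_r ≥ 0` of `∏ σ^(t_i) (ρ k_i)` -/
def pwF {F : Type*} [Field F] (σ : F ≃+* F) (ρ : ℕ → F) : List ℕ → ℕ → F
  | [], _ => 1
  | k :: v, l => ∑ m ∈ range l, (⇑σ)^[m] (ρ k) * pwF σ ρ v m

private theorem R9_zero {F : Type*} [Field F] (σ : F ≃+* F) (ρ : ℕ → F) (v : List ℕ) (k : ℕ) :
    pwF σ ρ (v ++ [k]) 0 = 0 := by
  cases v with
  | nil => simp [pwF]
  | cons j v => simp [pwF]

theorem pwF_succ {F : Type*} [Field F] (σ : F ≃+* F) (ρ : ℕ → F) (v : List ℕ) (k l : ℕ) :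
    pwF σ ρ (v ++ [k]) (l + 1) = σ (pwF σ ρ (v ++ [k]) l) + ρ k * σ (pwF σ ρ v l) := by
  induction v generalizing l with
  | nil =>
    simp only [List.nil_append, pwF, mul_one]
    rw [Finset.sum_range_succ', map_sum, map_one, mul_one]
    simp only [Function.iterate_succ_apply', Function.iterate_zero, id_eq]
  | cons j v ih =>
    simp only [List.cons_append, pwF]
    rw [Finset.sum_range_succ', R9_zero, mul_zero, add_zero, map_sum, map_sum, Finset.mul_sum,
      ← Finset.sum_add_distrib]
    refine Finset.sum_congr rfl fun m _ => ?_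
    rw [ih, map_mul, map_mul, Function.iterate_succ_apply']
    ring

private theorem R9_cases (u : List ℕ) : u = [] ∨ ∃ (v : List ℕ) (k : ℕ), u = v ++ [k] := by
  rcases List.eq_nil_or_concat u with h | ⟨v, k, h⟩
  · exact Or.inl h
  · exact Or.inr ⟨v, k, by rw [h, List.concat_eq_append]⟩

private noncomputable def R9_r {F : Type*} [Field F] (ρ : ℕ → F) (u : List ℕ) : F :=
  if u = [] then 0 else ρ (u.getLastD 0)

private theorem R9_r_append {F : Type*} [Field F] (ρ : ℕ → F) (v : List ℕ) (k : ℕ) :
    R9_r ρ (v ++ [k]) = ρ k := by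
  unfold R9_r
  rw [if_neg (by simp)]
  congr 1
  simp [List.getLastD_eq_getLast?]

private noncomputable def R9_g {F : Type*} [Field F] (σ : F ≃+* F) {S : ℕ} (f : Fin S → F)
    (ρ : ℕ → F) (p : List ℕ × Fin S) (l : ℕ) : F :=
  pwF σ ρ p.1 l * (⇑σ)^[l] (f p.2)

private noncomputable def R9_T {F : Type*} [Field F] {S : ℕ} (ρ : ℕ → F)
    (p q : List ℕ × Fin S) : F :=
  (if q = p then 1 else 0) + if q = (p.1.dropLast, p.2) then R9_r ρ p.1 else 0

private theorem R9_g_succ {F : Type*} [Field F] (σ : F ≃+* F) {S : ℕ} (f : Fin S → F)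
    (ρ : ℕ → F) (E : Finset (List ℕ × Fin S))
    (hE : ∀ (u v : List ℕ) (i : Fin S), (u ++ v, i) ∈ E → (u, i) ∈ E)
    {p : List ℕ × Fin S} (hp : p ∈ E) (l : ℕ) :
    R9_g σ f ρ p (l + 1) = ∑ q ∈ E, R9_T ρ p q * σ (R9_g σ f ρ q l) := by
  obtain ⟨u, i⟩ := p
  unfold R9_T
  simp only [add_mul, ite_mul, one_mul, zero_mul]
  rw [Finset.sum_add_distrib, Finset.sum_ite_eq' E, Finset.sum_ite_eq' E, if_pos hp]
  rcases R9_cases u with rfl | ⟨v, k, rfl⟩
  · have h1 : R9_r ρ ([] : List ℕ) = 0 := if_pos rfl
    simp only [h1, zero_mul, ite_self, add_zero]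
    unfold R9_g
    simp only [pwF, one_mul]
    rw [Function.iterate_succ_apply']
  · rw [List.dropLast_concat, if_pos (hE v [k] i hp), R9_r_append]
    unfold R9_g
    simp only
    rw [pwF_succ, map_mul, map_mul, Function.iterate_succ_apply']
    ring

private theorem R9_main {F : Type*} [Field F] [Algebra ℝ F] (σ : F ≃+* F)
    (hconst : ∀ g : F, σ g = g → ∃ r : ℝ, g = algebraMap ℝ F r)
    {S : ℕ} (f : Fin S → F) (hf : LinearIndependent ℝ f) (ρ : ℕ → F) (K : Finset ℕ)
    (hns : ∀ (a : ℕ → ℝ) (g : F), σ g - g = ∑ k ∈ K, algebraMap ℝ F (a k) * ρ k →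
      ∀ k ∈ K, a k = 0)
    (n : ℕ) : ∀ (E : Finset (List ℕ × Fin S)), E.card = n →
    (∀ (u v : List ℕ) (i : Fin S), (u ++ v, i) ∈ E → (u, i) ∈ E) →
    (∀ p ∈ E, ∀ k ∈ p.1, k ∈ K) →
    ∀ (c : List ℕ × Fin S → F),
    (∀ l < n, ∑ p ∈ E, c p * R9_g σ f ρ p l = 0) → ∀ p ∈ E, c p = 0 := by
  induction n with
  | zero =>
    intro E hEc _ _ c _ p hp
    rw [Finset.card_eq_zero.1 hEc] at hp
    exact absurd hp (Finset.notMem_empty p)
  | succ n ih =>
    intro E hEc hE hK c h
    have hne : E.Nonempty := by
      rw [← Finset.card_pos, hEc]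
      omega
    obtain ⟨P, hP, hmax⟩ := Finset.exists_max_image E (fun p => p.1.length) hne
    have hE' : ∀ (u v : List ℕ) (i : Fin S), (u ++ v, i) ∈ E.erase P → (u, i) ∈ E.erase P := by
      intro u v i hp
      have hpE := Finset.mem_of_mem_erase hp
      refine Finset.mem_erase.2 ⟨?_, hE u v i hpE⟩
      intro heq
      have h1 : u = P.1 := congrArg Prod.fst heq
      have h2 : i = P.2 := (Prod.ext_iff.1 heq).2
      have h3 : (u ++ v).length ≤ P.1.length := hmax _ hpE
      rw [List.length_append, ← h1] at h3
      have h4 : v = [] := List.eq_nil_of_length_eq_zero (by omega)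
      refine Finset.ne_of_mem_erase hp (Prod.ext ?_ h2)
      rw [h4, List.append_nil]
      exact h1
    have hK' : ∀ p ∈ E.erase P, ∀ k ∈ p.1, k ∈ K := fun p hp =>
      hK p (Finset.mem_of_mem_erase hp)
    have hcard' : (E.erase P).card = n := by
      rw [Finset.card_erase_of_mem hP, hEc, Nat.add_sub_cancel]
    have hsplit : ∀ (c : List ℕ × Fin S → F) (g : List ℕ × Fin S → F), c P = 0 →
        ∑ p ∈ E.erase P, c p * g p = ∑ p ∈ E, c p * g p := by
      intro c g hc
      rw [← Finset.add_sum_erase E (fun p => c p * g p) hP, hc, zero_mul, zero_add]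
    by_cases hx : c P = 0
    · have h1 := ih (E.erase P) hcard' hE' hK' c fun l hl => by
        rw [hsplit c (fun p => R9_g σ f ρ p l) hx]
        exact h l (by omega)
      intro p hp
      by_cases hpP : p = P
      · rw [hpP, hx]
      · exact h1 p (Finset.mem_erase.2 ⟨hpP, hp⟩)
    · exfalso
      set d : List ℕ × Fin S → F := fun p => c p / c P with hd
      have hR : ∀ l < n + 1, ∑ p ∈ E, d p * R9_g σ f ρ p l = 0 := by
        intro l hl
        have h1 : ∑ p ∈ E, d p * R9_g σ f ρ p l = (∑ p ∈ E, c p * R9_g σ f ρ p l) / c P := by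
          rw [Finset.sum_div]
          exact Finset.sum_congr rfl fun i _ => by simp only [hd]; ring
        rw [h1, h l hl, zero_div]
      have hdP : d P = 1 := div_self hx
      set d' : List ℕ × Fin S → F := fun q => ∑ p ∈ E, d p * R9_T ρ p q with hd'
      -- the new coefficients
      have hd's : ∀ q ∈ E, d' q = d q +
          ∑ p ∈ E, if q = (p.1.dropLast, p.2) then d p * R9_r ρ p.1 else 0 := by
        intro q hq
        show ∑ p ∈ E, d p * R9_T ρ p q = _
        unfold R9_T
        simp only [mul_add, mul_ite, mul_one, mul_zero]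
        rw [Finset.sum_add_distrib, Finset.sum_ite_eq E, if_pos hq]
      have hd'top : ∀ q ∈ E, q.1.length = P.1.length → d' q = d q := by
        intro q hq hq1
        rw [hd's q hq, Finset.sum_eq_zero, add_zero]
        intro p hp
        split_ifs with h1
        · obtain ⟨u, i⟩ := p
          rcases R9_cases u with rfl | ⟨v, k, rfl⟩
          · have h2 : R9_r ρ ([] : List ℕ) = 0 := if_pos rfl
            simp only [h2, mul_zero]
          · exfalso
            rw [List.dropLast_concat] at h1
            have h2 := hmax _ hp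
            have h3 : q.1 = v := congrArg Prod.fst h1
            simp only [List.length_append, List.length_singleton] at h2
            rw [h3] at hq1
            omega
        · rfl
      have hR' : ∀ l < n, ∑ q ∈ E, (d' q - σ (d q)) * σ (R9_g σ f ρ q l) = 0 := by
        intro l hl
        have e1 := hR (l + 1) (by omega)
        have e0 := congrArg σ (hR l (by omega))
        rw [map_sum, map_zero] at e0
        have e2 : ∑ p ∈ E, d p * R9_g σ f ρ p (l + 1) =
            ∑ q ∈ E, d' q * σ (R9_g σ f ρ q l) := by
          have e3 : ∀ p ∈ E, d p * R9_g σ f ρ p (l + 1) =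
              ∑ q ∈ E, d p * R9_T ρ p q * σ (R9_g σ f ρ q l) := by
            intro p hp
            rw [R9_g_succ σ f ρ E hE hp, Finset.mul_sum]
            exact Finset.sum_congr rfl fun q _ => by ring
          rw [Finset.sum_congr rfl e3, Finset.sum_comm]
          refine Finset.sum_congr rfl fun q _ => ?_
          rw [← Finset.sum_mul]
        have e4 : ∑ q ∈ E, (d' q - σ (d q)) * σ (R9_g σ f ρ q l) =
            ∑ p ∈ E, d p * R9_g σ f ρ p (l + 1) - ∑ q ∈ E, σ (d q * R9_g σ f ρ q l) := by
          rw [e2, ← Finset.sum_sub_distrib]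
          refine Finset.sum_congr rfl fun q _ => ?_
          rw [map_mul]
          ring
        rw [e4, e1, e0, sub_zero]
      have hfix : ∀ q ∈ E, d' q = σ (d q) := by
        have h1 := ih (E.erase P) hcard' hE' hK' (fun q => σ.symm (d' q - σ (d q)))
          fun l hl => by
            have hPz : σ.symm (d' P - σ (d P)) = 0 := by
              rw [hd'top P hP rfl, hdP, map_one, sub_self, map_zero]
            rw [hsplit (fun q => σ.symm (d' q - σ (d q))) (fun p => R9_g σ f ρ p l) hPz]
            have e1 := congrArg σ.symm (hR' l hl)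
            rw [map_sum, map_zero] at e1
            rw [← e1]
            refine Finset.sum_congr rfl fun q _ => ?_
            rw [map_mul, RingEquiv.symm_apply_apply]
        intro q hq
        by_cases hqP : q = P
        · rw [hqP, hd'top P hP rfl, hdP, map_one]
        · have h2 := h1 q (Finset.mem_erase.2 ⟨hqP, hq⟩)
          have h3 := (map_eq_zero_iff σ.symm σ.symm.injective).1 h2
          exact sub_eq_zero.1 h3
      have hreal : ∀ q ∈ E, q.1.length = P.1.length → ∃ r : ℝ, d q = algebraMap ℝ F r := by
        intro q hq hq1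
        refine hconst _ ?_
        rw [← hfix q hq, hd'top q hq hq1]
      obtain ⟨U, i⟩ := P
      rcases R9_cases U with rfl | ⟨v, k0, rfl⟩
      · -- all words are empty
        have hall : ∀ p ∈ E, p.1 = [] := by
          intro p hp
          have h1 := hmax p hp
          simp only [List.length_nil] at h1
          exact List.eq_nil_of_length_eq_zero (by omega)
        have hex : ∀ i : Fin S, ∃ r : ℝ,
            (if (([] : List ℕ), i) ∈ E then d ([], i) else 0) = algebraMap ℝ F r := by
          intro i
          by_cases hm : (([] : List ℕ), i) ∈ E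
          · rw [if_pos hm]
            exact hreal _ hm rfl
          · rw [if_neg hm]
            exact ⟨0, (map_zero _).symm⟩
        choose r hr using hex
        have h0 := hR 0 (by omega)
        have hEi : E = (Finset.univ.image fun i : Fin S => (([] : List ℕ), i)).filter
            (fun p => p ∈ E) := by
          ext p
          constructor
          · intro hp
            exact Finset.mem_filter.2 ⟨Finset.mem_image.2 ⟨p.2, Finset.mem_univ _,
              Prod.ext (hall p hp).symm rfl⟩, hp⟩
          · intro hp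
            exact (Finset.mem_filter.1 hp).2
        have h1 : ∑ i, r i • f i = 0 := by
          have h2 : ∑ p ∈ E, d p * R9_g σ f ρ p 0 =
              ∑ i : Fin S, (if (([] : List ℕ), i) ∈ E then d ([], i) else 0) * f i := by
            conv_lhs => rw [hEi]
            rw [Finset.sum_filter, Finset.sum_image (fun a _ b _ hab => (Prod.ext_iff.1 hab).2)]
            refine Finset.sum_congr rfl fun i _ => ?_
            have h3 : R9_g σ f ρ (([] : List ℕ), i) 0 = f i := by
              unfold R9_g
              simp [pwF]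
            rw [h3]
            split_ifs
            · rfl
            · rw [zero_mul]
          rw [← h0, h2]
          exact Finset.sum_congr rfl fun i _ => by rw [hr i, Algebra.smul_def]
        have h4 := Fintype.linearIndependent_iff.1 hf r h1 i
        have h5 := hr i
        rw [if_pos hP, hdP, h4, map_zero] at h5
        exact one_ne_zero h5
      · -- the word without its last letter
        have hq0 : (v, i) ∈ E := hE v [k0] i hP
        set Q : ℕ → List ℕ × Fin S := fun k => (v ++ [k], i) with hQ
        have hQinj : Function.Injective Q := by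
          intro a b hab
          have h1 : v ++ [a] = v ++ [b] := congrArg Prod.fst hab
          have h2 := List.append_cancel_left h1
          exact List.singleton_inj.1 h2
        have hex : ∀ k, ∃ r : ℝ, (if Q k ∈ E then d (Q k) else 0) = algebraMap ℝ F r := by
          intro k
          by_cases hm : Q k ∈ E
          · rw [if_pos hm]
            refine hreal _ hm ?_
            simp only [hQ, List.length_append, List.length_singleton]
          · rw [if_neg hm]
            exact ⟨0, (map_zero _).symm⟩
        choose r hr using hex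
        have hd'q : d' (v, i) = d (v, i) + ∑ k ∈ K, algebraMap ℝ F (r k) * ρ k := by
          rw [hd's _ hq0]
          congr 1
          have h1 : ∑ p ∈ (K.image Q).filter (fun p => p ∈ E),
              (if ((v, i) : List ℕ × Fin S) = (p.1.dropLast, p.2) then d p * R9_r ρ p.1 else 0) =
              ∑ p ∈ E, if ((v, i) : List ℕ × Fin S) = (p.1.dropLast, p.2) then
                d p * R9_r ρ p.1 else 0 := by
            refine Finset.sum_subset ?_ ?_
            · intro p hp
              exact (Finset.mem_filter.1 hp).2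
            · intro p hp hp'
              split_ifs with h2
              · obtain ⟨u, j⟩ := p
                rcases R9_cases u with rfl | ⟨v', k, rfl⟩
                · have h3 : R9_r ρ ([] : List ℕ) = 0 := if_pos rfl
                  simp only [h3, mul_zero]
                · exfalso
                  rw [List.dropLast_concat] at h2
                  obtain ⟨h3, h4⟩ := Prod.ext_iff.1 h2
                  simp only at h3 h4
                  subst h3 h4
                  refine hp' (Finset.mem_filter.2 ⟨Finset.mem_image.2 ⟨k, ?_, rfl⟩, hp⟩)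
                  exact hK _ hp k (by simp)
              · rfl
          rw [← h1, Finset.sum_filter, Finset.sum_image (fun a _ b _ hab => hQinj hab)]
          refine Finset.sum_congr rfl fun k _ => ?_
          rw [← hr k]
          have h5 : ((v, i) : List ℕ × Fin S) = ((Q k).1.dropLast, (Q k).2) := by
            simp only [hQ, List.dropLast_concat]
          rw [if_pos h5]
          have h6 : R9_r ρ (Q k).1 = ρ k := R9_r_append ρ v k
          rw [h6]
          split_ifs
          · rfl
          · rw [zero_mul]
        have h1 := hfix _ hq0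
        rw [hd'q] at h1
        have h2 := hns r (d (v, i)) (by linear_combination -h1) k0 (hK _ hP k0 (by simp))
        have h5 := hr k0
        have h6 : Q k0 ∈ E := hP
        have h7 : d (Q k0) = 1 := hdP
        rw [if_pos h6, h7, h2, map_zero] at h5
        exact one_ne_zero h5

theorem casw {F : Type*} [Field F] [Algebra ℝ F] (σ : F ≃+* F)
    (hσ : ∀ r : ℝ, σ (algebraMap ℝ F r) = algebraMap ℝ F r)
    (hconst : ∀ g : F, σ g = g → ∃ r : ℝ, g = algebraMap ℝ F r)
    {S : ℕ} (f : Fin S → F) (hf : LinearIndependent ℝ f) (ρ : ℕ → F) (K : Finset ℕ)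
    (hns : ∀ (a : ℕ → ℝ) (g : F), σ g - g = ∑ k ∈ K, algebraMap ℝ F (a k) * ρ k →
      ∀ k ∈ K, a k = 0)
    (E : Finset (List ℕ × Fin S)) (hE : ∀ (u v : List ℕ) (i : Fin S), (u ++ v, i) ∈ E → (u, i) ∈ E)
    (hK : ∀ p ∈ E, ∀ k ∈ p.1, k ∈ K) (c : List ℕ × Fin S → F)
    (h : ∀ l < E.card, ∑ p ∈ E, c p * (pwF σ ρ p.1 l * (⇑σ)^[l] (f p.2)) = 0) :
    ∀ p ∈ E, c p = 0 := by
  refine R9_main σ hconst f hf ρ K hns E.card E rfl hE hK c fun l hl => ?_
  rw [← h l hl]
  rfl

end CM68
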