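import Pool.Agent.LibCM68.Z1
import Pool.Agent.LibCM68.Z4a
import Pool.Agent.LibMH.Defs
import Pool.Agent.LibMH.R9

/-!
# Row R10: the functions of the matrix are polynomials (MEDIUM; template `DP_sum` in LibCM68/Z4a.lean)

Put `Y m = X + C (q (T + 1 + m))`, `ρ k = 1 / (X + C (q (T + 1)))^k`, so `σ^m (ρ k) = 1 / (Y m)^k` (`Z10_iter_rho` in LibCM3/Z10.lean, private, copy).
Plan: first (induction on `v`, for all `l`): there is `g₀` with `natDegree g₀ ≤ v.sum * l`, `g₀ = ∏_{m < l} (Y m)^(v.sum) * pwF v l` in the field of fractions, and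
`g₀.eval y = ∏_{m < l} (y + q (T + 1 + m))^(v.sum) * pw q (y + q (T + 1)) v l` for `y ≥ 0`:
for `k :: v`, `s = v.sum`: `∏_{m' < l} (Y m')^(k + s) * ((Y m)^(-k) * pwF v m) = [∏_{m' < l, m' ≠ m} (Y m')^k] * [∏_{m ≤ m' < l} (Y m')^s] * g₀ (v, m)`, sum over `m < l`.
Then multiply by `∏_{m < l} (Y m)^(w - v.sum) * ∏_{l ≤ m < L} (Y m)^w`: the product is `DP q T w L {0}` (there `c = 0`: `((0 : ℕ) : ℝ) + q (T + 1 + l')`),
degree `≤ w l + w (L - l)`.
(If you prefer: prove the two identities together for a ring homomorphism out of `ℝ[X]`.)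
-/

namespace CM68

open Finset Polynomial

/-- the term `k` -/
noncomputable def rhoF (q T : ℕ) (k : ℕ) : FractionRing ℝ[X] :=
  1 / algebraMap ℝ[X] (FractionRing ℝ[X]) (X + C ((q : ℝ) * (T + 1))) ^ k

private noncomputable def r10_Y (q T m : ℕ) : ℝ[X] := X + C ((q : ℝ) * (T + 1 + m))

private noncomputable def r10_pw {F : Type} [Field F] (A : ℝ[X] →+* F) (q T : ℕ) : List ℕ → ℕ → F
  | [], _ => 1
  | k :: v, l => ∑ m ∈ range l, 1 / A (r10_Y q T m) ^ k * r10_pw A q T v m

private theorem r10_main (q T : ℕ) (v : List ℕ) : ∀ l : ℕ, ∃ g : ℝ[X], g.natDegree ≤ v.sum * l ∧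
    ∀ (F : Type) [Field F] (A : ℝ[X] →+* F), (∀ m, A (r10_Y q T m) ≠ 0) →
      A g = (∏ m ∈ range l, A (r10_Y q T m) ^ v.sum) * r10_pw A q T v l := by
  induction v with
  | nil =>
    intro l
    refine ⟨1, by simp, ?_⟩
    intro F _ A _
    simp [r10_pw]
  | cons k v ih =>
    intro l
    choose g hgd hgA using ih
    refine ⟨∑ m ∈ range l, (∏ m' ∈ (range l).erase m, r10_Y q T m' ^ k) *
      ((∏ m' ∈ Ico m l, r10_Y q T m' ^ v.sum) * g m), ?_, ?_⟩
    · refine natDegree_sum_le_of_forall_le _ _ fun m hm => ?_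
      have hm' : m < l := mem_range.1 hm
      have hYd : ∀ m' s : ℕ, (r10_Y q T m' ^ s).natDegree ≤ s := by
        intro m' s
        refine natDegree_pow_le.trans ?_
        unfold r10_Y
        rw [natDegree_X_add_C, mul_one]
      have h1 : (∏ m' ∈ (range l).erase m, r10_Y q T m' ^ k).natDegree ≤ k * l := by
        refine (natDegree_prod_le _ _).trans ?_
        calc ∑ m' ∈ (range l).erase m, (r10_Y q T m' ^ k).natDegree
            ≤ ∑ _m' ∈ (range l).erase m, k := Finset.sum_le_sum fun m' _ => hYd m' k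
          _ ≤ k * l := by
            rw [sum_const, smul_eq_mul, mul_comm]
            refine Nat.mul_le_mul_left _ ?_
            calc ((range l).erase m).card ≤ (range l).card := Finset.card_erase_le
              _ = l := card_range l
      have h2 : (∏ m' ∈ Ico m l, r10_Y q T m' ^ v.sum).natDegree ≤ v.sum * (l - m) := by
        refine (natDegree_prod_le _ _).trans ?_
        calc ∑ m' ∈ Ico m l, (r10_Y q T m' ^ v.sum).natDegree
            ≤ ∑ _m' ∈ Ico m l, v.sum := Finset.sum_le_sum fun m' _ => hYd m' v.sum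
          _ = v.sum * (l - m) := by
            rw [sum_const, smul_eq_mul, mul_comm, Nat.card_Ico]
      refine natDegree_mul_le.trans ?_
      have h3 : ((∏ m' ∈ Ico m l, r10_Y q T m' ^ v.sum) * g m).natDegree ≤ v.sum * l := by
        refine natDegree_mul_le.trans ?_
        calc (∏ m' ∈ Ico m l, r10_Y q T m' ^ v.sum).natDegree + (g m).natDegree
            ≤ v.sum * (l - m) + v.sum * m := Nat.add_le_add h2 (hgd m)
          _ = v.sum * l := by
            rw [← Nat.mul_add]
            congr 1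
            omega
      rw [List.sum_cons, Nat.add_mul]
      exact Nat.add_le_add h1 h3
    · intro F _ A hA
      rw [map_sum, r10_pw, Finset.mul_sum]
      refine Finset.sum_congr rfl fun m hm => ?_
      have hm' : m < l := mem_range.1 hm
      rw [map_mul, map_mul, map_prod, map_prod, hgA m F A hA, List.sum_cons]
      have h1 : ∏ m' ∈ range l, A (r10_Y q T m') ^ (k + v.sum) =
          (∏ m' ∈ range l, A (r10_Y q T m') ^ k) * ∏ m' ∈ range l, A (r10_Y q T m') ^ v.sum := by
        rw [← Finset.prod_mul_distrib]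
        refine Finset.prod_congr rfl fun m' _ => ?_
        rw [pow_add]
      have h2 : ∏ m' ∈ range l, A (r10_Y q T m') ^ k =
          A (r10_Y q T m) ^ k * ∏ m' ∈ (range l).erase m, A (r10_Y q T m') ^ k :=
        (Finset.mul_prod_erase (range l) (fun m' => A (r10_Y q T m') ^ k) hm).symm
      have h3 : ∏ m' ∈ range l, A (r10_Y q T m') ^ v.sum =
          (∏ m' ∈ range m, A (r10_Y q T m') ^ v.sum) * ∏ m' ∈ Ico m l, A (r10_Y q T m') ^ v.sum :=
        (Finset.prod_range_mul_prod_Ico (fun m' => A (r10_Y q T m') ^ v.sum) hm'.le).symm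
      have h4 : A (r10_Y q T m) ^ k ≠ 0 := pow_ne_zero _ (hA m)
      rw [h1, h2, h3]
      simp only [map_pow]
      field_simp

private theorem r10_iter_rho (h y : ℝ) (k l : ℕ) :
    (⇑(SG h))^[l] (1 / algebraMap ℝ[X] (FractionRing ℝ[X]) (X + C y) ^ k) =
      1 / algebraMap ℝ[X] (FractionRing ℝ[X]) (X + C (y + h * l)) ^ k := by
  induction l with
  | zero => simp
  | succ l ih =>
    rw [Function.iterate_succ_apply', ih, map_div₀, map_one, map_pow, SG_alg, map_add, taylor_X, taylor_C]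
    congr 3
    rw [add_assoc, ← C_add]
    congr 2
    push_cast
    ring

private theorem r10_pwF (q T : ℕ) (v : List ℕ) : ∀ l : ℕ,
    r10_pw (algebraMap ℝ[X] (FractionRing ℝ[X])) q T v l = pwF (SG (q : ℝ)) (rhoF q T) v l := by
  induction v with
  | nil => intro l; rfl
  | cons k v ih =>
    intro l
    rw [r10_pw, pwF]
    refine Finset.sum_congr rfl fun m _ => ?_
    rw [ih m]
    congr 1
    unfold rhoF r10_Y
    rw [r10_iter_rho]
    congr 5
    ring

private theorem r10_pwy (q T : ℕ) (y : ℝ) (v : List ℕ) : ∀ l : ℕ,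
    r10_pw (evalRingHom y) q T v l = pw q (y + (q : ℝ) * (T + 1)) v l := by
  induction v with
  | nil => intro l; rfl
  | cons k v ih =>
    intro l
    rw [r10_pw, pw]
    refine Finset.sum_congr rfl fun m _ => ?_
    rw [ih m]
    congr 1
    unfold r10_Y
    rw [coe_evalRingHom, eval_add, eval_X, eval_C]
    congr 2
    ring

private theorem r10_DP (q T w L : ℕ) : DP q T w L {0} = ∏ m ∈ range L, r10_Y q T m ^ w := by
  unfold DP r10_Y
  rw [Finset.prod_singleton]
  refine Finset.prod_congr rfl fun m _ => ?_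
  rw [Nat.cast_zero, zero_add]

theorem DPW {q T w L l : ℕ} (hq : 1 ≤ q) (hl : l ≤ L) {v : List ℕ} (hw : v.sum ≤ w) :
    ∃ g : ℝ[X], g.natDegree ≤ w * L ∧
      algebraMap ℝ[X] (FractionRing ℝ[X]) g = algebraMap ℝ[X] (FractionRing ℝ[X]) (DP q T w L {0}) *
        pwF (SG (q : ℝ)) (rhoF q T) v l ∧
      ∀ y : ℝ, 0 ≤ y →
        g.eval y = (DP q T w L {0}).eval y * pw q (y + (q : ℝ) * (T + 1)) v l := by
  obtain ⟨g, hgd, hgA⟩ := r10_main q T v l
  have hYd : ∀ m' s : ℕ, (r10_Y q T m' ^ s).natDegree ≤ s := by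
    intro m' s
    refine natDegree_pow_le.trans ?_
    unfold r10_Y
    rw [natDegree_X_add_C, mul_one]
  have hkey : ∀ (F : Type) [Field F] (A : ℝ[X] →+* F), (∀ m, A (r10_Y q T m) ≠ 0) →
      A (((∏ m ∈ range l, r10_Y q T m ^ (w - v.sum)) * ∏ m ∈ Ico l L, r10_Y q T m ^ w) * g) =
        A (DP q T w L {0}) * r10_pw A q T v l := by
    intro F _ A hA
    rw [map_mul, map_mul, map_prod, map_prod, hgA F A hA, r10_DP, map_prod]
    simp only [map_pow]
    rw [← Finset.prod_range_mul_prod_Ico (fun m => A (r10_Y q T m) ^ w) hl]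
    have h1 : ∏ m ∈ range l, A (r10_Y q T m) ^ w =
        (∏ m ∈ range l, A (r10_Y q T m) ^ (w - v.sum)) * ∏ m ∈ range l, A (r10_Y q T m) ^ v.sum := by
      rw [← Finset.prod_mul_distrib]
      refine Finset.prod_congr rfl fun m _ => ?_
      rw [← pow_add]
      congr 1
      omega
    rw [h1]
    ring
  refine ⟨((∏ m ∈ range l, r10_Y q T m ^ (w - v.sum)) * ∏ m ∈ Ico l L, r10_Y q T m ^ w) * g, ?_, ?_, ?_⟩
  · refine natDegree_mul_le.trans ?_
    have h1 : (∏ m ∈ range l, r10_Y q T m ^ (w - v.sum)).natDegree ≤ (w - v.sum) * l := by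
      refine (natDegree_prod_le _ _).trans ?_
      calc ∑ m ∈ range l, (r10_Y q T m ^ (w - v.sum)).natDegree
          ≤ ∑ _m ∈ range l, (w - v.sum) := Finset.sum_le_sum fun m _ => hYd m _
        _ = (w - v.sum) * l := by
          rw [sum_const, smul_eq_mul, mul_comm, card_range]
    have h2 : (∏ m ∈ Ico l L, r10_Y q T m ^ w).natDegree ≤ w * (L - l) := by
      refine (natDegree_prod_le _ _).trans ?_
      calc ∑ m ∈ Ico l L, (r10_Y q T m ^ w).natDegree
          ≤ ∑ _m ∈ Ico l L, w := Finset.sum_le_sum fun m _ => hYd m _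
        _ = w * (L - l) := by
          rw [sum_const, smul_eq_mul, mul_comm, Nat.card_Ico]
    have h3 := (natDegree_mul_le (p := ∏ m ∈ range l, r10_Y q T m ^ (w - v.sum))
      (q := ∏ m ∈ Ico l L, r10_Y q T m ^ w)).trans (Nat.add_le_add h1 h2)
    calc _ ≤ ((w - v.sum) * l + w * (L - l)) + v.sum * l := Nat.add_le_add h3 hgd
      _ = ((w - v.sum) + v.sum) * l + w * (L - l) := by ring
      _ = w * (l + (L - l)) := by rw [Nat.sub_add_cancel hw]; ring
      _ = w * L := by rw [Nat.add_sub_cancel' hl]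
  · rw [hkey (FractionRing ℝ[X]) (algebraMap ℝ[X] (FractionRing ℝ[X])) ?_, r10_pwF]
    intro m
    rw [Ne, FaithfulSMul.algebraMap_eq_zero_iff]
    exact X_add_C_ne_zero _
  · intro y hy
    have h1 : (1 : ℝ) ≤ q := by exact_mod_cast hq
    have h2 := hkey ℝ (evalRingHom y) ?_
    · rw [r10_pwy] at h2
      exact h2
    · intro m
      unfold r10_Y
      rw [coe_evalRingHom, eval_add, eval_X, eval_C]
      have h3 : (0 : ℝ) < (q : ℝ) * (T + 1 + m) := by positivity
      have : 0 < y + (q : ℝ) * (T + 1 + m) := by linarith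
      exact this.ne'

end CM68
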