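import Pool.Agent.LibCM68.Z2
import Pool.Agent.LibMH.R1
import Pool.Agent.LibMH.R10

/-!
# Row R11: the zero estimate, all classes (STRONG; template LibCM3/Z10.lean, proved)

`w' x v ∈ W`; `∑_{v ∈ Fc} w' x v (j) * p_v(j) = 0` at the nodes, `p_v(j) = pw q (j % q) v (j / q + T + 1)`, `Fc` prefix-closed.  Then the classes `x` with `w' x β ≠ 0`
and `w' x (β ++ v) = 0` for all `v ≠ []` are few.
`S' = finrank W ≤ S`, `f : Fin S' → ℝ[X]` a basis of `W` (`Module.finBasis`, see `Z10_basis`), `E = Fc ×ˢ univ`, `L = card E = card Fc * S'`, `Δ = DP q T w L {0}`.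
Matrix with rows `l < L` and columns `(v, i) ∈ E`: `taylor (l q) (f i) * g v l`, `g v l` from `DPW` (`g v l = Δ * pwF v l`); degree `≤ d₁ + w L`.  Its determinant is NOT zero
(`casw` in `FractionRing ℝ[X]`, as in `Z10_det_ne`; `σ = SG q`, `ρ = rhoF q T`, `K` = a finite set of letters `≥ 1` containing those of `Fc`; `hns` from `nonsum` with
`Φ = K.image (fun k => (k, 0))`, `b = q (T + 1)`).
Let `x ∈ F`, `j ≡ x` a node of `P q (n - L) F`: the relation at `j + q l`, `l < L`, is by `p_shift` `∑_{v ∈ Fc} w' x v (j + q l) ∑_i a_(v.take i) p_(v.drop i) = ∑_{u ∈ Fc} a_u z_u (j + q l)`,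
`a_u = pw q (j + q (T + 1)) u l`, `z_u = ∑_{v ∈ Fc, u <+: v} p_(v.drop u.length) • w' x v ∈ W` (the prefixes of `v`: `sum_prefix`, LibMH/R1.lean), `z_β = w' x β ≠ 0`
(the proper extensions of `β` vanish, `p_[] = 1`).  So the coordinates of the `z_u` are a vector `≠ 0` in the kernel of the matrix at `y = j`.  So the determinant has the
`F.card * (n - L)` zeros `P q (n - L) F` (`card_nodes`), at most its degree `≤ L (d₁ + w L)`.  (If `n ≤ Fc.card * S` the claim is `0 ≤ ..`; monotone in `L`.)
-/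

namespace CM68

open Finset Polynomial

private theorem R11_det_deg {ι : Type*} [Fintype ι] [DecidableEq ι] (M : Matrix ι ι ℝ[X]) (b : ℕ)
    (h : ∀ i j, (M i j).natDegree ≤ b) : M.det.natDegree ≤ Fintype.card ι * b := by
  rw [Matrix.det_apply']
  refine natDegree_sum_le_of_forall_le _ _ ?_
  intro σ _
  refine natDegree_mul_le.trans ?_
  rw [natDegree_intCast, zero_add]
  refine (natDegree_prod_le _ _).trans ?_
  refine (Finset.sum_le_sum fun j _ => h _ _).trans ?_
  simp

private theorem R11_iter (h : ℝ) (p : ℝ[X]) (l : ℕ) :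
    (⇑(SG h))^[l] (algebraMap ℝ[X] (FractionRing ℝ[X]) p) =
      algebraMap ℝ[X] (FractionRing ℝ[X]) (taylor (h * l) p) := by
  induction l with
  | zero => simp
  | succ l ih =>
    rw [Function.iterate_succ_apply', ih, SG_alg, taylor_taylor]
    congr 2
    push_cast
    congr 1
    ring

/-- the entries of the matrix -/
private noncomputable def R11_m (h : ℝ) {S' : ℕ} (f : Fin S' → ℝ[X])
    (g : List ℕ → ℕ → ℝ[X]) (l : ℕ) (p : List ℕ × Fin S') : ℝ[X] :=
  taylor (h * l) (f p.2) * g p.1 l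

/-- the matrix -/
private noncomputable def R11_M (h : ℝ) {S' : ℕ} (f : Fin S' → ℝ[X])
    (g : List ℕ → ℕ → ℝ[X]) (E : Finset (List ℕ × Fin S')) : Matrix E E ℝ[X] :=
  fun a b => R11_m h f g ((E.equivFin a : Fin E.card) : ℕ) b

private theorem R11_det_ne {q T S' : ℕ} (hq : 1 ≤ q) (f : Fin S' → ℝ[X])
    (hf : LinearIndependent ℝ f) (K : Finset ℕ) (hK1 : ∀ k ∈ K, 1 ≤ k)
    (E : Finset (List ℕ × Fin S'))
    (hE : ∀ (u v : List ℕ) (i : Fin S'), (u ++ v, i) ∈ E → (u, i) ∈ E)
    (hK : ∀ p ∈ E, ∀ k ∈ p.1, k ∈ K)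
    (Δ : ℝ[X]) (hΔ : Δ ≠ 0) (g : List ℕ → ℕ → ℝ[X])
    (hg : ∀ p ∈ E, ∀ l < E.card, algebraMap ℝ[X] (FractionRing ℝ[X]) (g p.1 l) =
      algebraMap ℝ[X] (FractionRing ℝ[X]) Δ * pwF (SG (q : ℝ)) (rhoF q T) p.1 l) :
    (R11_M (q : ℝ) f g E).det ≠ 0 := by
  classical
  intro hdet
  have hq0 : (0 : ℝ) < q := by exact_mod_cast hq
  set A := algebraMap ℝ[X] (FractionRing ℝ[X]) with hA
  have hdet2 : (A.mapMatrix (R11_M (q : ℝ) f g E)).det = 0 := by
    rw [← RingHom.map_det, hdet, map_zero]
  obtain ⟨v, hv0, hv⟩ := Matrix.exists_mulVec_eq_zero_iff.2 hdet2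
  have hAinj : Function.Injective A := IsFractionRing.injective ℝ[X] (FractionRing ℝ[X])
  have hΔ' : A Δ ≠ 0 := by
    intro h0
    exact hΔ (hAinj (by rw [h0, map_zero]))
  have hlin : LinearIndependent ℝ (fun i => A (f i)) := by
    have h2 := hf.map' (IsScalarTower.toAlgHom ℝ ℝ[X] (FractionRing ℝ[X])).toLinearMap
      (LinearMap.ker_eq_bot.2 (fun x y hxy => hAinj hxy))
    exact h2
  have key := casw (SG (q : ℝ)) (SG_real (q : ℝ)) (fun g hg' => SG_const hq0 g hg')
    (fun i => A (f i)) hlin (rhoF q T) K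
    (by
      intro a g' hg' k hk
      have h3 := nonsum hq0 ((q : ℝ) * (T + 1)) (K.image fun k => (k, 0))
        (by
          intro p hp
          obtain ⟨i, hi, rfl⟩ := mem_image.1 hp
          exact hK1 i hi)
        (by
          intro p hp
          obtain ⟨i, _, rfl⟩ := mem_image.1 hp
          simpa using hq0)
        (fun p => a p.1) g'
        (by
          rw [hg', sum_image (fun x _ y _ hxy => (Prod.mk.inj hxy).1)]
          apply Finset.sum_congr rfl
          intro k _
          simp only [Nat.cast_zero, zero_add]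
          rfl)
      exact h3 (k, 0) (mem_image_of_mem _ hk))
    E hE hK (fun p => if hp : p ∈ E then A Δ * v ⟨p, hp⟩ else 0)
    (by
      intro l hl
      have h5 := congrFun hv (E.equivFin.symm ⟨l, hl⟩)
      rw [Matrix.mulVec, dotProduct, Pi.zero_apply] at h5
      rw [← h5]
      rw [← Finset.sum_coe_sort E]
      apply Finset.sum_congr rfl
      intro b _
      rw [dif_pos b.2]
      have h7 : (R11_M (q : ℝ) f g E) (E.equivFin.symm ⟨l, hl⟩) b =
          R11_m (q : ℝ) f g l b := by
        simp [R11_M]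
      rw [RingHom.mapMatrix_apply, Matrix.map_apply, h7, R11_m, map_mul, R11_iter,
        hg b b.2 l hl]
      ring)
  apply hv0
  funext b
  have h8 := key b b.2
  rw [dif_pos b.2] at h8
  simp only [mul_eq_zero] at h8
  rcases h8 with h8 | h8
  · exact absurd h8 hΔ'
  · exact h8

private theorem R11_basis (W : Submodule ℝ ℝ[X]) [Module.Finite ℝ W] :
    ∃ (f : Fin (Module.finrank ℝ W) → ℝ[X]), LinearIndependent ℝ f ∧ (∀ i, f i ∈ W) ∧
      (∀ p ∈ W, ∃ ν : Fin (Module.finrank ℝ W) → ℝ, p = ∑ i, ν i • f i) := by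
  set b' := Module.finBasis ℝ W with hb'
  refine ⟨fun i => (b' i : ℝ[X]), ?_, fun i => (b' i).2, ?_⟩
  · exact b'.linearIndependent.map' W.subtype (Submodule.ker_subtype W)
  · intro p hp
    refine ⟨fun i => b'.repr ⟨p, hp⟩ i, ?_⟩
    have h1 := congrArg (W.subtype) (b'.sum_repr ⟨p, hp⟩)
    rw [map_sum] at h1
    simp only [map_smul, Submodule.subtype_apply] at h1
    exact h1.symm

theorem zeroW4 {q n d₁ w T S : ℕ} (hq : 1 ≤ q) {I : Finset ℕ} (hI : ∀ x ∈ I, x < q)
    (Fc : Finset (List ℕ)) (hFc : ∀ u v : List ℕ, u ++ v ∈ Fc → u ∈ Fc)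
    (hF1 : ∀ v ∈ Fc, ∀ k ∈ v, 1 ≤ k) (hFw : ∀ v ∈ Fc, v.sum ≤ w)
    (W : Submodule ℝ ℝ[X]) [Module.Finite ℝ W] (hS : Module.finrank ℝ W ≤ S)
    (hW : ∀ p ∈ W, p.natDegree ≤ d₁)
    (w' : ℕ → List ℕ → ℝ[X]) (hw' : ∀ x ∈ I, ∀ v, w' x v ∈ W)
    (hrel : ∀ j ∈ P q n I, ∑ v ∈ Fc,
      (w' (j % q) v).eval (j : ℝ) * pw q ((j % q : ℕ) : ℝ) v (j / q + T + 1) = 0)
    {β : List ℕ} (hβ : β ∈ Fc) (F : Finset ℕ) (hF : F ⊆ I)
    (hbad : ∀ x ∈ F, w' x β ≠ 0 ∧ ∀ v : List ℕ, v ≠ [] → w' x (β ++ v) = 0) :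
    F.card * (n - Fc.card * S) ≤ Fc.card * S * (d₁ + w * (Fc.card * S)) := by
  classical
  obtain ⟨f, hlin, hfW, hrep⟩ := R11_basis W
  generalize Module.finrank ℝ W = S' at hS f hlin hfW hrep
  -- the index set
  set E : Finset (List ℕ × Fin S') := Fc ×ˢ (univ : Finset (Fin S')) with hEdef
  have hmemE : ∀ p : List ℕ × Fin S', p ∈ E ↔ p.1 ∈ Fc := by
    intro p
    rw [hEdef, mem_product]
    simp
  have hE : ∀ (u v : List ℕ) (i : Fin S'), (u ++ v, i) ∈ E → (u, i) ∈ E := by
    intro u v i h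
    rw [hmemE] at h ⊢
    exact hFc u v h
  set L := E.card with hL
  have hLS : L ≤ Fc.card * S := by
    rw [hL, hEdef, card_product, card_univ, Fintype.card_fin]
    exact Nat.mul_le_mul_left _ hS
  set K : Finset ℕ := Fc.biUnion fun v => v.toFinset with hKdef
  have hK1 : ∀ k ∈ K, 1 ≤ k := by
    intro k hk
    obtain ⟨v, hv, hkv⟩ := mem_biUnion.1 hk
    exact hF1 v hv k (List.mem_toFinset.1 hkv)
  have hK : ∀ p ∈ E, ∀ k ∈ p.1, k ∈ K := fun p hp k hk =>
    mem_biUnion.2 ⟨p.1, (hmemE p).1 hp, List.mem_toFinset.2 hk⟩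
  set Δ := DP q T w L {0} with hΔ
  have hg : ∀ (v : List ℕ) (l : ℕ), ∃ g : ℝ[X], v ∈ Fc → l ≤ L → g.natDegree ≤ w * L ∧
      algebraMap ℝ[X] (FractionRing ℝ[X]) g = algebraMap ℝ[X] (FractionRing ℝ[X]) Δ *
        pwF (SG (q : ℝ)) (rhoF q T) v l ∧
      ∀ y : ℝ, 0 ≤ y → g.eval y = Δ.eval y * pw q (y + (q : ℝ) * (T + 1)) v l := by
    intro v l
    by_cases hv : v ∈ Fc
    · by_cases hl : l ≤ L
      · obtain ⟨g, h⟩ := DPW (T := T) hq hl (hFw v hv)
        exact ⟨g, fun _ _ => h⟩
      · exact ⟨0, fun _ h => absurd h hl⟩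
    · exact ⟨0, fun h => absurd h hv⟩
  choose g hg using hg
  have hne := R11_det_ne (T := T) hq f hlin K hK1 E hE hK Δ (DP_ne q T w L {0}) g
    (fun p hp l hl => (hg p.1 l ((hmemE p).1 hp) hl.le).2.1)
  -- the degree
  have hfd : ∀ i, (f i).natDegree ≤ d₁ := fun i => hW _ (hfW i)
  have hdeg : (R11_M (q : ℝ) f g E).det.natDegree ≤ L * (d₁ + w * L) := by
    refine (R11_det_deg _ (d₁ + w * L) ?_).trans ?_
    · intro a b
      unfold R11_M R11_m
      refine natDegree_mul_le.trans ?_
      rw [natDegree_taylor]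
      exact add_le_add (hfd _) (hg _ _ ((hmemE _).1 b.2) (E.equivFin a).2.le).1
    · rw [Fintype.card_coe]
  have hFI : ∀ x ∈ F, x < q := fun x hx => hI x (hF hx)
  -- the zeros
  have hzero : ∀ y ∈ (P q (n - L) F).image (Nat.cast : ℕ → ℝ),
      (R11_M (q : ℝ) f g E).det.eval y = 0 := by
    intro y hy
    obtain ⟨j, hj, rfl⟩ := mem_image.1 hy
    have hj' := mem_filter.1 hj
    have hjF : j % q ∈ F := hj'.2
    have hjI : j % q ∈ I := hF hjF
    have hjq : j < q * (n - L) := mem_range.1 hj'.1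
    have hj0 : (0 : ℝ) ≤ (j : ℝ) := Nat.cast_nonneg j
    have hmap : eval (j : ℝ) (R11_M (q : ℝ) f g E).det =
        ((evalRingHom (j : ℝ)).mapMatrix (R11_M (q : ℝ) f g E)).det := by
      rw [← RingHom.map_det]
      rfl
    rw [hmap]
    apply Matrix.exists_mulVec_eq_zero_iff.1
    set x := j % q with hx
    set pp : List ℕ → ℝ := fun v => pw q ((x : ℕ) : ℝ) v (j / q + T + 1) with hpp
    set z : List ℕ → ℝ[X] := fun u => ∑ v ∈ Fc,
      if u <+: v then pp (v.drop u.length) • w' x v else 0 with hz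
    have hzW : ∀ u, z u ∈ W := by
      intro u
      refine W.sum_mem fun v _ => ?_
      split_ifs
      · exact W.smul_mem _ (hw' x hjI v)
      · exact W.zero_mem
    choose ζ hζ using fun u => hrep (z u) (hzW u)
    refine ⟨fun b => ζ (b : List ℕ × Fin S').1 (b : List ℕ × Fin S').2, ?_, ?_⟩
    · obtain ⟨hβ0, hβ1⟩ := hbad x hjF
      intro h0
      apply hβ0
      have h1 : z β = w' x β := by
        simp only [hz]
        rw [Finset.sum_eq_single_of_mem β hβ]
        · rw [if_pos (List.prefix_refl β), List.drop_length]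
          simp only [hpp, pw, one_smul]
        · intro v _ hvβ
          split_ifs with hpre
          · obtain ⟨t, rfl⟩ := hpre
            have ht : t ≠ [] := by
              rintro rfl
              exact hvβ (List.append_nil β)
            rw [hβ1 t ht, smul_zero]
          · rfl
      rw [← h1, hζ β]
      refine Finset.sum_eq_zero fun i _ => ?_
      have h2 : (β, i) ∈ E := (hmemE _).2 hβ
      have h3 := congrFun h0 ⟨(β, i), h2⟩
      simp only [Pi.zero_apply] at h3
      rw [h3, zero_smul]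
    · funext a
      rw [Matrix.mulVec, dotProduct, Pi.zero_apply]
      set l : ℕ := ((E.equivFin a : Fin E.card) : ℕ) with hl
      have hlL : l < L := (E.equivFin a).2
      have hlq : j + q * l < q * n := by
        have h3 : q * (n - L) + q * l = q * (n - L + l) := by ring
        have h4 : n - L + l ≤ n := by
          have h5 : 0 < n - L := by
            by_contra h6
            have h7 : n - L = 0 := by omega
            rw [h7, mul_zero] at hjq
            omega
          omega
        have h5 : q * (n - L + l) ≤ q * n := Nat.mul_le_mul_left _ h4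
        omega
      have hmod : (j + q * l) % q = x := Nat.add_mul_mod_self_left j q l
      have hmem : j + q * l ∈ P q n I := by
        refine mem_filter.2 ⟨mem_range.2 hlq, ?_⟩
        rw [hmod]
        exact hjI
      have hR := hrel _ hmem
      simp only [p_shift hq] at hR
      rw [hmod] at hR
      have hcast : ((j + q * l : ℕ) : ℝ) = (j : ℝ) + (q : ℝ) * l := by push_cast; ring
      rw [hcast] at hR
      set y := (j : ℝ) + (q : ℝ) * l with hy'
      set aa : List ℕ → ℝ := fun u => pw q ((j : ℝ) + q * (T + 1)) u l with haa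
      -- the entries
      have hent : ∀ b : E, ((evalRingHom (j : ℝ)).mapMatrix (R11_M (q : ℝ) f g E)) a b =
          Δ.eval (j : ℝ) * (aa (b : List ℕ × Fin S').1 * (f (b : List ℕ × Fin S').2).eval y) := by
        intro b
        rw [RingHom.mapMatrix_apply, Matrix.map_apply]
        have h2 : R11_M (q : ℝ) f g E a b = R11_m (q : ℝ) f g l b := rfl
        have h3 := (hg (b : List ℕ × Fin S').1 l ((hmemE _).1 b.2) hlL.le).2.2 (j : ℝ) hj0
        rw [h2, R11_m, map_mul]
        simp only [coe_evalRingHom]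
        rw [taylor_eval, h3]
        simp only [haa, hy']
        ring
      have hsum1 : ∑ b : E, ((evalRingHom (j : ℝ)).mapMatrix (R11_M (q : ℝ) f g E)) a b *
          ζ (b : List ℕ × Fin S').1 (b : List ℕ × Fin S').2 =
          ∑ p ∈ E, Δ.eval (j : ℝ) * (aa p.1 * (f p.2).eval y) * ζ p.1 p.2 := by
        rw [← Finset.sum_coe_sort E]
        refine Finset.sum_congr rfl fun b _ => ?_
        rw [hent b]
      rw [hsum1, hEdef, Finset.sum_product]
      have hrow : ∀ u ∈ Fc, (∑ i : Fin S',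
          Δ.eval (j : ℝ) * (aa u * (f i).eval y) * ζ u i) =
          Δ.eval (j : ℝ) * ∑ v ∈ Fc, (w' x v).eval y *
            (if u <+: v then aa u * pp (v.drop u.length) else 0) := by
        intro u _
        have h1 : (z u).eval y = ∑ v ∈ Fc,
            (if u <+: v then pp (v.drop u.length) * (w' x v).eval y else 0) := by
          simp only [hz]
          rw [eval_finsetSum]
          refine Finset.sum_congr rfl fun v _ => ?_
          split_ifs
          · rw [eval_smul, smul_eq_mul]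
          · rw [eval_zero]
        have h2 : (z u).eval y = ∑ i, ζ u i * (f i).eval y := by
          rw [hζ u, eval_finsetSum]
          refine Finset.sum_congr rfl fun i _ => ?_
          rw [eval_smul, smul_eq_mul]
        have h3 : (∑ i : Fin S', Δ.eval (j : ℝ) * (aa u * (f i).eval y) * ζ u i) =
            Δ.eval (j : ℝ) * (aa u * (z u).eval y) := by
          rw [h2, Finset.mul_sum, Finset.mul_sum]
          refine Finset.sum_congr rfl fun i _ => ?_
          ring
        rw [h3, h1, Finset.mul_sum]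
        congr 1
        refine Finset.sum_congr rfl fun v _ => ?_
        split_ifs
        · ring
        · ring
      rw [Finset.sum_congr rfl hrow, ← Finset.mul_sum, Finset.sum_comm]
      have hcol : ∀ v ∈ Fc, ∑ u ∈ Fc, (w' x v).eval y *
          (if u <+: v then aa u * pp (v.drop u.length) else 0) =
          (w' x v).eval y * ∑ i ∈ range (v.length + 1), aa (v.take i) * pp (v.drop i) := by
        intro v hv
        rw [← Finset.mul_sum, sum_prefix hFc hv (fun u => aa u * pp (v.drop u.length))]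
        congr 1
        refine Finset.sum_congr rfl fun i hi => ?_
        have hi' : i ≤ v.length := by
          have := mem_range.1 hi
          omega
        rw [List.length_take, min_eq_left hi']
      rw [Finset.sum_congr rfl hcol]
      simp only [haa, hpp]
      rw [hR, mul_zero]
  have hcount : F.card * (n - L) ≤ L * (d₁ + w * L) := by
    by_contra hcon
    push Not at hcon
    apply hne
    apply eq_zero_of_natDegree_lt_card_of_eval_eq_zero' _ ((P q (n - L) F).image (Nat.cast : ℕ → ℝ))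
      hzero
    rw [card_image_of_injective _ Nat.cast_injective, card_nodes hq hFI]
    exact lt_of_le_of_lt hdeg hcon
  calc F.card * (n - Fc.card * S) ≤ F.card * (n - L) :=
        Nat.mul_le_mul_left _ (Nat.sub_le_sub_left hLS n)
    _ ≤ L * (d₁ + w * L) := hcount
    _ ≤ Fc.card * S * (d₁ + w * (Fc.card * S)) := by gcongr

end CM68
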