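import Pool.Agent.LibCM68.D0
import Pool.Agent.LibCM68.S1
import Pool.Agent.LibCM3.Sub
import Pool.Agent.LibMH.R11

/-!
# Row R12: the rows (iv) are independent modulo the rows (i) (MEDIUM/STRONG; template LibCM3/Z11.lean, proved; simpler, no multiplier)

From `hv`: `∑_{(u, δ) ∈ Fs} H T u δ j * R (u, δ) (j) = 0` on the nodes, `R ([], 0) = Q` the polynomial of `v` (degree `< κ ≤ d`), the others `-` the polynomials of the
coefficients (`choose_comb`), exactly as in LibCM3/Z11.lean.  `W` = span of the `R (u, δ)`, `finrank ≤ S = card Ws * (DD + 1)`, degrees `≤ d`.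
`w' x v = ∑_{w ∈ Ws, v <:+ w} ∑ δ, C (co w δ x) * R (w.take (w.length - v.length), δ) ∈ W` (`w.take .. ∈ Ws` by `hpre`); `∑_{(u,δ)} H u δ j R (u,δ) (j) = ∑_{v ∈ sfx Ws} w' x v (j) p_v(j)`:
both are `∑_{w ∈ Ws} ∑ δ, co w δ x ∑_{i ≤ w.length} R (w.take i, δ) (j) p_(w.drop i)(j)` (prefixes of `w`: `sum_prefix` of LibMH/R1.lean, suffixes `w.drop i`).
`Fc = sfx Ws` is prefix-closed, letters `≥ 1`, sums `≤ w` (`sfx_pre`, below; a suffix `v` of `w = u ++ v`, `v = v' ++ v''`: `u ++ v' ∈ Ws`).
`w' x (β₀ ++ v) = 0` for `v ≠ []` (a word of `Ws` with this suffix is longer than `e`: `hsup`); `w' x β₀ = ∑ δ, C (co β₀ δ x) * R ([], δ)` (a word of `Ws` with suffix `β₀`, length `≤ e`, is `β₀`).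
`zeroW4` for the set `F` of the `x ∈ I` with `w' x β₀ ≠ 0`: `2 F.card ≤ I.card` (`Z11_num`, with `hdeg`); `kills` (LibCM3/Sub.lean) with `R ([], ·)`, `hU`, `hspread`, `hone`: `Q = 0`, `v = 0`.
-/

namespace CM68

open Finset Polynomial

theorem mem_sfx {Ws : Finset (List ℕ)} {v : List ℕ} : v ∈ sfx Ws ↔ ∃ w ∈ Ws, v <:+ w := by
  unfold sfx
  simp only [Finset.mem_biUnion, List.mem_toFinset, List.mem_tails]

theorem sfx_pre {Ws : Finset (List ℕ)} (hpre : ∀ u v : List ℕ, u ++ v ∈ Ws → u ∈ Ws)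
    (u v : List ℕ) (h : u ++ v ∈ sfx Ws) : u ∈ sfx Ws := by
  obtain ⟨w, hw, t, ht⟩ := mem_sfx.1 h
  refine mem_sfx.2 ⟨t ++ u, hpre (t ++ u) v ?_, ⟨t, rfl⟩⟩
  rw [List.append_assoc, ht]
  exact hw

/-- the sum over the suffixes of a word -/
private theorem R12_suffix {Ws : Finset (List ℕ)} {w : List ℕ} (hw : w ∈ Ws) (f : List ℕ → ℝ) :
    ∑ v ∈ sfx Ws, (if v <:+ w then f v else 0) = ∑ i ∈ range (w.length + 1), f (w.drop i) := by
  classical
  rw [← Finset.sum_filter]
  symm
  refine Finset.sum_bij (fun i _ => w.drop i) ?_ ?_ ?_ ?_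
  · intro i _
    have h1 : w.drop i <:+ w := List.drop_suffix i w
    exact Finset.mem_filter.2 ⟨mem_sfx.2 ⟨w, hw, h1⟩, h1⟩
  · intro i hi j hj hij
    have h1 := congrArg List.length hij
    simp only [List.length_drop] at h1
    have h2 := Finset.mem_range.1 hi
    have h3 := Finset.mem_range.1 hj
    omega
  · intro v hv
    obtain ⟨-, h1⟩ := Finset.mem_filter.1 hv
    have h2 := h1.length_le
    refine ⟨w.length - v.length, Finset.mem_range.2 (by omega), ?_⟩
    exact (List.suffix_iff_eq_drop.1 h1).symm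
  · intro i _
    rfl

/-- The numbers. -/
private theorem R12_num {B I m L c X Y : ℕ} (hc : c = 2 * L) (hXY : X ≤ Y)
    (hdeg : c * Y + I * c < I * m) (h : B * (m - L) ≤ L * X) : 2 * B ≤ I := by
  by_contra hcon
  push Not at hcon
  have h1 : I * (m - L) ≤ 2 * B * (m - L) := Nat.mul_le_mul_right _ hcon.le
  have h2 : 2 * B * (m - L) ≤ c * X := by
    rw [hc, mul_assoc, mul_assoc]
    exact Nat.mul_le_mul_left 2 h
  have h3 : c * X ≤ c * Y := Nat.mul_le_mul_left _ hXY
  have h4 : I * m ≤ I * (m - L) + I * L := by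
    rw [← mul_add]
    exact Nat.mul_le_mul_left _ (by omega)
  have h5 : I * L ≤ I * c := Nat.mul_le_mul_left _ (by omega)
  omega

theorem rows_ind4 (D : MDat) {n T d κ : ℕ} (hκ1 : 1 ≤ κ) (hκd : κ ≤ d)
    (hdeg : D.c0 * (d + D.w * D.c0) + D.I.card * D.c0 < D.I.card * n)
    (v : Fin κ → ℝ)
    (hv : (∑ i, v i • fun j : D.Nd n => D.rowB T i j) ∈ D.rsp n T d) : v = 0 := by
  classical
  obtain ⟨e, he⟩ := (Submodule.mem_span_range_iff_exists_fun ℝ).1 hv
  have hd1 : 1 ≤ d := hκ1.trans hκd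
  obtain ⟨Q, hQ1, hQ2, hQ3⟩ := choose_comb (K := κ) hκ1 v
  choose R hR1 hR2 hR3 using
    fun p : (D.Fs.erase ([], 0) : Finset (List ℕ × Fin (D.DD + 1))) =>
    choose_comb hd1 fun i => e (p, i)
  obtain ⟨Rf, hRf⟩ : ∃ Rf : List ℕ × Fin (D.DD + 1) → ℝ[X],
    Rf = fun ν => if h : ν ∈ D.Fs.erase ([], 0) then -R ⟨ν, h⟩ else Q := ⟨_, rfl⟩
  have hRf0 : Rf ([], 0) = Q := by
    rw [hRf]
    exact dif_neg (Finset.notMem_erase ([], 0) _)
  have hRf1 : ∀ p : (D.Fs.erase ([], 0) : Finset (List ℕ × Fin (D.DD + 1))),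
      Rf p = -R p := by
    intro p
    rw [hRf]
    exact dif_pos p.2
  have hRfd : ∀ ν, (Rf ν).natDegree ≤ d := by
    intro ν
    rw [hRf]
    show (if h : ν ∈ D.Fs.erase ([], 0) then -R ⟨ν, h⟩ else Q).natDegree ≤ d
    split_ifs with h
    · rw [natDegree_neg]
      exact (hR1 _).le
    · exact hQ1.le.trans hκd
  have h00 : (([], 0) : List ℕ × Fin (D.DD + 1)) ∈ D.Fs :=
    Finset.mem_product.2 ⟨D.hnil, Finset.mem_univ _⟩
  -- the relation
  have hrel : ∀ j ∈ D.Nd n, ∑ p ∈ D.Fs, D.H T p.1 p.2 j * (Rf p).eval (j : ℝ) = 0 := by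
    intro j hj
    have h1 := congrFun he ⟨j, hj⟩
    simp only [Finset.sum_apply, Pi.smul_apply, smul_eq_mul] at h1
    have e1 : ∑ a : D.RA4 d, e a * D.rowA T d a j =
        ∑ p : (D.Fs.erase ([], 0) : Finset (List ℕ × Fin (D.DD + 1))),
          D.H T p.1.1 p.1.2 j * (R p).eval (j : ℝ) := by
      rw [Fintype.sum_prod_type]
      refine Finset.sum_congr rfl fun p _ => ?_
      rw [hR2, Finset.mul_sum]
      refine Finset.sum_congr rfl fun i _ => ?_
      simp only [MDat.rowA]
      ring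
    have e2 : ∑ i : Fin κ, v i * D.rowB T i j = D.H T [] 0 j * Q.eval (j : ℝ) := by
      rw [hQ2, Finset.mul_sum]
      refine Finset.sum_congr rfl fun i _ => ?_
      simp only [MDat.rowB]
      ring
    have e3 : ∑ p : (D.Fs.erase ([], 0) : Finset (List ℕ × Fin (D.DD + 1))),
        D.H T p.1.1 p.1.2 j * (R p).eval (j : ℝ) = D.H T [] 0 j * Q.eval (j : ℝ) := by
      rw [← e1, ← e2]
      exact h1
    rw [← Finset.add_sum_erase D.Fs (fun p => D.H T p.1 p.2 j * (Rf p).eval (j : ℝ)) h00]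
    simp only
    rw [hRf0, ← Finset.sum_coe_sort (D.Fs.erase ([], 0)), ← e3, ← Finset.sum_add_distrib]
    refine Finset.sum_eq_zero fun p _ => ?_
    rw [hRf1, eval_neg]
    ring
  obtain ⟨W, hWdef⟩ : ∃ W : Submodule ℝ ℝ[X],
    W = Submodule.span ℝ (Set.range fun p : D.Fs => Rf p) := ⟨_, rfl⟩
  have hmem : ∀ p ∈ D.Fs, Rf p ∈ W := by
    intro ν hν
    rw [hWdef]
    exact Submodule.subset_span ⟨⟨ν, hν⟩, rfl⟩
  have hfin : Module.Finite ℝ W := by
    rw [hWdef]
    exact Module.Finite.span_of_finite ℝ (Set.finite_range _)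
  have hFc : D.Fs.card = D.Ws.card * (D.DD + 1) := by
    unfold MDat.Fs
    rw [Finset.card_product, Finset.card_univ, Fintype.card_fin]
  have hS : Module.finrank ℝ W ≤ D.Ws.card * (D.DD + 1) := by
    rw [hWdef]
    refine (finrank_range_le_card (R := ℝ) _).trans (le_of_eq ?_)
    simp only [Fintype.card_coe]
    rw [hFc]
  have hW : ∀ p ∈ W, p.natDegree ≤ d := by
    have h1 : W ≤ degreeLE ℝ ((d : ℕ) : WithBot ℕ) := by
      rw [hWdef, Submodule.span_le]
      rintro _ ⟨z, rfl⟩
      rw [SetLike.mem_coe, mem_degreeLE, ← natDegree_le_iff_degree_le]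
      exact hRfd z.1
    intro p hp
    have := h1 hp
    rwa [mem_degreeLE, ← natDegree_le_iff_degree_le] at this
  have htake : ∀ w ∈ D.Ws, ∀ i, w.take i ∈ D.Ws := by
    intro w hw i
    refine D.hpre (w.take i) (w.drop i) ?_
    rw [List.take_append_drop]
    exact hw
  obtain ⟨w', hw'⟩ : ∃ w' : ℕ → List ℕ → ℝ[X], w' = fun x v =>
      ∑ w ∈ D.Ws, if v <:+ w then
        ∑ δ, C ((D.co w δ x : ℚ) : ℝ) * Rf (w.take (w.length - v.length), δ) else 0 := ⟨_, rfl⟩
  have key := zeroW4 (q := D.q) (n := n) (d₁ := d) (w := D.w)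
    (T := T) (S := D.Ws.card * (D.DD + 1))
    (by have := D.hq; omega) (I := D.I) (fun x hx => (D.hI x hx).2) (sfx D.Ws)
    (sfx_pre D.hpre)
    (by
      intro u hu k hk
      obtain ⟨w, hw, h1⟩ := mem_sfx.1 hu
      exact (D.hadm w hw).1 k (h1.subset hk))
    (by
      intro u hu
      obtain ⟨w, hw, t, ht⟩ := mem_sfx.1 hu
      have h1 := D.hw w hw
      rw [← ht, List.sum_append] at h1
      omega)
    W hS hW w'
    (by
      intro x _ u
      rw [hw']
      refine W.sum_mem fun w hw => ?_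
      split_ifs with h
      · refine W.sum_mem fun δ _ => ?_
        rw [C_mul']
        exact W.smul_mem _ (hmem _ (Finset.mem_product.2 ⟨htake w hw _, Finset.mem_univ _⟩))
      · exact W.zero_mem)
    (by
      intro j hj
      have hj' : j ∈ D.Nd n := hj
      rw [← hrel j hj']
      have h1 : ∑ p ∈ D.Fs, D.H T p.1 p.2 j * (Rf p).eval (j : ℝ) =
          ∑ w ∈ D.Ws, ∑ δ, ((D.co w δ (j % D.q) : ℚ) : ℝ) * ∑ i ∈ range (w.length + 1),
            D.p T (w.drop i) j * (Rf (w.take i, δ)).eval (j : ℝ) := by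
        unfold MDat.Fs
        rw [Finset.sum_product]
        have h2 : ∀ w ∈ D.Ws, ∀ δ, ∑ i ∈ range (w.length + 1),
            D.p T (w.drop i) j * (Rf (w.take i, δ)).eval (j : ℝ) =
            ∑ u ∈ D.Ws, (if u <+: w then
              D.p T (w.drop u.length) j * (Rf (u, δ)).eval (j : ℝ) else 0) := by
          intro w hw δ
          rw [sum_prefix D.hpre hw
            (fun u => D.p T (w.drop u.length) j * (Rf (u, δ)).eval (j : ℝ))]
          refine Finset.sum_congr rfl fun i hi => ?_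
          have h3 : (w.take i).length = i := by
            rw [List.length_take]
            have := Finset.mem_range.1 hi
            omega
          simp only [h3]
        have h3 : ∑ w ∈ D.Ws, ∑ δ, ((D.co w δ (j % D.q) : ℚ) : ℝ) * ∑ i ∈ range (w.length + 1),
            D.p T (w.drop i) j * (Rf (w.take i, δ)).eval (j : ℝ) =
            ∑ w ∈ D.Ws, ∑ u ∈ D.Ws, ∑ δ, (if u <+: w then
              ((D.co w δ (j % D.q) : ℚ) : ℝ) * D.p T (w.drop u.length) j else 0) *
                (Rf (u, δ)).eval (j : ℝ) := by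
          refine Finset.sum_congr rfl fun w hw => ?_
          rw [Finset.sum_comm]
          refine Finset.sum_congr rfl fun δ _ => ?_
          rw [h2 w hw, Finset.mul_sum]
          refine Finset.sum_congr rfl fun u _ => ?_
          split_ifs <;> ring
        rw [h3]
        symm
        rw [Finset.sum_comm]
        refine Finset.sum_congr rfl fun u _ => ?_
        rw [Finset.sum_comm]
        refine Finset.sum_congr rfl fun δ _ => ?_
        simp only [MDat.H]
        rw [Finset.sum_mul]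
      rw [h1]
      have h4 : ∀ u, (w' (j % D.q) u).eval (j : ℝ) *
          pw D.q ((j % D.q : ℕ) : ℝ) u (j / D.q + T + 1) =
          ∑ w ∈ D.Ws, (if u <:+ w then (∑ δ, ((D.co w δ (j % D.q) : ℚ) : ℝ) *
            (Rf (w.take (w.length - u.length), δ)).eval (j : ℝ)) * D.p T u j else 0) := by
        intro u
        rw [hw', eval_finsetSum, Finset.sum_mul]
        refine Finset.sum_congr rfl fun w _ => ?_
        split_ifs with h
        · rw [eval_finsetSum]
          simp only [eval_mul, eval_C]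
          rfl
        · rw [eval_zero, zero_mul]
      simp only [h4]
      rw [Finset.sum_comm]
      refine Finset.sum_congr rfl fun w hw => ?_
      rw [R12_suffix hw (fun u => (∑ δ, ((D.co w δ (j % D.q) : ℚ) : ℝ) *
            (Rf (w.take (w.length - u.length), δ)).eval (j : ℝ)) * D.p T u j)]
      simp only [Finset.mul_sum, Finset.sum_mul]
      rw [Finset.sum_comm]
      refine Finset.sum_congr rfl fun δ _ => Finset.sum_congr rfl fun i hi => ?_
      have h5 : w.length - (w.drop i).length = i := by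
        rw [List.length_drop]
        have := Finset.mem_range.1 hi
        omega
      rw [h5]
      ring)
    (β := D.β₀) (mem_sfx.2 ⟨D.β₀, D.hβ₀, List.suffix_rfl⟩)
    (D.I.filter fun x => w' x D.β₀ ≠ 0)
    (Finset.filter_subset _ _) (by
      intro x hx
      obtain ⟨hxI, hx0⟩ := Finset.mem_filter.1 hx
      refine ⟨hx0, fun u hu => ?_⟩
      rw [hw']
      refine Finset.sum_eq_zero fun w hw => ?_
      split_ifs with h
      · refine Finset.sum_eq_zero fun δ _ => ?_
        have h1 := h.length_le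
        rw [List.length_append, D.hβe] at h1
        have h2 : 0 < u.length := List.length_pos_iff.2 hu
        have h3 : D.co w δ x = 0 := by
          by_contra h4
          have := D.hsup x hxI w hw δ h4
          omega
        rw [h3, Rat.cast_zero, C_0, zero_mul]
      · rfl)
  -- the good classes
  obtain ⟨L, hL⟩ : ∃ L : ℕ, L = (sfx D.Ws).card * (D.Ws.card * (D.DD + 1)) := ⟨_, rfl⟩
  have hc0 : D.c0 = 2 * L := by rw [hL]; rfl
  rw [← hL] at key
  have hbad : 2 * (D.I.filter fun x => w' x D.β₀ ≠ 0).card ≤ D.I.card := by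
    refine R12_num hc0 ?_ hdeg key
    have h1 : L ≤ D.c0 := by omega
    gcongr
  have hgood : D.I.card ≤ 2 * (D.I.filter fun x => ¬ w' x D.β₀ ≠ 0).card := by
    have h1 := Finset.card_filter_add_card_filter_not (s := D.I) (fun x => w' x D.β₀ ≠ 0)
    omega
  have hkill := kills D.hspread D.hU (fun δ => Rf ([], δ))
    (D.I.filter fun x => ¬ w' x D.β₀ ≠ 0)
    (Finset.filter_subset _ _) (by
      intro x hx
      obtain ⟨hxI, hx0⟩ := Finset.mem_filter.1 hx
      push Not at hx0
      rw [hw'] at hx0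
      rw [← hx0]
      simp only
      rw [Finset.sum_eq_single D.β₀]
      · rw [if_pos List.suffix_rfl, Nat.sub_self, List.take_zero]
        refine Finset.sum_congr rfl fun δ _ => ?_
        rw [← Rat.cast_smul_eq_qsmul ℝ, smul_eq_C_mul]
      · intro w hw hne
        split_ifs with h
        · refine Finset.sum_eq_zero fun δ _ => ?_
          have h3 : D.co w δ x = 0 := by
            by_contra h4
            have h5 := D.hsup x hxI w hw δ h4
            have h6 := h.length_le
            rw [D.hβe] at h6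
            exact hne (h.eq_of_length (by rw [D.hβe]; omega)).symm
          rw [h3, Rat.cast_zero, C_0, zero_mul]
        · rfl
      · intro h
        exact absurd D.hβ₀ h) hgood _ D.hone
  have hQ : Q = 0 := by
    rw [Finset.sum_eq_single (0 : Fin (D.DD + 1))] at hkill
    · simpa [hRf0] using hkill
    · intro δ _ hδ
      rw [if_neg hδ, zero_smul]
    · intro h
      exact absurd (Finset.mem_univ _) h
  exact hQ3 hQ

end CM68
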