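import Pool.Agent.LibCM68.I1
import Pool.Agent.LibCM68.S1
import Pool.Agent.LibMH.Defs

/-!
# Row R5: the column factors, integrality (MEDIUM; templates LibCM68/I1.lean, LibCM3/I4.lean)

Plan: `WP q n T w` is a `w`-th power: `WP q n T (a + b) = WP q n T a * WP q n T b` (`pow_add`).
`Wpw_int`: first for all `v` and all `N ≤ j / q + T + 1`: `(WP q n T v.sum).eval j * pw q (j % q) v N` is an integer, by induction on `v`:
`k :: v`: the sum over `m < N` of `[WP(k) * 1 / (q m + j % q)^k] * [WP(v.sum) * pw v m]`; the first bracket is an integer by `W_term_int` (with `w := k`,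
`i = n + T - j / q + m`, as in `Wps_int`), the second by induction (`m ≤ N`).  Then the rest `WP(w - v.sum)` is an integer (`W_int`).
`H_int4`: `|WP.eval j| = ± WP.eval j`, `⌊|z|⌋₊ = |z|` for an integer `z` (see `wt_eq3` in LibCM3/I4.lean), times `D₀ * co`; in `H` the words are `w.drop u.length` with
`w ∈ Ws`, of sum `≤ w.sum ≤ D.w` and letters `≥ 1`.
`wt_pos4`: `W_eval_ne` (`0 < j % q`), `wt_le4`: `Nat.floor_le`, `W_le`.
-/

namespace CM68

open Finset Polynomial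

private theorem R5_sum {ι : Type*} (s : Finset ι) (f : ι → ℝ)
    (h : ∀ i ∈ s, ∃ z : ℤ, f i = z) : ∃ z : ℤ, ∑ i ∈ s, f i = z := by
  classical
  induction s using Finset.induction_on with
  | empty => exact ⟨0, by simp⟩
  | insert a s ha ih =>
    obtain ⟨z₁, h₁⟩ := h a (Finset.mem_insert_self a s)
    obtain ⟨z₂, h₂⟩ := ih (fun i hi => h i (Finset.mem_insert_of_mem hi))
    refine ⟨z₁ + z₂, ?_⟩
    rw [Finset.sum_insert ha, h₁, h₂]
    push_cast
    ring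

private theorem R5_add (q n T a b : ℕ) (x : ℝ) :
    (WP q n T (a + b)).eval x = (WP q n T a).eval x * (WP q n T b).eval x := by
  unfold WP
  rw [pow_add, eval_mul]

private theorem R5_key {q n T : ℕ} {j : ℕ} (hj : j < q * n) (v : List ℕ) :
    (∀ k ∈ v, 1 ≤ k) → ∀ N : ℕ, N ≤ j / q + T + 1 →
    ∃ z : ℤ, (WP q n T v.sum).eval (j : ℝ) * pw q ((j % q : ℕ) : ℝ) v N = z := by
  induction v with
  | nil =>
    intro _ N _
    obtain ⟨z, hz⟩ := W_int q n T ([] : List ℕ).sum j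
    exact ⟨z, by rw [hz]; simp [pw]⟩
  | cons k v ih =>
    intro hv N hN
    have hk : 1 ≤ k := hv k (by simp)
    have hv' : ∀ k ∈ v, 1 ≤ k := fun l hl => hv l (List.mem_cons_of_mem _ hl)
    show ∃ z : ℤ, (WP q n T (k :: v).sum).eval (j : ℝ) *
      (∑ m ∈ range N, 1 / ((q : ℝ) * m + ((j % q : ℕ) : ℝ)) ^ k *
        pw q ((j % q : ℕ) : ℝ) v m) = z
    rw [Finset.mul_sum]
    refine R5_sum _ _ fun m hm => ?_
    have hm' := Finset.mem_range.1 hm
    obtain ⟨z₂, hz₂⟩ := ih hv' m (by omega)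
    have hjn : j / q < n := Nat.div_lt_of_lt_mul hj
    obtain ⟨z₁, hz₁⟩ := W_term_int (q := q) (n := n) (T := T) (i := n + T - j / q + m) hk le_rfl
      (by unfold win; omega) j
    refine ⟨z₁ * z₂, ?_⟩
    have h1 : ((n + T - j / q + m : ℕ) : ℝ) = (n : ℝ) + T - ((j / q : ℕ) : ℝ) + m := by
      rw [Nat.cast_add, Nat.cast_sub (by omega)]
      push_cast
      ring
    have h2 : (j : ℝ) = (q : ℝ) * ((j / q : ℕ) : ℝ) + ((j % q : ℕ) : ℝ) := by
      exact_mod_cast (Nat.div_add_mod j q).symm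
    have h3 : (j : ℝ) - (q : ℝ) * (n + T) + q * ((n + T - j / q + m : ℕ) : ℝ) =
        (q : ℝ) * m + ((j % q : ℕ) : ℝ) := by
      rw [h1]
      linear_combination h2
    rw [h3] at hz₁
    rw [List.sum_cons, R5_add]
    push_cast
    rw [← hz₁, ← hz₂]
    ring

theorem Wpw_int {q n T w : ℕ} {v : List ℕ} (hv : ∀ k ∈ v, 1 ≤ k) (hw : v.sum ≤ w) {j : ℕ}
    (hj : j < q * n) :
    ∃ z : ℤ, (WP q n T w).eval (j : ℝ) * pw q ((j % q : ℕ) : ℝ) v (j / q + T + 1) = z := by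
  obtain ⟨z₁, h₁⟩ := R5_key (T := T) hj v hv (j / q + T + 1) le_rfl
  obtain ⟨z₂, h₂⟩ := W_int q n T (w - v.sum) j
  refine ⟨z₁ * z₂, ?_⟩
  rw [show w = v.sum + (w - v.sum) by omega, R5_add, Int.cast_mul, ← h₁, ← h₂]
  ring

private theorem R5_nd {D : MDat} {n j : ℕ} (hj : j ∈ D.Nd n) : j < D.q * n ∧ j % D.q ∈ D.I := by
  have hj' := Finset.mem_filter.1
    (show j ∈ (range (D.q * n)).filter fun j => j % D.q ∈ D.I from hj)
  exact ⟨Finset.mem_range.1 hj'.1, hj'.2⟩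

private theorem R5_wt (D : MDat) (n T j : ℕ) :
    ((D.wt n T j : ℕ) : ℝ) = |(WP D.q n T D.w).eval (j : ℝ)| := by
  obtain ⟨z, hz⟩ := W_int D.q n T D.w j
  unfold MDat.wt
  rw [hz]
  have h1 : |(z : ℝ)| = ((z.natAbs : ℕ) : ℝ) := by
    rw [Nat.cast_natAbs, Int.cast_abs]
  rw [h1, Nat.floor_natCast]

theorem H_int4 (D : MDat) {n T D₀ : ℕ}
    (hco : ∀ u ∈ D.Ws, ∀ δ, ∀ x < D.q, ∃ m : ℤ, (D₀ : ℚ) * D.co u δ x = m)
    (u : List ℕ) (δ : Fin (D.DD + 1)) {j : ℕ} (hj : j ∈ D.Nd n) :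
    ∃ z : ℤ, (D₀ : ℝ) * (D.wt n T j : ℕ) * D.H T u δ j = z := by
  have hq := D.hq
  have hjn := (R5_nd hj).1
  rw [R5_wt]
  obtain ⟨s, hs⟩ : ∃ s : ℤ, |(WP D.q n T D.w).eval (j : ℝ)| =
      s * (WP D.q n T D.w).eval (j : ℝ) := by
    rcases abs_choice ((WP D.q n T D.w).eval (j : ℝ)) with h | h
    · exact ⟨1, by rw [h]; simp⟩
    · exact ⟨-1, by rw [h]; simp⟩
  rw [hs]
  unfold MDat.H
  rw [Finset.mul_sum]
  refine R5_sum _ _ fun w hw => ?_
  by_cases huw : u <+: w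
  · rw [if_pos huw]
    obtain ⟨m, hm⟩ := hco w hw δ (j % D.q) (Nat.mod_lt _ (by omega))
    have hsum : (w.drop u.length).sum ≤ D.w := by
      have h1 := D.hw w hw
      have h2 : (w.take u.length).sum + (w.drop u.length).sum = w.sum := by
        rw [← List.sum_append, List.take_append_drop]
      omega
    have hlet : ∀ k ∈ w.drop u.length, 1 ≤ k := fun k hk =>
      (D.hadm w hw).1 k (List.mem_of_mem_drop hk)
    obtain ⟨z, hz⟩ := Wpw_int (T := T) hlet hsum hjn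
    refine ⟨s * m * z, ?_⟩
    have hm' : (D₀ : ℝ) * (D.co w δ (j % D.q) : ℝ) = m := by
      have h3 := congrArg (Rat.cast : ℚ → ℝ) hm
      push_cast at h3
      exact h3
    rw [Int.cast_mul, Int.cast_mul, ← hm', ← hz]
    unfold MDat.p
    ring
  · rw [if_neg huw]
    exact ⟨0, by simp⟩

theorem wt_pos4 (D : MDat) {n T j : ℕ} (hj : j ∈ D.Nd n) : 1 ≤ D.wt n T j := by
  have hq := D.hq
  have h1 : (0 : ℝ) < ((D.wt n T j : ℕ) : ℝ) := by
    rw [R5_wt]
    exact abs_pos.2 (W_eval_ne (by omega) (D.hI _ (R5_nd hj).2).1)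
  exact Nat.cast_pos.1 h1

theorem wt_le4 (D : MDat) {n T j : ℕ} (hj : j ∈ D.Nd n) :
    (D.wt n T j : ℝ) ≤ Wb D.q n T D.w := by
  have hq := D.hq
  rw [R5_wt]
  exact W_le (by omega) (R5_nd hj).1

end CM68
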