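import Pool.Agent.LibCM2.S5
import Pool.Agent.LibMH.R1

/-!
# Row R6: the sizes (MEDIUM; templates LibCM3/S6.lean, LibCM3/S7.lean)

Plan: `H_le4`: at a node `1 ≤ j % q`, `pw ≤ N^length` (`pw_le_pow`, `pw_nonneg`), `N = j / q + T + 1 ≤ win n T` (`j / q < n`), length of `w.drop ..` `≤` length of `w` `≤`
sum of `w` (letters `≥ 1`) `≤ D.w`, `win ≥ 1`.  `UA4`: as `UA3` in LibCM3/S7.lean, literally.
-/

namespace CM68

open Finset Polynomial

theorem H_le4 (D : MDat) {B : ℝ}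
    (hB : ∀ δ, ∀ x < D.q, ∑ u ∈ D.Ws, |(D.co u δ x : ℝ)| ≤ B) {n T j : ℕ} (hj : j ∈ D.Nd n)
    (u : List ℕ) (δ : Fin (D.DD + 1)) : |D.H T u δ j| ≤ B * (win n T : ℝ) ^ D.w := by
  have hq : 0 < D.q := by have := D.hq; omega
  have hj' := hj
  unfold MDat.Nd P at hj'
  rw [Finset.mem_filter, Finset.mem_range] at hj'
  obtain ⟨hlt, hI⟩ := hj'
  have hpos : 0 < j % D.q := (D.hI _ hI).1
  have hdiv : j / D.q < n := by
    rw [Nat.div_lt_iff_lt_mul hq, mul_comm]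
    exact hlt
  have hN : j / D.q + T + 1 ≤ win n T := by
    unfold win
    omega
  have hW : (1 : ℝ) ≤ (win n T : ℝ) := by
    have : 1 ≤ win n T := by unfold win; omega
    exact_mod_cast this
  have hx : (1 : ℝ) ≤ ((j % D.q : ℕ) : ℝ) := by exact_mod_cast hpos
  have hp : ∀ w ∈ D.Ws, |D.p T (w.drop u.length) j| ≤ (win n T : ℝ) ^ D.w := by
    intro w hw
    have h0 := pw_nonneg D.q (zero_le_one.trans hx) (w.drop u.length) (j / D.q + T + 1)
    have h1 := pw_le_pow (q := D.q) hx (w.drop u.length) (j / D.q + T + 1)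
    have h2 : (w.drop u.length).length ≤ D.w := by
      have h3 : w.length ≤ w.sum :=
        List.length_le_sum_of_one_le w fun k hk => (D.hadm w hw).1 k hk
      have h4 := D.hw w hw
      rw [List.length_drop]
      omega
    unfold MDat.p
    rw [abs_of_nonneg h0]
    calc pw D.q ((j % D.q : ℕ) : ℝ) (w.drop u.length) (j / D.q + T + 1)
        ≤ ((j / D.q + T + 1 : ℕ) : ℝ) ^ (w.drop u.length).length := h1
      _ ≤ (win n T : ℝ) ^ (w.drop u.length).length :=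
          pow_le_pow_left₀ (Nat.cast_nonneg _) (by exact_mod_cast hN) _
      _ ≤ (win n T : ℝ) ^ D.w := pow_le_pow_right₀ hW h2
  have hWg : (0 : ℝ) ≤ (win n T : ℝ) ^ D.w := by positivity
  unfold MDat.H
  refine (Finset.abs_sum_le_sum_abs _ _).trans ?_
  have hterm : ∀ w ∈ D.Ws, |if u <+: w then (D.co w δ (j % D.q) : ℝ) * D.p T (w.drop u.length) j
      else 0| ≤ |(D.co w δ (j % D.q) : ℝ)| * (win n T : ℝ) ^ D.w := by
    intro w hw
    split_ifs
    · rw [abs_mul]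
      exact mul_le_mul_of_nonneg_left (hp w hw) (abs_nonneg _)
    · rw [abs_zero]
      positivity
  refine (Finset.sum_le_sum hterm).trans ?_
  rw [← Finset.sum_mul]
  exact mul_le_mul_of_nonneg_right (hB δ (j % D.q) (Nat.mod_lt _ hq)) hWg

/-- the sizes of the rows (i) -/
noncomputable def UA4 (D : MDat) (d Q₁ : ℕ) (Bw : ℝ) (a : D.RA4 d) : ℝ :=
  Bw * (Real.exp d * (Q₁ : ℝ) ^ (a.2 : ℕ))

theorem UA4_one (D : MDat) {d Q₁ : ℕ} {Bw : ℝ} (h1 : 1 ≤ Q₁) (hB : 1 ≤ Bw) (a : D.RA4 d) :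
    1 ≤ UA4 D d Q₁ Bw a := by
  have h1' : (1 : ℝ) ≤ Q₁ := by exact_mod_cast h1
  unfold UA4
  exact one_le_mul_of_one_le_of_one_le hB
    (one_le_mul_of_one_le_of_one_le (Real.one_le_exp (Nat.cast_nonneg _)) (one_le_pow₀ h1'))

private theorem R6_sum (d : ℕ) : ∑ k : Fin d, ((k : ℕ) : ℝ) = (d : ℝ) * (d - 1) / 2 := by
  rw [Fin.sum_univ_eq_sum_range (fun k : ℕ => (k : ℝ))]
  induction d with
  | zero => simp
  | succ d ih =>
    rw [Finset.sum_range_succ, ih]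
    push_cast
    ring

theorem UA4_prod (D : MDat) {d Q₁ : ℕ} {Bw : ℝ} (h1 : 1 ≤ Q₁) (hB : 1 ≤ Bw) :
    Real.log (∏ a, UA4 D d Q₁ Bw a) ≤ (D.Fs.erase ([], 0)).card * ((d : ℝ) * Real.log Bw +
      (d : ℝ) ^ 2 + (d : ℝ) ^ 2 / 2 * Real.log Q₁) := by
  have h1' : (1 : ℝ) ≤ Q₁ := by exact_mod_cast h1
  have l1 : 0 ≤ Real.log Q₁ := Real.log_nonneg h1'
  rw [Real.log_prod (fun a _ => ne_of_gt (lt_of_lt_of_le one_pos (UA4_one D h1 hB a)))]
  have e0 : ∀ x : D.RA4 d, Real.log (UA4 D d Q₁ Bw x) =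
      (Real.log Bw + d) + ((x.2 : ℕ) : ℝ) * Real.log Q₁ := by
    intro x
    unfold UA4
    rw [Real.log_mul (by positivity) (by positivity),
      Real.log_mul (Real.exp_ne_zero _) (by positivity), Real.log_exp, Real.log_pow]
    ring
  have e1 : ∑ x : D.RA4 d, Real.log (UA4 D d Q₁ Bw x) =
      (D.Fs.erase ([], 0)).card *
        (d * (Real.log Bw + d) + (d : ℝ) * (d - 1) / 2 * Real.log Q₁) := by
    rw [Finset.sum_congr rfl fun k _ => e0 k, Fintype.sum_prod_type]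
    simp only [Finset.sum_add_distrib, Finset.sum_const, ← Finset.sum_mul,
      R6_sum, Finset.card_univ, Fintype.card_fin, Fintype.card_coe, nsmul_eq_mul]
    ring
  rw [e1]
  have hd : (0 : ℝ) ≤ d := Nat.cast_nonneg _
  have f1 : (d : ℝ) * (Real.log Bw + d) + (d : ℝ) * (d - 1) / 2 * Real.log Q₁ ≤
      d * Real.log Bw + (d : ℝ) ^ 2 + (d : ℝ) ^ 2 / 2 * Real.log Q₁ := by
    nlinarith [mul_nonneg hd l1]
  exact mul_le_mul_of_nonneg_left f1 (Nat.cast_nonneg _)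

end CM68
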