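import Pool.Agent.LibCM2.B2

/-!
# Row R3: infinite sums of controlled power series (MEDIUM; templates LibCM2/B1.lean, LibCM2/B2.lean)

`Apx h R K e f` (LibCM2/B1.lean): `f` is a power series `∑ a i v^i` for `|v| ≤ h`, `|a i| ≤ K (i + 1)^e (1 / (R h))^i`.
Plan: `apx_inv`: `1 / (a + v)^k = ∑' i, (i + (k-1)).choose (k-1) * (-1)^i * (1 / a^(k+i)) * v^i` for `|v| < a`, see the proof of `apx_sum` in LibCM2/B2.lean
(`taylorK`-like, `hasSum_choose_mul_geometric_of_norm_lt_one`, `choose_shift`); `|v| ≤ h < R h ≤ a`; `1 / a^i ≤ (1 / (R h))^i`; `k = 0`: `apx_one`.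
`apx_fin`: induction with `apx_add` (the empty sum: `a = 0`).
`apx_tsum`: `a i = ∑' m, b m i`, `|b m i| ≤ K m (i + 1)^e (1 / (R h))^i`; the double family `b m i v^i` is absolutely summable for `|v| ≤ h`
(`|b m i v^i| ≤ K m * ((i + 1)^e (1/2)^i)`, `Summable.mul_of_nonneg`, `R ≥ 2`; the summability of `(i + 1)^e (1/2)^i` is proved in LibCM2/B1.lean as the private
`B1_sum`: copy it), exchange by `HasSum.prod_fiberwise` / `Summable.tsum_comm'`, as in `apx_sum`.
-/

namespace CM68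

open Finset Polynomial

theorem apx_inv {h R a : ℝ} (hh : 0 < h) (hR : 2 ≤ R) (ha : R * h ≤ a) (k : ℕ) :
    Apx h R (1 / a ^ k) k fun v => 1 / (a + v) ^ k := by
  have hRh : 0 < R * h := by positivity
  have hR0 : 0 < R := by linarith
  have ha0 : 0 < a := lt_of_lt_of_le hRh ha
  rcases Nat.eq_zero_or_pos k with hk | hk
  · subst hk
    have h1 := apx_one hh hR
    simpa using h1
  obtain ⟨K, rfl⟩ : ∃ K, k = K + 1 := ⟨k - 1, by omega⟩
  have hchoose : ∀ i : ℕ, ((i + K).choose K : ℝ) ≤ ((i : ℝ) + 1) ^ K := by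
    intro i
    have h1 := choose_shift K i 0
    rw [zero_add, zero_add, Nat.choose_self, mul_one] at h1
    exact_mod_cast h1
  refine ⟨fun i => ((i + K).choose K : ℝ) * (-1) ^ i * (1 / a ^ (K + 1 + i)), ?_, ?_⟩
  · intro i
    have h1 : 1 / a ^ (K + 1 + i) ≤ (1 / a ^ (K + 1)) * (1 / (R * h)) ^ i := by
      have h2 : 1 / a ≤ 1 / (R * h) := one_div_le_one_div_of_le hRh ha
      have h3 : 0 ≤ 1 / a := (one_div_pos.2 ha0).le
      calc 1 / a ^ (K + 1 + i) = (1 / a ^ (K + 1)) * (1 / a) ^ i := by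
            rw [pow_add, one_div_pow, one_div_mul_one_div]
        _ ≤ (1 / a ^ (K + 1)) * (1 / (R * h)) ^ i :=
            mul_le_mul_of_nonneg_left (pow_le_pow_left₀ h3 h2 i) (one_div_pos.2 (pow_pos ha0 _)).le
    have h3 : ((i + K).choose K : ℝ) ≤ ((i : ℝ) + 1) ^ (K + 1) := by
      refine (hchoose i).trans (pow_le_pow_right₀ ?_ (Nat.le_succ K))
      have : (0 : ℝ) ≤ i := Nat.cast_nonneg i
      linarith
    rw [abs_mul, abs_mul, abs_pow, abs_neg, abs_one, one_pow, mul_one,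
      abs_of_pos (one_div_pos.2 (pow_pos ha0 _)), abs_of_nonneg (Nat.cast_nonneg _)]
    calc ((i + K).choose K : ℝ) * (1 / a ^ (K + 1 + i))
        ≤ ((i : ℝ) + 1) ^ (K + 1) * ((1 / a ^ (K + 1)) * (1 / (R * h)) ^ i) :=
          mul_le_mul h3 h1 (one_div_pos.2 (pow_pos ha0 _)).le (by positivity)
      _ = 1 / a ^ (K + 1) * ((i : ℝ) + 1) ^ (K + 1) * (1 / (R * h)) ^ i := by ring
  · intro v hv
    have hva : |v / a| ≤ 1 / R := by
      rw [abs_div, abs_of_pos ha0, div_le_div_iff₀ ha0 hR0, one_mul]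
      calc |v| * R ≤ h * R := mul_le_mul_of_nonneg_right hv hR0.le
        _ = R * h := mul_comm _ _
        _ ≤ a := ha
    have hR12 : 1 / R ≤ 1 / 2 := one_div_le_one_div_of_le (by norm_num) hR
    have hx : ‖-(v / a)‖ < 1 := by
      rw [norm_neg, Real.norm_eq_abs]
      linarith
    have h1 := (hasSum_choose_mul_geometric_of_norm_lt_one K hx).mul_left (1 / a ^ (K + 1))
    have h2 : 1 / a ^ (K + 1) * (1 / (1 - -(v / a)) ^ (K + 1)) = 1 / (a + v) ^ (K + 1) := by
      rw [one_div_mul_one_div, ← mul_pow]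
      congr 2
      have := ha0.ne'
      field_simp
      ring
    rw [h2] at h1
    have h3 : (fun i => ((i + K).choose K : ℝ) * (-1) ^ i * (1 / a ^ (K + 1 + i)) * v ^ i) =
        fun i => 1 / a ^ (K + 1) * (((i + K).choose K : ℝ) * (-(v / a)) ^ i) := by
      funext i
      rw [neg_pow (v / a), div_pow, pow_add]
      have := ha0.ne'
      field_simp
    rw [h3]
    exact h1

theorem apx_fin {h R : ℝ} (hh : 0 < h) (hR : 2 ≤ R) {e : ℕ} {K : ℕ → ℝ} {f : ℕ → ℝ → ℝ}
    (s : Finset ℕ) (hf : ∀ m ∈ s, Apx h R (K m) e (f m)) :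
    Apx h R (∑ m ∈ s, K m) e fun v => ∑ m ∈ s, f m v := by
  classical
  induction s using Finset.induction_on with
  | empty =>
    refine ⟨fun _ => 0, fun i => by simp, fun v _ => ?_⟩
    simp
  | insert m s hm ih =>
    have h1 := apx_add hh hR (hf m (Finset.mem_insert_self m s))
      (ih fun m' hm' => hf m' (Finset.mem_insert_of_mem hm'))
    rw [Finset.sum_insert hm]
    have h2 : (fun v => ∑ m' ∈ insert m s, f m' v) = fun v => f m v + ∑ m' ∈ s, f m' v := by
      funext v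
      rw [Finset.sum_insert hm]
    rw [h2]
    exact h1

private theorem r3_sum (e : ℕ) : Summable fun i : ℕ => ((i : ℝ) + 1) ^ e * (1 / 2) ^ i := by
  have h := (summable_nat_add_iff 1).2
    (summable_pow_mul_geometric_of_norm_lt_one e (r := (1 / 2 : ℝ)) (by norm_num))
  refine (h.mul_left 2).congr fun i => ?_
  push_cast
  rw [pow_succ]
  ring

theorem apx_tsum {h R : ℝ} (hh : 0 < h) (hR : 2 ≤ R) {e : ℕ} {K : ℕ → ℝ} {f : ℕ → ℝ → ℝ}
    (hK : ∀ m, 0 ≤ K m) (hs : Summable K) (hf : ∀ m, Apx h R (K m) e (f m)) :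
    Apx h R (∑' m, K m) e fun v => ∑' m, f m v := by
  choose b hb hsb using hf
  have hR0 : 0 < R := by linarith
  have hRh : 0 < R * h := by positivity
  obtain ⟨q, hq⟩ : ∃ q : ℝ, q = 1 / (R * h) := ⟨_, rfl⟩
  have hq0 : 0 ≤ q := by rw [hq]; positivity
  rw [← hq] at hb
  have hbs : ∀ i, Summable fun m => b m i := by
    intro i
    refine Summable.of_norm_bounded (g := fun m => K m * (((i : ℝ) + 1) ^ e * q ^ i))
      (hs.mul_right _) fun m => ?_
    rw [Real.norm_eq_abs, ← mul_assoc]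
    exact hb m i
  refine ⟨fun i => ∑' m, b m i, fun i => ?_, fun v hv => ?_⟩
  · rw [← hq]
    have h1 : |∑' m, b m i| ≤ ∑' m, K m * (((i : ℝ) + 1) ^ e * q ^ i) := by
      rw [← Real.norm_eq_abs]
      refine tsum_of_norm_bounded (hs.mul_right _).hasSum fun m => ?_
      rw [Real.norm_eq_abs, ← mul_assoc]
      exact hb m i
    rw [tsum_mul_right] at h1
    rw [mul_assoc]
    exact h1
  · set F : ℕ × ℕ → ℝ := fun p => b p.1 p.2 * v ^ p.2 with hF
    have hqv : q * |v| ≤ 1 / 2 := by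
      rw [hq]
      calc 1 / (R * h) * |v| ≤ 1 / (R * h) * h := mul_le_mul_of_nonneg_left hv (by positivity)
        _ = 1 / R := by field_simp
        _ ≤ 1 / 2 := one_div_le_one_div_of_le (by norm_num) hR
    have hFn : ∀ p : ℕ × ℕ, ‖F p‖ ≤ K p.1 * (((p.2 : ℝ) + 1) ^ e * (1 / 2) ^ p.2) := by
      rintro ⟨m, i⟩
      simp only [hF]
      rw [Real.norm_eq_abs, abs_mul, abs_pow]
      calc |b m i| * |v| ^ i ≤ (K m * ((i : ℝ) + 1) ^ e * q ^ i) * |v| ^ i :=
            mul_le_mul_of_nonneg_right (hb m i) (by positivity)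
        _ = (K m * ((i : ℝ) + 1) ^ e) * (q * |v|) ^ i := by rw [mul_pow]; ring
        _ ≤ (K m * ((i : ℝ) + 1) ^ e) * (1 / 2) ^ i :=
            mul_le_mul_of_nonneg_left (pow_le_pow_left₀ (by positivity) hqv i)
              (mul_nonneg (hK m) (by positivity))
        _ = K m * (((i : ℝ) + 1) ^ e * (1 / 2) ^ i) := by ring
    have hFs : Summable F := by
      refine Summable.of_norm_bounded ?_ hFn
      exact hs.mul_of_nonneg (r3_sum e) hK fun i => by positivity
    have hrow : ∀ m : ℕ, HasSum (fun i => F (m, i)) (f m v) := fun m => hsb m v hv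
    have h1 : HasSum (fun m => f m v) (∑' p, F p) := hFs.hasSum.prod_fiberwise hrow
    have h2 : HasSum (fun p : ℕ × ℕ => F p.swap) (∑' p, F p) :=
      (Equiv.prodComm ℕ ℕ).hasSum_iff.2 hFs.hasSum
    have h3 : ∀ i : ℕ, HasSum (fun m => F (i, m).swap) ((∑' m, b m i) * v ^ i) := by
      intro i
      exact (hbs i).hasSum.mul_right (v ^ i)
    have h4 := h2.prod_fiberwise h3
    rw [← h1.tsum_eq] at h4
    exact h4

end CM68
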