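import Pool.Agent.LibMH.R2
import Pool.Agent.LibMH.R3

/-!
# Row R4: the tails are controlled power series (MEDIUM; template LibCM3/B4.lean)

Plan: put `a = q n / 2 + q (r n + 1)`, `h = q n / 2`, `R = 2 r + 1`: `R h ≤ q m + a` for all `m ≥ 0`, `1 ≤ a`.
`apx_pw`: induction on `v`: `[]`: `apx_one` (`K = 1`, `e = 0`); `k :: v`: the term `1 / (q m + a + y)^k * pw q (a + y) v m` is `Apx .. (1 / (q m + a)^k * pw q a v m)
(k + (v.sum + v.length) + 1)` by `apx_inv`, `apx_mul` (`pw_nonneg`), sum over `m < N`: `apx_fin`; `(k :: v).sum + (k :: v).length = k + v.sum + v.length + 1`.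
`apx_sw`: the same with `apx_tsum`, `summable_sw`.
`A_poly4`: `D.A (r n) u j = sw q (j + q (r n + 1)) u`, `y = j - q n / 2`, `|y| ≤ q n / 2` for `0 ≤ j ≤ q n`; `apx_sw`, `apx_mono` (`sw q a u ≤ sw 1 1 u ≤ Kc`: `sw_mono_x`,
`Finset.single_le_sum`, `sw_nonneg`; exponent `u.sum + u.length ≤ 2 w = ec`: letters `≥ 1`), `apx_poly` (LibCM2/B1), `G = G₁.comp (X - C (q n / 2))`.
-/

namespace CM68

open Finset Polynomial

private theorem R4_params {q n r : ℕ} (hq : 1 ≤ q) (hn : 1 ≤ n) (hr : 1 ≤ r) :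
    0 < (q : ℝ) * n / 2 ∧ (2 : ℝ) ≤ 2 * r + 1 ∧ 1 ≤ (q : ℝ) * n / 2 + q * (r * n + 1) ∧
      ∀ m : ℕ, (2 * (r : ℝ) + 1) * ((q : ℝ) * n / 2) ≤
        (q : ℝ) * m + ((q : ℝ) * n / 2 + q * (r * n + 1)) := by
  have hqR : (1 : ℝ) ≤ q := by exact_mod_cast hq
  have hnR : (1 : ℝ) ≤ n := by exact_mod_cast hn
  have hrR : (1 : ℝ) ≤ r := by exact_mod_cast hr
  refine ⟨by positivity, by linarith, ?_, fun m => ?_⟩
  · have h1 : 0 ≤ (q : ℝ) * n / 2 := by positivity
    have h2 : (0 : ℝ) ≤ r * n := by positivity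
    nlinarith
  · have h1 : (0 : ℝ) ≤ q * m := by positivity
    nlinarith

private theorem R4_term {q n r : ℕ} (hq : 1 ≤ q) (hn : 1 ≤ n) (hr : 1 ≤ r) (k : ℕ) (v : List ℕ)
    (m : ℕ)
    (ih : Apx ((q : ℝ) * n / 2) (2 * r + 1) (pw q ((q : ℝ) * n / 2 + q * (r * n + 1)) v m)
      (v.sum + v.length) fun y => pw q (((q : ℝ) * n / 2 + q * (r * n + 1)) + y) v m) :
    Apx ((q : ℝ) * n / 2) (2 * r + 1)
      (1 / ((q : ℝ) * m + ((q : ℝ) * n / 2 + q * (r * n + 1))) ^ k *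
        pw q ((q : ℝ) * n / 2 + q * (r * n + 1)) v m)
      ((k :: v).sum + (k :: v).length)
      fun y => 1 / ((q : ℝ) * m + (((q : ℝ) * n / 2 + q * (r * n + 1)) + y)) ^ k *
        pw q (((q : ℝ) * n / 2 + q * (r * n + 1)) + y) v m := by
  obtain ⟨hh, hR, ha, hRa⟩ := R4_params (q := q) (n := n) (r := r) hq hn hr
  have h1 := apx_inv hh hR (hRa m) k
  have hnn := pw_nonneg q (show 0 ≤ (q : ℝ) * n / 2 + q * (r * n + 1) by linarith) v m
  have h2 := apx_mul hh hR (by positivity) hnn h1 ih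
  have he : k + (v.sum + v.length) + 1 = (k :: v).sum + (k :: v).length := by
    rw [List.sum_cons, List.length_cons]
    ring
  rw [he] at h2
  have hf : (fun y : ℝ => 1 / ((q : ℝ) * m + ((q : ℝ) * n / 2 + q * (r * n + 1)) + y) ^ k *
        pw q (((q : ℝ) * n / 2 + q * (r * n + 1)) + y) v m) =
      fun y => 1 / ((q : ℝ) * m + (((q : ℝ) * n / 2 + q * (r * n + 1)) + y)) ^ k *
        pw q (((q : ℝ) * n / 2 + q * (r * n + 1)) + y) v m := by
    funext y
    rw [add_assoc ((q : ℝ) * m)]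
  rw [hf] at h2
  exact h2

theorem apx_pw {q n r : ℕ} (hq : 1 ≤ q) (hn : 1 ≤ n) (hr : 1 ≤ r) (v : List ℕ) (N : ℕ) :
    Apx ((q : ℝ) * n / 2) (2 * r + 1) (pw q ((q : ℝ) * n / 2 + q * (r * n + 1)) v N)
      (v.sum + v.length) fun y => pw q (((q : ℝ) * n / 2 + q * (r * n + 1)) + y) v N := by
  obtain ⟨hh, hR, ha, hRa⟩ := R4_params (q := q) (n := n) (r := r) hq hn hr
  induction v generalizing N with
  | nil =>
    simp only [pw, List.sum_nil, List.length_nil, Nat.add_zero]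
    exact apx_one hh hR
  | cons k v ih =>
    simp only [pw]
    exact apx_fin hh hR (range N) fun m _ => R4_term hq hn hr k v m (ih m)

theorem apx_sw {q n r : ℕ} (hq : 1 ≤ q) (hn : 1 ≤ n) (hr : 1 ≤ r) {v : List ℕ} (hv : Adms v) :
    Apx ((q : ℝ) * n / 2) (2 * r + 1) (sw q ((q : ℝ) * n / 2 + q * (r * n + 1)) v)
      (v.sum + v.length) fun y => sw q (((q : ℝ) * n / 2 + q * (r * n + 1)) + y) v := by
  obtain ⟨hh, hR, ha, hRa⟩ := R4_params (q := q) (n := n) (r := r) hq hn hr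
  cases v with
  | nil =>
    simp only [sw, List.sum_nil, List.length_nil, Nat.add_zero]
    exact apx_one hh hR
  | cons k v =>
    simp only [sw]
    refine apx_tsum hh hR (fun m => ?_) (summable_sw hq ha hv) fun m =>
      R4_term hq hn hr k v m (apx_pw hq hn hr v m)
    have hnn := pw_nonneg q (show 0 ≤ (q : ℝ) * n / 2 + q * (r * n + 1) by linarith) v m
    positivity

theorem one_le_Kc (D : MDat) : 1 ≤ D.Kc := by
  have h1 : sw 1 1 [] ≤ D.Kc := by
    unfold MDat.Kc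
    exact Finset.single_le_sum (f := fun u => sw 1 1 u)
      (fun u _ => sw_nonneg 1 (by norm_num) u) D.hnil
  simpa [sw] using h1

private theorem R4_len (v : List ℕ) (hv : ∀ k ∈ v, 1 ≤ k) : v.length ≤ v.sum := by
  induction v with
  | nil => simp
  | cons k v ih =>
    rw [List.sum_cons, List.length_cons]
    have h1 := ih fun k hk => hv k (List.mem_cons_of_mem _ hk)
    have h2 := hv k List.mem_cons_self
    omega

theorem A_poly4 (D : MDat) {n r m : ℕ} (hn : 1 ≤ n) (hr : 1 ≤ r) (hm : 1 ≤ m) {u : List ℕ}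
    (hu : u ∈ D.Ws) :
    ∃ G : ℝ[X], G.natDegree < m ∧ ∀ j : ℕ, j < D.q * n →
      |D.A (r * n) u j - G.eval (j : ℝ)| ≤
        D.Kc * ce D.ec * ((m : ℝ) + 1) ^ D.ec * (1 / (2 * (r : ℝ) + 1)) ^ m := by
  have hq1 : 1 ≤ D.q := le_trans (by norm_num) D.hq
  obtain ⟨hh, hR, ha, hRa⟩ := R4_params (q := D.q) (n := n) (r := r) hq1 hn hr
  have hadm := D.hadm u hu
  have h1 := apx_sw hq1 hn hr hadm
  have hK : sw D.q ((D.q : ℝ) * n / 2 + D.q * (r * n + 1)) u ≤ D.Kc := by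
    refine (sw_mono_x hq1 ha hadm).trans ?_
    unfold MDat.Kc
    exact Finset.single_le_sum (f := fun u => sw 1 1 u)
      (fun u _ => sw_nonneg 1 (by norm_num) u) hu
  have hK0 : 0 ≤ sw D.q ((D.q : ℝ) * n / 2 + D.q * (r * n + 1)) u :=
    sw_nonneg _ (by linarith) _
  have he : u.sum + u.length ≤ D.ec := by
    have h2 := R4_len u hadm.1
    have h3 := D.hw u hu
    unfold MDat.ec
    omega
  have hA := apx_mono hh hR hK he hK0 h1
  obtain ⟨G, hG, hGv⟩ := apx_poly hh hR (by linarith [one_le_Kc D]) hA hm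
  refine ⟨G.comp (X - C ((D.q : ℝ) * n / 2)), ?_, fun j hj => ?_⟩
  · rw [natDegree_comp, natDegree_X_sub_C, mul_one]
    exact hG
  · have hj1 : (j : ℝ) ≤ D.q * n := by exact_mod_cast hj.le
    have hj0 : (0 : ℝ) ≤ j := Nat.cast_nonneg j
    have hv : |(j : ℝ) - (D.q : ℝ) * n / 2| ≤ (D.q : ℝ) * n / 2 := by
      rw [abs_le]
      constructor <;> linarith
    have h2 := hGv _ hv
    have h3 : D.A (r * n) u j = sw D.q ((D.q : ℝ) * n / 2 + D.q * (r * n + 1) +
        ((j : ℝ) - (D.q : ℝ) * n / 2)) u := by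
      unfold MDat.A
      congr 1
      push_cast
      ring
    rw [eval_comp, eval_sub, eval_X, eval_C, h3]
    exact h2

end CM68
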