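import Pool.Agent.LibMH.R2

/-!
# Row R7: deconcatenation of the relation (SHORT/MEDIUM; template LibCM3/H3.lean)

Plan: `x = j % q ∈ I`, `1 ≤ x`.  By `sw_split` (`M = j / q + T + 1`, `x + q M = j + q (T + 1)`): `sw q x w = ∑ i ∈ range (w.length + 1), A T (w.take i) j * p T (w.drop i) j`.
`∑ u ∈ Ws, (if u <+: w then p T (w.drop u.length) j * A T u j else 0)` is the same sum (`sum_prefix`, LibMH/R1).  Then `Finset.sum_comm` and `hrel`.
-/

namespace CM68

open Finset Polynomial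

theorem H_rel4 (D : MDat) {n : ℕ} (T : ℕ) {j : ℕ} (hj : j ∈ D.Nd n) :
    ∑ u ∈ D.Ws, (∑ δ, D.vv δ * D.H T u δ j) * D.A T u j = 0 := by
  have hj' := Finset.mem_filter.1
    (show j ∈ (range (D.q * n)).filter fun j => j % D.q ∈ D.I from hj)
  have hx := hj'.2
  have hq := D.hq
  have hx1 : (1 : ℝ) ≤ ((j % D.q : ℕ) : ℝ) := by exact_mod_cast (D.hI _ hx).1
  rw [← D.hrel _ hx]
  have h1 : ∀ u ∈ D.Ws, (∑ δ, D.vv δ * D.H T u δ j) * D.A T u j =
      ∑ w ∈ D.Ws, (∑ δ, (D.co w δ (j % D.q) : ℝ) * D.vv δ) *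
        (if u <+: w then D.p T (w.drop u.length) j * D.A T u j else 0) := by
    intro u _
    unfold MDat.H
    simp only [Finset.mul_sum, Finset.sum_mul]
    rw [Finset.sum_comm]
    refine Finset.sum_congr rfl fun w _ => Finset.sum_congr rfl fun δ _ => ?_
    split_ifs <;> ring
  rw [Finset.sum_congr rfl h1, Finset.sum_comm]
  refine Finset.sum_congr rfl fun w hw => ?_
  rw [← Finset.mul_sum]
  congr 1
  rw [sum_prefix D.hpre hw (fun u => D.p T (w.drop u.length) j * D.A T u j),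
    sw_split (by omega) hx1 (D.hadm w hw) (j / D.q + T + 1)]
  refine Finset.sum_congr rfl fun i hi => ?_
  have hlen : (w.take i).length = i := by
    have h2 := Finset.mem_range.1 hi
    rw [List.length_take]
    omega
  have h3 : ((j % D.q : ℕ) : ℝ) + (D.q : ℝ) * ((j / D.q + T + 1 : ℕ) : ℝ) =
      (j : ℝ) + D.q * (T + 1) := by
    have h4 : ((j % D.q + D.q * (j / D.q) : ℕ) : ℝ) = (j : ℝ) := by
      rw [Nat.mod_add_div]
    push_cast at h4 ⊢
    linarith
  rw [h3, hlen]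
  unfold MDat.p MDat.A
  ring

end CM68
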