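import Pool.Agent.LibCM68.D0
import Pool.Agent.LibMH.R4
import Pool.Agent.LibMH.R6
import Pool.Agent.LibMH.R7

/-!
# Row R8: the rows (iv) are small modulo the rows (i) (MEDIUM; template LibCM3/SM3.lean, proved, nearly literally)

Changes against LibCM3/SM3.lean: `Fs = Ws ×ˢ univ`, `([], 0)` for `(0, 0)`, `H T u δ j` for `H n T ν δ j`, `A T u j` for `Av n T ν j`, `A T [] j = sw .. [] = 1`, nodes
`j < q n`, `A_poly4`, `H_rel4`, `H_le4` for `Av_poly3`, `H_rel3`, `H_le3`, the exponent `D.w` for `D.g`.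
-/

namespace CM68

open Finset Polynomial

theorem Vm_one4 (D : MDat) : 1 ≤ D.Vm := by
  unfold MDat.Vm
  have h1 : |D.vv 0 / D.vv 0| ≤ ∑ δ, |D.vv δ / D.vv 0| :=
    Finset.single_le_sum (f := fun δ => |D.vv δ / D.vv 0|) (fun _ _ => abs_nonneg _) (mem_univ 0)
  rwa [div_self D.hv, abs_one] at h1

private theorem R8_span (D : MDat) {n T d : ℕ} {p : ℝ[X]} (hp : p.natDegree < d)
    {f : List ℕ × Fin (D.DD + 1)} (hf : f ∈ D.Fs.erase ([], 0)) :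
    (fun j : D.Nd n => D.H T f.1 f.2 (j : ℕ) * p.eval ((j : ℕ) : ℝ)) ∈ D.rsp n T d := by
  obtain ⟨a, ha⟩ := exists_choose hp
  have h1 : (fun j : D.Nd n => D.H T f.1 f.2 (j : ℕ) * p.eval ((j : ℕ) : ℝ)) =
      ∑ k : Fin d, a k • fun j : D.Nd n => D.rowA T d (⟨f, hf⟩, k) (j : ℕ) := by
    funext j
    rw [Finset.sum_apply, ha, Finset.mul_sum]
    refine Finset.sum_congr rfl fun k _ => ?_
    rw [Pi.smul_apply, smul_eq_mul]
    unfold MDat.rowA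
    ring
  rw [h1]
  exact Submodule.sum_mem _ fun k _ => Submodule.smul_mem _ _
    (Submodule.subset_span ⟨(⟨f, hf⟩, k), rfl⟩)

private theorem R8_A0 (D : MDat) (T j : ℕ) : D.A T [] j = 1 := by
  unfold MDat.A
  rfl

theorem rows_small4 (D : MDat) {n r d i : ℕ} (hn : 1 ≤ n) (hr : 1 ≤ r) (hi : i < d) {B : ℝ}
    (hB : ∀ δ, ∀ x < D.q, ∑ u ∈ D.Ws, |(D.co u δ x : ℝ)| ≤ B) :
    ∃ v' : D.Nd n → ℝ, (v' - fun j : D.Nd n => D.rowB (r * n) i j) ∈ D.rsp n (r * n) d ∧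
      ∀ j : D.Nd n, |v' j| ≤
        (D.Ws.card * D.Vm * (B * (win n (r * n) : ℝ) ^ D.w) * (D.Kc * ce D.ec)) *
          (((d : ℝ) + 1) ^ D.ec * (1 / (2 * (r : ℝ) + 1)) ^ (d - i)) * ((j : ℕ).choose i : ℝ) := by
  classical
  obtain ⟨Ψ, hΨ, hΨ'⟩ := choose_poly i
  obtain ⟨m, hm⟩ : ∃ m, m = d - i := ⟨_, rfl⟩
  have hm1 : 1 ≤ m := by omega
  have hG : ∀ u : List ℕ, ∃ G : ℝ[X], u ∈ D.Ws → G.natDegree < m ∧
      ∀ j : ℕ, j < D.q * n → |D.A (r * n) u j - G.eval (j : ℝ)| ≤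
        D.Kc * ce D.ec * ((m : ℝ) + 1) ^ D.ec * (1 / (2 * (r : ℝ) + 1)) ^ m := by
    intro u
    by_cases hu : u ∈ D.Ws
    · obtain ⟨G, h1, h2⟩ := A_poly4 D hn hr hm1 hu
      exact ⟨G, fun _ => ⟨h1, h2⟩⟩
    · exact ⟨0, fun h => absurd h hu⟩
  choose G hG using hG
  have h0 : ([] : List ℕ) ∈ D.Ws := D.hnil
  have h00 : (([] : List ℕ), (0 : Fin (D.DD + 1))) ∈ D.Fs := by
    unfold MDat.Fs
    exact mem_product.2 ⟨h0, mem_univ _⟩
  have hnode : ∀ j : D.Nd n, (j : ℕ) < D.q * n := by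
    intro j
    have h1 := j.2
    unfold MDat.Nd P at h1
    exact mem_range.1 (mem_filter.1 h1).1
  have hrel : ∀ j : D.Nd n, D.H (r * n) [] 0 (j : ℕ) =
      - ∑ f ∈ D.Fs.erase ([], 0), D.vv f.2 / D.vv 0 *
        (D.H (r * n) f.1 f.2 (j : ℕ) * D.A (r * n) f.1 (j : ℕ)) := by
    intro j
    have h1 := H_rel4 D (n := n) (r * n) j.2
    have h2 : ∑ u ∈ D.Ws, (∑ δ, D.vv δ * D.H (r * n) u δ (j : ℕ)) * D.A (r * n) u (j : ℕ) =
        ∑ f ∈ D.Fs, D.vv f.2 * (D.H (r * n) f.1 f.2 (j : ℕ) * D.A (r * n) f.1 (j : ℕ)) := by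
      unfold MDat.Fs
      rw [Finset.sum_product]
      refine Finset.sum_congr rfl fun u _ => ?_
      rw [Finset.sum_mul]
      exact Finset.sum_congr rfl fun δ _ => by ring
    rw [h2, ← Finset.add_sum_erase _ _ h00, R8_A0, mul_one] at h1
    have h3 : ∑ f ∈ D.Fs.erase ([], 0), D.vv f.2 / D.vv 0 *
        (D.H (r * n) f.1 f.2 (j : ℕ) * D.A (r * n) f.1 (j : ℕ)) =
        (∑ f ∈ D.Fs.erase ([], 0), D.vv f.2 *
        (D.H (r * n) f.1 f.2 (j : ℕ) * D.A (r * n) f.1 (j : ℕ))) / D.vv 0 := by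
      rw [Finset.sum_div]
      exact Finset.sum_congr rfl fun f _ => by ring
    rw [h3]
    have hv := D.hv
    rw [eq_neg_iff_add_eq_zero]
    have h4 : D.vv 0 * (D.H (r * n) [] 0 (j : ℕ) + (∑ f ∈ D.Fs.erase ([], 0), D.vv f.2 *
        (D.H (r * n) f.1 f.2 (j : ℕ) * D.A (r * n) f.1 (j : ℕ))) / D.vv 0) = 0 := by
      rw [mul_add, mul_div_cancel₀ _ hv]
      exact h1
    exact (mul_eq_zero.1 h4).resolve_left hv
  refine ⟨fun j => - ∑ f ∈ D.Fs.erase ([], 0), D.vv f.2 / D.vv 0 * (D.H (r * n) f.1 f.2 (j : ℕ) *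
    (((j : ℕ).choose i : ℝ) * (D.A (r * n) f.1 (j : ℕ) - (G f.1).eval ((j : ℕ) : ℝ)))), ?_, ?_⟩
  · have h1 : ((fun j : D.Nd n => - ∑ f ∈ D.Fs.erase ([], 0), D.vv f.2 / D.vv 0 *
        (D.H (r * n) f.1 f.2 (j : ℕ) *
        (((j : ℕ).choose i : ℝ) * (D.A (r * n) f.1 (j : ℕ) - (G f.1).eval ((j : ℕ) : ℝ))))) -
        fun j : D.Nd n => D.rowB (r * n) i j) =
        ∑ f ∈ D.Fs.erase ([], 0), (D.vv f.2 / D.vv 0) • fun j : D.Nd n =>
          D.H (r * n) f.1 f.2 (j : ℕ) * (G f.1 * Ψ).eval ((j : ℕ) : ℝ) := by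
      funext j
      rw [Pi.sub_apply, Finset.sum_apply]
      show - ∑ f ∈ D.Fs.erase ([], 0), D.vv f.2 / D.vv 0 * (D.H (r * n) f.1 f.2 (j : ℕ) *
        (((j : ℕ).choose i : ℝ) * (D.A (r * n) f.1 (j : ℕ) - (G f.1).eval ((j : ℕ) : ℝ)))) -
        D.rowB (r * n) i j = _
      unfold MDat.rowB
      rw [hrel j, neg_mul, sub_neg_eq_add, Finset.sum_mul, neg_add_eq_sub,
        ← Finset.sum_sub_distrib]
      refine Finset.sum_congr rfl fun f _ => ?_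
      rw [Pi.smul_apply, smul_eq_mul, eval_mul, hΨ']
      ring
    rw [h1]
    refine Submodule.sum_mem _ fun f hf => Submodule.smul_mem _ _ (R8_span D ?_ hf)
    have hf1 : f.1 ∈ D.Ws := (mem_product.1 (show f ∈ D.Ws ×ˢ univ from Finset.mem_of_mem_erase hf)).1
    have h2 := (hG f.1 hf1).1
    have h3 : (G f.1 * Ψ).natDegree ≤ (G f.1).natDegree + Ψ.natDegree := natDegree_mul_le
    omega
  · intro j
    obtain ⟨Bw, hBw⟩ : ∃ Bw : ℝ, Bw = B * (win n (r * n) : ℝ) ^ D.w := ⟨_, rfl⟩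
    have hHle : ∀ u, ∀ δ, |D.H (r * n) u δ (j : ℕ)| ≤ Bw := by
      intro u δ
      rw [hBw]
      exact H_le4 D hB j.2 u δ
    have hBw0 : 0 ≤ Bw := (abs_nonneg _).trans (hHle [] 0)
    obtain ⟨Ed, hEd⟩ : ∃ Ed : ℝ, Ed = D.Kc * ce D.ec * (((d : ℝ) + 1) ^ D.ec *
      (1 / (2 * (r : ℝ) + 1)) ^ m) := ⟨_, rfl⟩
    have hKc : 0 ≤ D.Kc := zero_le_one.trans (one_le_Kc D)
    have hce : 0 ≤ ce D.ec := le_trans zero_le_one (ce_pos _)
    have hρ : 0 ≤ (1 / (2 * (r : ℝ) + 1)) ^ m := by positivity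
    have hEd0 : 0 ≤ Ed := by
      rw [hEd]
      positivity
    have hAG : ∀ u ∈ D.Ws, |D.A (r * n) u (j : ℕ) - (G u).eval ((j : ℕ) : ℝ)| ≤ Ed := by
      intro u hu
      refine ((hG u hu).2 (j : ℕ) (hnode j)).trans ?_
      rw [hEd]
      have hmd : (m : ℝ) ≤ d := by
        have : m ≤ d := by omega
        exact_mod_cast this
      have h4 : ((m : ℝ) + 1) ^ D.ec ≤ ((d : ℝ) + 1) ^ D.ec :=
        pow_le_pow_left₀ (by positivity) (by linarith) _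
      calc D.Kc * ce D.ec * ((m : ℝ) + 1) ^ D.ec * (1 / (2 * (r : ℝ) + 1)) ^ m
          = (D.Kc * ce D.ec) * (((m : ℝ) + 1) ^ D.ec * (1 / (2 * (r : ℝ) + 1)) ^ m) := by ring
        _ ≤ (D.Kc * ce D.ec) * (((d : ℝ) + 1) ^ D.ec * (1 / (2 * (r : ℝ) + 1)) ^ m) :=
            mul_le_mul_of_nonneg_left (mul_le_mul_of_nonneg_right h4 hρ) (by positivity)
    have hC0 : (0 : ℝ) ≤ ((j : ℕ).choose i : ℝ) := Nat.cast_nonneg _
    have hterm : ∀ f ∈ D.Fs.erase ([], 0), |D.vv f.2 / D.vv 0 * (D.H (r * n) f.1 f.2 (j : ℕ) *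
        (((j : ℕ).choose i : ℝ) * (D.A (r * n) f.1 (j : ℕ) - (G f.1).eval ((j : ℕ) : ℝ))))| ≤
        |D.vv f.2 / D.vv 0| * (Bw * (((j : ℕ).choose i : ℝ) * Ed)) := by
      intro f hf
      have hf1 : f.1 ∈ D.Ws := (mem_product.1 (show f ∈ D.Ws ×ˢ univ from Finset.mem_of_mem_erase hf)).1
      rw [abs_mul, abs_mul (D.H (r * n) f.1 f.2 (j : ℕ)), abs_mul, Nat.abs_cast]
      refine mul_le_mul_of_nonneg_left ?_ (abs_nonneg _)
      exact mul_le_mul (hHle f.1 f.2) (mul_le_mul_of_nonneg_left (hAG f.1 hf1) hC0)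
        (by positivity) hBw0
    show |- ∑ f ∈ D.Fs.erase ([], 0), D.vv f.2 / D.vv 0 * (D.H (r * n) f.1 f.2 (j : ℕ) *
      (((j : ℕ).choose i : ℝ) * (D.A (r * n) f.1 (j : ℕ) - (G f.1).eval ((j : ℕ) : ℝ))))| ≤ _
    rw [abs_neg]
    refine (Finset.abs_sum_le_sum_abs _ _).trans ((Finset.sum_le_sum hterm).trans ?_)
    have hX : 0 ≤ Bw * (((j : ℕ).choose i : ℝ) * Ed) := by positivity
    rw [← Finset.sum_mul]
    have hsum : ∑ f ∈ D.Fs.erase ([], 0), |D.vv f.2 / D.vv 0| ≤ (D.Ws.card : ℝ) * D.Vm := by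
      refine (Finset.sum_le_sum_of_subset_of_nonneg (Finset.erase_subset _ _)
        (fun _ _ _ => abs_nonneg _)).trans ?_
      unfold MDat.Fs
      rw [Finset.sum_product]
      show ∑ _x ∈ D.Ws, ∑ δ, |D.vv δ / D.vv 0| ≤ _
      rw [Finset.sum_const, nsmul_eq_mul]
      exact le_of_eq rfl
    refine (mul_le_mul_of_nonneg_right hsum hX).trans (le_of_eq ?_)
    rw [hEd, hBw, hm]
    ring

end CM68
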