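import Pool.Agent.LibCM68.CORE
import Pool.Agent.LibCM3.CORE3
import Pool.Agent.LibMH.R5
import Pool.Agent.LibMH.R6
import Pool.Agent.LibMH.R8
import Pool.Agent.LibMH.R12

/-!
# The contradiction (assembly, helper5)
-/

namespace CM68

open Finset Polynomial

/-- the inequality for one `n` -/
theorem core4_n (D : MDat) {δ k r Q₁ Q₂ n D₀ : ℕ} {B : ℝ}
    (hA : Adm2 D.q (D.Fs.erase ([], 0)).card D.w D.c0 D.I.card δ k r Q₁ Q₂) (hD₀ : 1 ≤ D₀)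
    (hco : ∀ u ∈ D.Ws, ∀ δ, ∀ x < D.q, ∃ m : ℤ, (D₀ : ℚ) * D.co u δ x = m)
    (hB1 : 1 ≤ B)
    (hB : ∀ δ, ∀ x < D.q, ∑ u ∈ D.Ws, |(D.co u δ x : ℝ)| ≤ B)
    (hn : D.c0 * (D.w * D.c0) + D.I.card * D.c0 + 1 ≤ n) :
    1 ≤ ((D₀ : ℝ) * (⌊Wb D.q n (r * n) D.w⌋₊ : ℕ)) ^
        (Fintype.card (D.RA4 (δ * n)) + Fintype.card (Fin (k * n))) *
      (Fintype.card (D.RA4 (δ * n)) + Fintype.card (Fin (k * n))).factorial *
      (∏ a, UA4 D (δ * n) Q₁ (B * (win n (r * n) : ℝ) ^ D.w) a) *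
      ∏ p : Fin (k * n), EB2 r (δ * n) (k * n) Q₂ D.ec
        (D.Ws.card * D.Vm * (B * (win n (r * n) : ℝ) ^ D.w) * (D.Kc * ce D.ec)) p := by
  classical
  obtain ⟨hk, hr, hδ, hQ₁, hQ₂, hZE, -⟩ := hA
  have hn1 : 1 ≤ n := by omega
  have hq2 := D.hq
  set d := δ * n with hd
  set κ := k * n with hκ
  have hκd : κ < d := Nat.mul_lt_mul_of_pos_right hδ hn1
  have hκ1 : 1 ≤ κ := Nat.mul_pos hk hn1
  have hdeg : D.c0 * (d + D.w * D.c0) + D.I.card * D.c0 < D.I.card * n := by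
    have h1 : (D.c0 * (δ + D.w * (2 * r + 2)) + 1) * n ≤ D.I.card * n :=
      Nat.mul_le_mul_right n hZE
    have h2 : (D.c0 * (δ + D.w * (2 * r + 2)) + 1) * n =
        D.c0 * (d + D.w * (2 * r + 2) * n) + n := by
      rw [hd]
      ring
    have h3 : D.c0 * (d + D.w * D.c0) = D.c0 * d + D.c0 * (D.w * D.c0) := by ring
    have h4 : D.c0 * d ≤ D.c0 * (d + D.w * (2 * r + 2) * n) :=
      Nat.mul_le_mul_left _ (Nat.le_add_right _ _)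
    omega
  have hQ1 : D.q * n ≤ Q₁ * d := by
    rw [hd, ← mul_assoc]
    exact Nat.mul_le_mul_right n hQ₁
  have hQ2 : D.q * n ≤ Q₂ * κ := by
    rw [hκ, ← mul_assoc]
    exact Nat.mul_le_mul_right n hQ₂
  have hQ11 : 1 ≤ Q₁ := by
    rcases Nat.eq_zero_or_pos Q₁ with h0 | h0
    · rw [h0] at hQ₁
      omega
    · exact h0
  have hjn : ∀ j ∈ D.Nd n, j ≤ D.q * n := fun j hj => by
    unfold MDat.Nd P at hj
    exact (mem_range.1 (mem_filter.1 hj).1).le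
  obtain ⟨hWb1, -⟩ := C3_Wb (n := n) (T := r * n) (w := D.w) hq2
  have hwin1 : (1 : ℝ) ≤ (win n (r * n) : ℝ) := by
    have : 1 ≤ win n (r * n) := by unfold win; omega
    exact_mod_cast this
  have hBw1 : 1 ≤ B * (win n (r * n) : ℝ) ^ D.w :=
    one_le_mul_of_one_le_of_one_le hB1 (one_le_pow₀ hwin1)
  have hsm := fun p : Fin κ => rows_small4 D (n := n) (r := r) (d := d) (i := p) hn1 hr
    (p.2.trans hκd) hB
  choose v' hv'1 hv'2 using hsm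
  have hint : ∀ u, ∀ δ', ∀ i : ℕ, ∀ j ∈ D.Nd n, ∃ z : ℤ,
      (D₀ : ℝ) * (D.wt n (r * n) j : ℕ) * (D.H (r * n) u δ' j * (j.choose i : ℝ)) = z := by
    intro u δ' i j hjm
    obtain ⟨z, hz⟩ := H_int4 D (T := r * n) hco u δ' hjm
    refine ⟨z * (j.choose i : ℕ), ?_⟩
    push_cast
    rw [← hz]
    ring
  refine det_ineq (J := D.Nd n) (fun (a : D.RA4 d) (j : D.Nd n) => D.rowA (r * n) d a j)
    (fun (p : Fin κ) (j : D.Nd n) => D.rowB (r * n) p j) v'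
    (fun j => D.wt n (r * n) (j : ℕ)) ?_ ?_ ?_ ?_ hD₀ ?_ ?_ ?_ ?_ ?_ ?_
  · intro c hc
    exact rows_ind4 D hκ1 hκd.le hdeg c hc
  · exact hv'1
  · rintro a ⟨j, hjm⟩
    exact hint _ _ _ j hjm
  · rintro p ⟨j, hjm⟩
    exact hint [] 0 _ j hjm
  · exact Nat.le_floor (by exact_mod_cast hWb1)
  · rintro ⟨j, hjm⟩
    exact wt_pos4 D hjm
  · rintro ⟨j, hjm⟩
    exact Nat.le_floor (wt_le4 D hjm)
  · rintro a ⟨j, hjm⟩
    show |D.H (r * n) a.1.1.1 a.1.1.2 j * (j.choose a.2 : ℝ)| ≤ _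
    rw [abs_mul, Nat.abs_cast]
    unfold UA4
    refine mul_le_mul (H_le4 D hB hjm _ _)
      (ch_le ((hjn j hjm).trans hQ1)) (Nat.cast_nonneg _) (by linarith)
  · intro a
    exact UA4_one D hQ11 hBw1 a
  · rintro p ⟨j, hjm⟩
    refine (hv'2 p ⟨j, hjm⟩).trans ?_
    unfold EB2
    refine mul_le_mul_of_nonneg_left (ch_le ((hjn j hjm).trans hQ2)) ?_
    have hVm := Vm_one4 D
    have hce := ce_pos D.ec
    have hKc : 0 ≤ D.Kc := zero_le_one.trans (one_le_Kc D)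
    have h5 : (0 : ℝ) ≤ D.Vm := by linarith
    have h6 : (0 : ℝ) ≤ ce D.ec := by linarith
    have h7 : (0 : ℝ) ≤ B * (win n (r * n) : ℝ) ^ D.w := by linarith
    positivity

theorem core4 (D : MDat) {δ k r Q₁ Q₂ : ℕ}
    (hA : Adm2 D.q (D.Fs.erase ([], 0)).card D.w D.c0 D.I.card δ k r Q₁ Q₂) : False := by
  classical
  obtain ⟨hk, hr, hδ, hQ₁, hQ₂, hZE, hIN⟩ := id hA
  have hq2 := D.hq
  have hQ11 : 1 ≤ Q₁ := by
    rcases Nat.eq_zero_or_pos Q₁ with h0 | h0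
    · rw [h0] at hQ₁
      omega
    · exact h0
  have hQ21 : 1 ≤ Q₂ := by
    rcases Nat.eq_zero_or_pos Q₂ with h0 | h0
    · rw [h0] at hQ₂
      omega
    · exact h0
  -- the denominator and the bound
  obtain ⟨D₀, hD₀, hden⟩ := exists_den
    (D.Ws ×ˢ ((univ : Finset (Fin (D.DD + 1))) ×ˢ range D.q)) (fun t => D.co t.1 t.2.1 t.2.2)
  have hco : ∀ μ ∈ D.Ws, ∀ δ, ∀ x < D.q, ∃ m : ℤ, (D₀ : ℚ) * D.co μ δ x = m := fun μ hμ δ' x hx =>
    hden (μ, δ', x) (mem_product.2 ⟨hμ, mem_product.2 ⟨mem_univ _, mem_range.2 hx⟩⟩)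
  obtain ⟨B, hB1, hB⟩ : ∃ B : ℝ, 1 ≤ B ∧
      ∀ δ, ∀ x < D.q, ∑ μ ∈ D.Ws, |(D.co μ δ x : ℝ)| ≤ B := by
    have hnn : ∀ δ' : Fin (D.DD + 1), ∀ x : ℕ, 0 ≤ ∑ μ ∈ D.Ws, |(D.co μ δ' x : ℝ)| :=
      fun δ' x => sum_nonneg fun μ _ => abs_nonneg _
    refine ⟨1 + ∑ t ∈ (univ : Finset (Fin (D.DD + 1))) ×ˢ range D.q,
      ∑ μ ∈ D.Ws, |(D.co μ t.1 t.2 : ℝ)|, ?_, ?_⟩
    · have : 0 ≤ ∑ t ∈ (univ : Finset (Fin (D.DD + 1))) ×ˢ range D.q,
          ∑ μ ∈ D.Ws, |(D.co μ t.1 t.2 : ℝ)| := sum_nonneg fun t _ => hnn _ _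
      linarith
    · intro δ' x hx
      have h1 := single_le_sum (f := fun t : Fin (D.DD + 1) × ℕ =>
        ∑ μ ∈ D.Ws, |(D.co μ t.1 t.2 : ℝ)|) (fun t _ => hnn _ _)
        (mem_product.2 ⟨mem_univ δ', mem_range.2 hx⟩ :
          (δ', x) ∈ (univ : Finset (Fin (D.DD + 1))) ×ˢ range D.q)
      have h2 : ∑ μ ∈ D.Ws, |(D.co μ δ' x : ℝ)| ≤ _ := h1
      linarith
  -- the constants
  have hq1 : (1 : ℝ) ≤ D.q := by exact_mod_cast (by omega : 1 ≤ D.q)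
  have hlogq : 0 ≤ Real.log D.q := Real.log_nonneg hq1
  have hδ0 : (0 : ℝ) < δ := by exact_mod_cast (by omega : 0 < δ)
  obtain ⟨F, hF⟩ : ∃ F : ℕ, F = (D.Fs.erase ([], 0)).card := ⟨_, rfl⟩
  obtain ⟨w, hw⟩ : ∃ w : ℕ, w = D.w := ⟨_, rfl⟩
  obtain ⟨g, hg⟩ : ∃ g : ℕ, g = w * (2 * r + 2) := ⟨_, rfl⟩
  obtain ⟨ρ, hρ⟩ : ∃ ρ : ℕ, ρ = F * δ + k := ⟨_, rfl⟩
  have hρ1 : 1 ≤ ρ := by omega
  have hgR : (g : ℝ) = w * (2 * r + 2) := by rw [hg]; push_cast; ring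
  have hρR : (ρ : ℝ) = F * δ + k := by rw [hρ]; push_cast; ring
  rw [← hF, ← hw, ← hgR, ← hρR] at hIN
  obtain ⟨E, hE⟩ : ∃ E : ℝ, E = ((2 * (δ : ℝ) * k - (k : ℝ) ^ 2) * Real.log (2 * r + 1) -
      (F * (δ : ℝ) ^ 2 * (Real.log Q₁ + 2) + (k : ℝ) ^ 2 * (Real.log Q₂ + 2) +
      26 * (ρ : ℝ) * g * Real.log D.q)) / 2 := ⟨_, rfl⟩
  have hE0 : 0 < E := by
    rw [hE]
    linarith
  have hVm := Vm_one4 D
  have hce := ce_pos D.ec
  have hKc : (1 : ℝ) ≤ D.Kc := one_le_Kc D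
  have hMs1 : (1 : ℝ) ≤ D.Ws.card := by exact_mod_cast card_pos.2 ⟨_, D.hnil⟩
  obtain ⟨M₁, hM₁⟩ : ∃ M₁ : ℝ, M₁ = D.Ws.card * D.Vm * B * (D.Kc * ce D.ec) := ⟨_, rfl⟩
  have hM11 : 1 ≤ M₁ := by
    rw [hM₁]
    exact one_le_mul_of_one_le_of_one_le (one_le_mul_of_one_le_of_one_le
      (one_le_mul_of_one_le_of_one_le hMs1 hVm) hB1) (one_le_mul_of_one_le_of_one_le hKc hce)
  refine lim_contra (E := E) (a := ρ * Real.log D₀ + F * δ * Real.log B + k * Real.log M₁) (R₁ := ρ)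
      (c := F * δ * D.w + k * (D.w + D.ec)) (δ := δ + 2 * r + 2) hE0
    (by exact_mod_cast hρ1) (by positivity)
    (D.c0 * (D.w * D.c0) + D.I.card * D.c0 + 1) ?_
  intro n hn
  have hn1 : 1 ≤ n := by omega
  have h := core4_n D hA hD₀ hco hB1 hB hn
  have hcard : Fintype.card (D.RA4 (δ * n)) + Fintype.card (Fin (k * n)) = ρ * n := by
    simp only [Fintype.card_prod, Fintype.card_fin, Fintype.card_coe]
    rw [hρ, hF]
    ring
  rw [hcard] at h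
  have hwin1 : (1 : ℝ) ≤ (win n (r * n) : ℝ) := by
    have : 1 ≤ win n (r * n) := by unfold win; omega
    exact_mod_cast this
  obtain ⟨X, hX⟩ : ∃ X : ℝ, X = (win n (r * n) : ℝ) := ⟨_, rfl⟩
  rw [← hX] at h hwin1
  have hXg : (1 : ℝ) ≤ X ^ D.w := one_le_pow₀ hwin1
  have hBw1 : 1 ≤ B * X ^ D.w := one_le_mul_of_one_le_of_one_le hB1 hXg
  have hMw : D.Ws.card * D.Vm * (B * X ^ D.w) * (D.Kc * ce D.ec) = M₁ * X ^ D.w := by
    rw [hM₁]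
    ring
  rw [hMw] at h
  have hMw1 : 1 ≤ M₁ * X ^ D.w := one_le_mul_of_one_le_of_one_le hM11 hXg
  have hUpos : 0 < ∏ a, UA4 D (δ * n) Q₁ (B * X ^ D.w) a :=
    prod_pos fun a _ => zero_lt_one.trans_le (UA4_one D hQ11 hBw1 a)
  have hEpos : 0 < ∏ p : Fin (k * n), EB2 r (δ * n) (k * n) Q₂ D.ec (M₁ * X ^ D.w) p :=
    prod_pos fun p _ => EB2_pos hQ21 hMw1 p
  have hUlog := UA4_prod D (d := δ * n) (Bw := B * X ^ D.w) hQ11 hBw1
  have hElog := EB2_prod (r := r) (d := δ * n) (K := k * n) (Q₂ := Q₂) (ec := D.ec)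
    (Mw := M₁ * X ^ D.w) hQ21 hMw1 (Nat.mul_le_mul_right n hδ.le)
  obtain ⟨Up, hUp⟩ : ∃ Up, Up = ∏ a, UA4 D (δ * n) Q₁ (B * X ^ D.w) a := ⟨_, rfl⟩
  obtain ⟨Ep, hEp⟩ : ∃ Ep, Ep = ∏ p : Fin (k * n),
      EB2 r (δ * n) (k * n) Q₂ D.ec (M₁ * X ^ D.w) p := ⟨_, rfl⟩
  rw [← hUp] at h hUpos hUlog
  rw [← hEp] at h hEpos hElog
  obtain ⟨R, hR⟩ : ∃ R, R = ρ * n := ⟨_, rfl⟩
  rw [← hR] at h
  have hR1 : 1 ≤ R := by
    rw [hR]
    exact Nat.mul_pos hρ1 hn1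
  have hD0 : (0 : ℝ) < D₀ := by exact_mod_cast hD₀
  obtain ⟨hWb1, hWblog⟩ := C3_Wb (n := n) (T := r * n) (w := D.w) hq2
  obtain ⟨W, hW⟩ : ∃ W : ℕ, W = ⌊Wb D.q n (r * n) (D.w)⌋₊ := ⟨_, rfl⟩
  rw [← hW] at h
  have hW1 : 1 ≤ W := by
    rw [hW]
    exact Nat.le_floor (by exact_mod_cast hWb1)
  have hW0 : (0 : ℝ) < W := by exact_mod_cast hW1
  have hWle : (W : ℝ) ≤ Wb D.q n (r * n) (D.w) := by
    rw [hW]
    exact Nat.floor_le (by linarith)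
  have hlog := Real.log_nonneg h
  rw [Real.log_mul (by positivity) hEpos.ne', Real.log_mul (by positivity) hUpos.ne',
    Real.log_mul (by positivity) (by positivity), Real.log_pow,
    Real.log_mul hD0.ne' hW0.ne'] at hlog
  have hfac : Real.log ((R.factorial : ℕ) : ℝ) ≤ R * Real.log R := by
    rw [← Real.log_pow]
    refine Real.log_le_log (by exact_mod_cast R.factorial_pos) ?_
    exact_mod_cast R.factorial_le_pow
  have hRn : (R : ℝ) = ρ * n := by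
    rw [hR]
    push_cast
    ring
  have hn0 : (0 : ℝ) ≤ n := Nat.cast_nonneg n
  have hn1R : (1 : ℝ) ≤ n := by exact_mod_cast hn1
  have hr0 : (0 : ℝ) ≤ r := Nat.cast_nonneg r
  have hk0 : (0 : ℝ) ≤ k := Nat.cast_nonneg k
  have hF0 : (0 : ℝ) ≤ F := Nat.cast_nonneg F
  -- the window
  have hXle : X ≤ (2 * r + 2) * n := by
    rw [hX]
    unfold win
    push_cast
    have e1 : (2 * (r : ℝ) + 2) * n = 2 * (r * n) + 2 * n := by ring
    rw [e1]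
    linarith only [hn1R]
  have hwX : (w : ℝ) * X ≤ g * n := by
    rw [hgR, mul_assoc]
    exact mul_le_mul_of_nonneg_left hXle (Nat.cast_nonneg w)
  have hlogW : Real.log W ≤ 13 * (g * n) * Real.log D.q := by
    refine (Real.log_le_log hW0 hWle).trans (hWblog.trans ?_)
    rw [← hX, ← hw]
    have h1 := mul_le_mul_of_nonneg_right hwX hlogq
    have e1 : 13 * ((w : ℝ) * X) * Real.log D.q = 13 * ((w : ℝ) * X * Real.log D.q) := by ring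
    have e2 : 13 * ((g : ℝ) * n) * Real.log D.q = 13 * ((g : ℝ) * n * Real.log D.q) := by ring
    rw [e1, e2]
    linarith only [h1]
  obtain ⟨Λ, hΛ⟩ : ∃ Λ : ℝ, Λ = Real.log (200 * (((δ : ℝ) + 2 * r + 2) * n + 2) ^ 2) := ⟨_, rfl⟩
  have hbig : ∀ Y : ℝ, 1 ≤ Y → Y ≤ ((δ : ℝ) + 2 * r + 2) * n + 2 → Real.log Y ≤ Λ := by
    intro Y hY1 hY
    rw [hΛ]
    refine Real.log_le_log (by linarith) (hY.trans ?_)
    have h2 : (1 : ℝ) ≤ ((δ : ℝ) + 2 * r + 2) * n + 2 := hY1.trans hY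
    have h3 : (((δ : ℝ) + 2 * r + 2) * n + 2) * 1 ≤ (((δ : ℝ) + 2 * r + 2) * n + 2) *
        (((δ : ℝ) + 2 * r + 2) * n + 2) := mul_le_mul_of_nonneg_left h2 (zero_le_one.trans h2)
    rw [sq]
    linarith only [h2, h3]
  have hlogX : Real.log X ≤ Λ := by
    refine hbig X hwin1 (hXle.trans ?_)
    have h1 : 0 ≤ (δ : ℝ) * n := by positivity
    have e1 : ((δ : ℝ) + 2 * r + 2) * n + 2 = δ * n + (2 * r + 2) * n + 2 := by ring
    rw [e1]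
    linarith only [h1]
  have hlogd : Real.log (((δ * n : ℕ) : ℝ) + 1) ≤ Λ := by
    refine hbig _ ?_ ?_
    · have : (0 : ℝ) ≤ ((δ * n : ℕ) : ℝ) := Nat.cast_nonneg _
      linarith
    · push_cast
      have h1 : 0 ≤ (2 * (r : ℝ) + 2) * n := by positivity
      have e1 : ((δ : ℝ) + 2 * r + 2) * n + 2 = δ * n + (2 * r + 2) * n + 2 := by ring
      rw [e1]
      linarith only [h1]
  have e1 : Real.log (B * X ^ D.w) = Real.log B + D.w * Real.log X := by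
    rw [Real.log_mul (by linarith) (by positivity), Real.log_pow]
  have e2 : Real.log (M₁ * X ^ D.w) = Real.log M₁ + D.w * Real.log X := by
    rw [Real.log_mul (by linarith) (by positivity), Real.log_pow]
  rw [e1, ← hF] at hUlog
  rw [e2] at hElog
  push_cast at hUlog hElog hlogd
  rw [hRn] at hlog hfac
  -- termwise bounds
  have t1 : (ρ : ℝ) * n * Real.log W ≤ 13 * ρ * g * Real.log D.q * (n : ℝ) ^ 2 := by
    have := mul_le_mul_of_nonneg_left hlogW (by positivity : 0 ≤ (ρ : ℝ) * n)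
    calc (ρ : ℝ) * n * Real.log W ≤ (ρ : ℝ) * n * (13 * (g * n) * Real.log D.q) := this
      _ = _ := by ring
  have t2 : (F : ℝ) * (δ * n) * (D.w * Real.log X) ≤ F * δ * D.w * n * Λ := by
    have h1 : (0 : ℝ) ≤ F * (δ * n) * D.w := by positivity
    have h2 := mul_le_mul_of_nonneg_left hlogX h1
    calc (F : ℝ) * (δ * n) * (D.w * Real.log X) = F * (δ * n) * D.w * Real.log X := by ring
      _ ≤ F * (δ * n) * D.w * Λ := h2
      _ = _ := by ring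
  have t3 : (k : ℝ) * n * (D.w * Real.log X) ≤ k * D.w * n * Λ := by
    have h1 : (0 : ℝ) ≤ k * n * D.w := by positivity
    have h2 := mul_le_mul_of_nonneg_left hlogX h1
    calc (k : ℝ) * n * (D.w * Real.log X) = k * n * D.w * Real.log X := by ring
      _ ≤ k * n * D.w * Λ := h2
      _ = _ := by ring
  have t4 : (k : ℝ) * n * (D.ec * Real.log ((δ : ℝ) * n + 1)) ≤ k * D.ec * n * Λ := by
    have h1 : (0 : ℝ) ≤ k * n * D.ec := by positivity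
    have h2 := mul_le_mul_of_nonneg_left hlogd h1
    calc (k : ℝ) * n * (D.ec * Real.log ((δ : ℝ) * n + 1)) =
        k * n * D.ec * Real.log ((δ : ℝ) * n + 1) := by ring
      _ ≤ k * n * D.ec * Λ := h2
      _ = _ := by ring
  rw [hE, ← hΛ]
  linarith only [hlog, hfac, hUlog, hElog, t1, t2, t3, t4]

end CM68
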