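import Pool.Agent.LibMH.Stmt

/-!
# Row WMW: the words of weight at most `M` (SHORT/MEDIUM, ONLY MATHLIB)

Compositions: `F : ℕ → Finset (List ℕ)` with `F 0 = {[]}`, `F (m + 1) = (F m).image (1 :: ·) ∪ (F m).image inc`, `inc [] = []`, `inc (k :: v) = (k + 1) :: v`
(erase `[]` if convenient): the lists of positive numbers with sum `m + 1`; `(F (m + 1)).card ≤ 2 (F m).card`, `(F 1) = {[1]}`, so `(F m).card ≤ 2^(m-1)` for `m ≥ 1`.
The admissible words of weight `m + 1 ≥ 2` are the images of `F m`, `m ≥ 1`, under `inc`: at most `2^(m - 1)`; with `[]`: `1 + ∑_{m=1}^{M-1} 2^(m-1) = 2^(M-1)`.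
`indepV_mono`: extend the coefficients by `0`.
-/

namespace Pool.MH.Stmt

open Finset

/-- increase the first letter -/
private def WMW_inc : List ℕ → List ℕ
  | [] => []
  | k :: v => (k + 1) :: v

/-- the words with positive letters and given sum -/
private def WMW_F : ℕ → Finset (List ℕ)
  | 0 => {[]}
  | m + 1 => ((WMW_F m).image (fun v => 1 :: v) ∪ (WMW_F m).image WMW_inc).erase []

private theorem WMW_mem (m : ℕ) : ∀ w, w ∈ WMW_F m ↔ (∀ k ∈ w, 1 ≤ k) ∧ w.sum = m := by
  induction m with
  | zero =>
    intro w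
    rw [WMW_F, Finset.mem_singleton]
    constructor
    · rintro rfl
      simp
    · rintro ⟨h1, h2⟩
      rcases w with _ | ⟨k, v⟩
      · rfl
      · have := h1 k (by simp)
        rw [List.sum_cons] at h2
        omega
  | succ m ih =>
    intro w
    rw [WMW_F, Finset.mem_erase, Finset.mem_union, Finset.mem_image, Finset.mem_image]
    constructor
    · rintro ⟨h0, ⟨v, hv, rfl⟩ | ⟨v, hv, rfl⟩⟩
      · obtain ⟨h1, h2⟩ := (ih v).1 hv
        refine ⟨?_, ?_⟩
        · intro k hk
          rcases List.mem_cons.1 hk with rfl | hk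
          · exact le_rfl
          · exact h1 k hk
        · rw [List.sum_cons, h2]
          omega
      · obtain ⟨h1, h2⟩ := (ih v).1 hv
        rcases v with _ | ⟨k, v⟩
        · exact absurd rfl h0
        · refine ⟨?_, ?_⟩
          · intro l hl
            rcases List.mem_cons.1 hl with rfl | hl
            · omega
            · exact h1 l (List.mem_cons_of_mem _ hl)
          · rw [List.sum_cons] at h2
            change ((k + 1) :: v).sum = m + 1
            rw [List.sum_cons]
            omega
    · rintro ⟨h1, h2⟩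
      rcases w with _ | ⟨k, v⟩
      · simp at h2
      · refine ⟨by simp, ?_⟩
        rw [List.sum_cons] at h2
        have hk := h1 k (by simp)
        have hv : ∀ l ∈ v, 1 ≤ l := fun l hl => h1 l (List.mem_cons_of_mem _ hl)
        rcases Nat.lt_or_ge 1 k with h3 | h3
        · right
          refine ⟨(k - 1) :: v, (ih _).2 ⟨?_, ?_⟩, ?_⟩
          · intro l hl
            rcases List.mem_cons.1 hl with rfl | hl
            · omega
            · exact hv l hl
          · rw [List.sum_cons]
            omega
          · change (k - 1 + 1) :: v = k :: v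
            rw [Nat.sub_add_cancel hk]
        · left
          refine ⟨v, (ih _).2 ⟨hv, by omega⟩, ?_⟩
          rw [show k = 1 by omega]

private theorem WMW_card (m : ℕ) : (WMW_F (m + 1)).card ≤ 2 ^ m := by
  induction m with
  | zero =>
    have h : WMW_F (0 + 1) ⊆ {[1]} := by
      intro w hw
      rw [WMW_mem] at hw
      obtain ⟨h1, h2⟩ := hw
      rw [Finset.mem_singleton]
      rcases w with _ | ⟨k, _ | ⟨l, v⟩⟩
      · simp at h2
      · simp at h2
        rw [h2]
      · have a1 := h1 k (by simp)
        have a2 := h1 l (by simp)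
        rw [List.sum_cons, List.sum_cons] at h2
        omega
    exact (Finset.card_le_card h).trans (by simp)
  | succ m ih =>
    rw [WMW_F]
    refine (Finset.card_le_card (Finset.erase_subset _ _)).trans ((Finset.card_union_le _ _).trans ?_)
    have h1 := Finset.card_image_le (s := WMW_F (m + 1)) (f := fun v => 1 :: v)
    have h2 := Finset.card_image_le (s := WMW_F (m + 1)) (f := WMW_inc)
    rw [pow_succ]
    omega

private theorem WMW_adm (M : ℕ) (hM : 1 ≤ M) (w : List ℕ) :
    w ∈ (WMW_F M).image WMW_inc ↔ Admissible w ∧ w.sum = M + 1 := by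
  rw [Finset.mem_image]
  constructor
  · rintro ⟨u, hu, rfl⟩
    obtain ⟨h1, h2⟩ := (WMW_mem M u).1 hu
    rcases u with _ | ⟨k, v⟩
    · simp at h2
      omega
    · have hk := h1 k (by simp)
      rw [List.sum_cons] at h2
      change Admissible ((k + 1) :: v) ∧ ((k + 1) :: v).sum = M + 1
      refine ⟨⟨?_, ?_⟩, ?_⟩
      · intro l hl
        rcases List.mem_cons.1 hl with rfl | hl
        · omega
        · exact h1 l (List.mem_cons_of_mem _ hl)
      · intro l hl
        rw [List.head?_cons, Option.mem_some_iff] at hl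
        omega
      · rw [List.sum_cons]
        omega
  · rintro ⟨⟨h1, h2⟩, h3⟩
    rcases w with _ | ⟨k, v⟩
    · simp at h3
    · have hk := h2 k (by simp)
      rw [List.sum_cons] at h3
      refine ⟨(k - 1) :: v, (WMW_mem M _).2 ⟨?_, ?_⟩, ?_⟩
      · intro l hl
        rcases List.mem_cons.1 hl with rfl | hl
        · omega
        · exact h1 l (List.mem_cons_of_mem _ hl)
      · rw [List.sum_cons]
        omega
      · change (k - 1 + 1) :: v = k :: v
        rw [Nat.sub_add_cancel (by omega)]

theorem exists_allWords (M : ℕ) (hM : 1 ≤ M) :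
    ∃ W : Finset (List ℕ), (∀ w, w ∈ W ↔ Admissible w ∧ w.sum ≤ M) ∧ W.card ≤ 2 ^ (M - 1) := by
  induction M, hM using Nat.le_induction with
  | base =>
    refine ⟨{[]}, ?_, by simp⟩
    intro w
    rw [Finset.mem_singleton]
    constructor
    · rintro rfl
      refine ⟨⟨by simp, by simp⟩, by simp⟩
    · rintro ⟨⟨h1, h2⟩, h3⟩
      rcases w with _ | ⟨k, v⟩
      · rfl
      · have hk := h2 k (by simp)
        rw [List.sum_cons] at h3
        omega
  | succ M hM ih =>
    obtain ⟨W, hW, hc⟩ := ih
    refine ⟨W ∪ (WMW_F M).image WMW_inc, ?_, ?_⟩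
    · intro w
      rw [Finset.mem_union, hW, WMW_adm M hM]
      constructor
      · rintro (⟨h1, h2⟩ | ⟨h1, h2⟩)
        · exact ⟨h1, by omega⟩
        · exact ⟨h1, by omega⟩
      · rintro ⟨h1, h2⟩
        rcases Nat.lt_or_ge M w.sum with h3 | h3
        · exact Or.inr ⟨h1, by omega⟩
        · exact Or.inl ⟨h1, h3⟩
    · refine (Finset.card_union_le _ _).trans ?_
      have h1 := Finset.card_image_le (s := WMW_F M) (f := WMW_inc)
      have h2 := WMW_card (M - 1)
      rw [Nat.sub_add_cancel hM] at h2
      have h3 : 2 ^ (M + 1 - 1) = 2 ^ (M - 1) + 2 ^ (M - 1) := by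
        rw [show M + 1 - 1 = (M - 1) + 1 by omega, pow_succ]
        omega
      rw [h3]
      omega

theorem indepV_mono {V V' : Submodule ℚ ℝ} {W W' : Finset (List ℕ)} {z : List ℕ → ℝ}
    (hV : V ≤ V') (hW : W ⊆ W') (h : IndepV V' W' z) : IndepV V W z := by
  classical
  intro c hc hsum w hw
  have h1 := h (fun w => if w ∈ W then c w else 0) ?_ ?_ w (hW hw)
  · simp only [if_pos hw] at h1
    exact h1
  · intro u _
    by_cases hu : u ∈ W
    · simp only [if_pos hu]
      exact hV (hc u hu)
    · simp only [if_neg hu]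
      exact V'.zero_mem
  · have h2 : ∑ u ∈ W, (if u ∈ W then c u else 0) * z u = ∑ u ∈ W', (if u ∈ W then c u else 0) * z u :=
      Finset.sum_subset hW fun u _ hu => by rw [if_neg hu, zero_mul]
    refine h2.symm.trans (Eq.trans ?_ hsum)
    refine Finset.sum_congr rfl fun u hu => ?_
    rw [if_pos hu]

theorem admissible_prefix {u v : List ℕ} (h : Admissible (u ++ v)) : Admissible u := by
  refine ⟨fun k hk => h.1 k (List.mem_append_left _ hk), fun k hk => ?_⟩
  rcases u with _ | ⟨a, u⟩
  · simp at hk
  · exact h.2 k (by simpa using hk)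

end Pool.MH.Stmt
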