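import Pool.Agent.LibMH.Stmt
import Pool.Agent.LibHB89.Stmt
import Pool.Agent.LibMH.WMW

namespace Pool.MH.Stmt

open Finset

/-- the rational space spanned by the multiple zeta values of weight at most `M` -/
noncomputable def MZ (M : ℕ) : Submodule ℚ ℝ :=
  Submodule.span ℚ {x : ℝ | ∃ v : List ℕ, Admissible v ∧ v.sum ≤ M ∧ x = Pool.HB89.Stmt.zetaW v}

theorem MZ_finite (M : ℕ) (hM : 1 ≤ M) :
    Module.Finite ℚ (MZ M) ∧ Module.finrank ℚ (MZ M) ≤ 2 ^ (M - 1) := by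
  classical
  obtain ⟨W, hW, hcard⟩ := exists_allWords M hM
  have h1 : {x : ℝ | ∃ v : List ℕ, Admissible v ∧ v.sum ≤ M ∧ x = Pool.HB89.Stmt.zetaW v} =
      ((W.image Pool.HB89.Stmt.zetaW : Finset ℝ) : Set ℝ) := by
    ext x
    simp only [Set.mem_setOf_eq, mem_coe, mem_image]
    constructor
    · rintro ⟨v, h1, h2, h3⟩
      exact ⟨v, (hW v).2 ⟨h1, h2⟩, h3.symm⟩
    · rintro ⟨v, h1, h2⟩
      exact ⟨v, ((hW v).1 h1).1, ((hW v).1 h1).2, h2.symm⟩
  unfold MZ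
  rw [h1]
  refine ⟨Module.Finite.span_of_finite ℚ (Finset.finite_toSet _), ?_⟩
  exact (finrank_span_finset_le_card _).trans (card_image_le.trans hcard)

end Pool.MH.Stmt
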