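import Pool.Agent.LibMH.CNTW
import Pool.Agent.LibMH.HTW
import Pool.Agent.LibMH.MZW
import Pool.Agent.LibMH.CORE4

/-!
# MH: the final forms (helper68)
-/

namespace Pool.MH.Stmt

open Finset CM68

/-- the constant -/
noncomputable def CW (w D N : ℕ) : ℝ :=
  500000 * ((w : ℝ) + 1) ^ 2 * (2 ^ D * (D : ℝ) ^ 4 * (N : ℝ) ^ 6)

theorem CW_nonneg (w D N : ℕ) : 0 ≤ CW w D N := by
  unfold CW
  positivity

theorem count_prefix {W : Finset (List ℕ)} {w D q : ℕ} (hne : W.Nonempty)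
    (hpre : ∀ u v : List ℕ, u ++ v ∈ W → u ∈ W) (hadm : ∀ u ∈ W, Admissible u ∧ u.sum ≤ w)
    (hq : 2 ≤ q) {V : Submodule ℚ ℝ} (hVf : Module.Finite ℚ V) (hVD : Module.finrank ℚ V ≤ D) :
    ({x : ℕ | 0 < x ∧ x < q ∧ ¬ IndepV V W fun u => zetaH u ((x : ℝ) / q)}.ncard : ℝ) ≤
      CW w D W.card * (q : ℝ) ^ (1 - 1 / ((D : ℝ) * W.card + 1)) := by
  obtain ⟨u, hu⟩ := hne
  exact hurwitz_count (fun D {_ _ _ _ _} hA => core4 D hA) (hpre [] u (by simpa using hu)) hpre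
    (fun u hu => (hadm u hu).1) (fun u hu => (hadm u hu).2) hq hVf hVD

/-- all admissible words of weight at most `M` -/
theorem count_all {W : Finset (List ℕ)} {M D q : ℕ} (hM : 1 ≤ M)
    (hadm : ∀ u ∈ W, Admissible u ∧ u.sum ≤ M)
    (hq : 2 ≤ q) {V : Submodule ℚ ℝ} (hVf : Module.Finite ℚ V) (hVD : Module.finrank ℚ V ≤ D) :
    ({x : ℕ | 0 < x ∧ x < q ∧ ¬ IndepV V W fun u => zetaH u ((x : ℝ) / q)}.ncard : ℝ) ≤
      CW M D (2 ^ (M - 1)) * (q : ℝ) ^ (1 - 1 / ((D : ℝ) * 2 ^ (M - 1) + 1)) := by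
  obtain ⟨W', hW', hcard⟩ := exists_allWords M hM
  have hsub : W ⊆ W' := fun u hu => (hW' u).2 (hadm u hu)
  have h1 := count_prefix (W := W') (w := M) (D := D) (q := q) (V := V)
    ⟨[], (hW' []).2 ⟨⟨by simp, by simp⟩, by simp⟩⟩
    (fun u v huv => (hW' u).2 ⟨admissible_prefix ((hW' _).1 huv).1, by
      have := ((hW' _).1 huv).2
      rw [List.sum_append] at this
      omega⟩)
    (fun u hu => (hW' u).1 hu) hq hVf hVD
  have hfin : {x : ℕ | 0 < x ∧ x < q ∧ ¬ IndepV V W' fun u => zetaH u ((x : ℝ) / q)}.Finite :=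
    (Set.finite_lt_nat q).subset fun x hx => hx.2.1
  have h2 : {x : ℕ | 0 < x ∧ x < q ∧ ¬ IndepV V W fun u => zetaH u ((x : ℝ) / q)}.ncard ≤
      {x : ℕ | 0 < x ∧ x < q ∧ ¬ IndepV V W' fun u => zetaH u ((x : ℝ) / q)}.ncard := by
    refine Set.ncard_le_ncard (fun x hx => ⟨hx.1, hx.2.1, fun h => hx.2.2 ?_⟩) hfin
    exact indepV_mono le_rfl hsub h
  have hq1 : (1 : ℝ) ≤ q := by exact_mod_cast (by omega : 1 ≤ q)
  have hcR : (W'.card : ℝ) ≤ 2 ^ (M - 1) := by exact_mod_cast hcard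
  have hc0 : (0 : ℝ) ≤ W'.card := Nat.cast_nonneg _
  have hD0 : (0 : ℝ) ≤ D := Nat.cast_nonneg _
  calc _ ≤ (({x : ℕ | 0 < x ∧ x < q ∧ ¬ IndepV V W' fun u => zetaH u ((x : ℝ) / q)}.ncard : ℕ) :
        ℝ) := by exact_mod_cast h2
    _ ≤ CW M D W'.card * (q : ℝ) ^ (1 - 1 / ((D : ℝ) * W'.card + 1)) := h1
    _ ≤ _ := by
        refine mul_le_mul ?_ ?_ (Real.rpow_nonneg (by linarith) _) (CW_nonneg _ _ _)
        · unfold CW
          refine mul_le_mul_of_nonneg_left (mul_le_mul_of_nonneg_left ?_ (by positivity))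
            (by positivity)
          push_cast
          exact pow_le_pow_left₀ hc0 hcR 6
        · refine Real.rpow_le_rpow_of_exponent_le hq1 ?_
          have h3 : (D : ℝ) * W'.card + 1 ≤ D * 2 ^ (M - 1) + 1 := by
            have := mul_le_mul_of_nonneg_left hcR hD0
            linarith
          have h4 : (0 : ℝ) < D * W'.card + 1 := by positivity
          have := one_div_le_one_div_of_le h4 h3
          linarith

/-- by height -/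
theorem height_all {W : Finset (List ℕ)} {M D H : ℕ} (hM : 1 ≤ M)
    (hadm : ∀ u ∈ W, Admissible u ∧ u.sum ≤ M)
    (hH : 1 ≤ H) {V : Submodule ℚ ℝ} (hVf : Module.Finite ℚ V) (hVD : Module.finrank ℚ V ≤ D) :
    ({y : ℚ | 0 < y ∧ y < 1 ∧ y.den ≤ H ∧ ¬ IndepV V W fun u => zetaH u (y : ℝ)}.ncard : ℝ) ≤
      CW M D (2 ^ (M - 1)) * (H : ℝ) ^ (2 - 1 / ((D : ℝ) * 2 ^ (M - 1) + 1)) := by
  have h1 := height_of_count (fun y => ¬ IndepV V W fun u => zetaH u y)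
    (C := CW M D (2 ^ (M - 1))) (θ := 1 - 1 / ((D : ℝ) * 2 ^ (M - 1) + 1)) (CW_nonneg _ _ _)
    (by
      have h4 : (1 : ℝ) ≤ D * 2 ^ (M - 1) + 1 := by
        have : (0 : ℝ) ≤ D * 2 ^ (M - 1) := by positivity
        linarith
      have := (div_le_one (by linarith)).2 h4
      linarith)
    (fun q hq => count_all hM hadm hq hVf hVD) H hH
  have h2 : (1 : ℝ) - 1 / ((D : ℝ) * 2 ^ (M - 1) + 1) + 1 = 2 - 1 / ((D : ℝ) * 2 ^ (M - 1) + 1) := by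
    ring
  rw [h2] at h1
  exact h1

/-- near every point -/
theorem near_all {W : Finset (List ℕ)} {M D q : ℕ} (hM : 1 ≤ M)
    (hadm : ∀ u ∈ W, Admissible u ∧ u.sum ≤ M) (hq : 2 ≤ q)
    {V : Submodule ℚ ℝ} (hVf : Module.Finite ℚ V) (hVD : Module.finrank ℚ V ≤ D)
    (hlarge : 2 * CW M D (2 ^ (M - 1)) + 12 ≤ (q : ℝ) ^ (1 / ((D : ℝ) * 2 ^ (M - 1) + 1)))
    {t : ℝ} (ht0 : 0 ≤ t) (ht1 : t ≤ 1) :
    ∃ x : ℕ, 0 < x ∧ x < q ∧
      |(x : ℝ) / q - t| ≤ (CW M D (2 ^ (M - 1)) + 3) / (q : ℝ) ^ (1 / ((D : ℝ) * 2 ^ (M - 1) + 1)) ∧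
      IndepV V W fun u => zetaH u ((x : ℝ) / q) := by
  obtain ⟨C, hC⟩ : ∃ C, C = CW M D (2 ^ (M - 1)) := ⟨_, rfl⟩
  obtain ⟨E, hE⟩ : ∃ E : ℝ, E = 1 / ((D : ℝ) * 2 ^ (M - 1) + 1) := ⟨_, rfl⟩
  have h1 := count_all hM hadm hq hVf hVD
  rw [← hC, ← hE] at hlarge ⊢
  rw [← hC, ← hE] at h1
  have hC0 : 0 ≤ C := by
    rw [hC]
    exact CW_nonneg _ _ _
  have hq0 : (0 : ℝ) < q := by exact_mod_cast (by omega : 0 < q)
  have hq1 : (1 : ℝ) ≤ q := by exact_mod_cast (by omega : 1 ≤ q)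
  have hqE : 0 < (q : ℝ) ^ E := Real.rpow_pos_of_pos hq0 _
  have hE1 : E ≤ 1 := by
    rw [hE]
    refine (div_le_one (by positivity)).2 ?_
    have : (0 : ℝ) ≤ D * 2 ^ (M - 1) := by positivity
    linarith
  have hsplit : (q : ℝ) ^ (1 - E) = q / (q : ℝ) ^ E := by
    rw [Real.rpow_sub hq0, Real.rpow_one]
  have hone : 1 ≤ (q : ℝ) ^ (1 - E) := Real.one_le_rpow hq1 (by linarith)
  have hB3 : C * (q : ℝ) ^ (1 - E) + 3 ≤ (C + 3) * (q : ℝ) ^ (1 - E) := by nlinarith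
  have hle : (C + 3) * (q : ℝ) ^ (1 - E) ≤ q := by
    rw [hsplit, ← mul_div_assoc, div_le_iff₀ hqE, mul_comm]
    exact mul_le_mul_of_nonneg_left (by linarith) hq0.le
  obtain ⟨x, h2, h3, h4, h5⟩ := near_of_count (fun y => ¬ IndepV V W fun u => zetaH u y)
    (B := C * (q : ℝ) ^ (1 - E)) (by positivity) hq h1 (hB3.trans hle) ht0 ht1
  refine ⟨x, h2, h3, h4.trans ?_, not_not.1 h5⟩
  rw [div_le_div_iff₀ hq0 hqE]
  calc (C * (q : ℝ) ^ (1 - E) + 3) * (q : ℝ) ^ E ≤ ((C + 3) * (q : ℝ) ^ (1 - E)) * (q : ℝ) ^ E :=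
        mul_le_mul_of_nonneg_right hB3 hqE.le
    _ = (C + 3) * q := by
        rw [hsplit]
        field_simp

end Pool.MH.Stmt
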