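import Pool.Agent.LibMH.Defs
import Pool.Agent.LibCM3.BV

/-!
# Row MKW: the data `MDat` from real coefficients in `V` (SHORT/MEDIUM; template LibCM3/MK3.lean, proved)

Pigeonhole: for `x ∈ I₀` let `b x ∈ Ws` be a word with `c (b x) x ≠ 0` of maximal length (`Finset.exists_max_image` on
`Ws.filter (c · x ≠ 0)`).  Some `β₀ ∈ Ws` has `I₀.card ≤ Ws.card * (I₀.filter (b · = β₀)).card` (`Finset.exists_le_card_fiber_of_mul_le_card_of_maps_to`,
or `Finset.card_eq_sum_card_fiberwise` + `Finset.exists_max_image`); `I₁` this fibre, nonempty.  Then as MK3: `c' u x : V := if h : c u x ∈ V then ⟨c u x, h⟩ else 0`,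
`α x = c' β₀ x ≠ 0` on `I₁`; `spread_data` (LibCM3/BV) gives `I, b, U`; `vv δ = b δ`, `co u δ x = b.repr (c' u x) δ`, `e = β₀.length`.
`hsup`: `co u δ x ≠ 0` gives `c u x ≠ 0`, so `u.length ≤ (b x).length = e`.
-/

namespace CM68

open Finset

theorem mkw {q w DD : ℕ} (V : Submodule ℚ ℝ) [Module.Finite ℚ V]
    (hD : Module.finrank ℚ V = DD + 1) (Ws : Finset (List ℕ)) (I₀ : Finset ℕ) (hne : I₀.Nonempty)
    (c : List ℕ → ℕ → ℝ) (hq : 2 ≤ q) (hnil : [] ∈ Ws)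
    (hpre : ∀ u v : List ℕ, u ++ v ∈ Ws → u ∈ Ws) (hadm : ∀ u ∈ Ws, Adms u)
    (hw : ∀ u ∈ Ws, u.sum ≤ w) (hI : ∀ x ∈ I₀, 0 < x ∧ x < q)
    (hcV : ∀ x ∈ I₀, ∀ u ∈ Ws, c u x ∈ V) (hne0 : ∀ x ∈ I₀, ∃ u ∈ Ws, c u x ≠ 0)
    (hrel : ∀ x ∈ I₀, ∑ u ∈ Ws, c u x * sw q (x : ℝ) u = 0) :
    ∃ D : MDat, D.q = q ∧ D.w = w ∧ D.Ws = Ws ∧ D.DD = DD ∧ D.I ⊆ I₀ ∧
      I₀.card ≤ Ws.card * 2 ^ (DD + 1) * D.I.card := by
  classical
  -- a word of maximal length
  have hmax : ∀ x : ℕ, ∃ b : List ℕ, x ∈ I₀ → b ∈ Ws ∧ c b x ≠ 0 ∧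
      ∀ u ∈ Ws, c u x ≠ 0 → u.length ≤ b.length := by
    intro x
    by_cases hx : x ∈ I₀
    · obtain ⟨u, hu, hu0⟩ := hne0 x hx
      obtain ⟨b, hb, hb2⟩ := Finset.exists_max_image (Ws.filter fun u => c u x ≠ 0) List.length
        ⟨u, mem_filter.2 ⟨hu, hu0⟩⟩
      refine ⟨b, fun _ => ⟨(mem_filter.1 hb).1, (mem_filter.1 hb).2, fun u' hu' hu0' => ?_⟩⟩
      exact hb2 u' (mem_filter.2 ⟨hu', hu0'⟩)
    · exact ⟨[], fun h => absurd h hx⟩
  choose bw hbw using hmax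
  -- pigeonhole
  obtain ⟨β₀, hβ₀, hβmax⟩ := Finset.exists_max_image Ws
    (fun β => (I₀.filter fun x => bw x = β).card) ⟨[], hnil⟩
  have hcard1 : I₀.card ≤ Ws.card * (I₀.filter fun x => bw x = β₀).card := by
    rw [Finset.card_eq_sum_card_fiberwise (f := bw) (t := Ws) (fun x hx => (hbw x hx).1),
      ← smul_eq_mul]
    exact Finset.sum_le_card_nsmul _ _ _ fun β hβ => hβmax β hβ
  set I₁ : Finset ℕ := I₀.filter fun x => bw x = β₀ with hI₁
  have hI₁sub : I₁ ⊆ I₀ := filter_subset _ _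
  have hne1 : I₁.Nonempty := by
    rw [← Finset.card_pos]
    have h1 := Finset.card_pos.2 hne
    by_contra h2
    have h3 : I₁.card = 0 := by omega
    rw [h3, mul_zero] at hcard1
    omega
  have hlead : ∀ x ∈ I₁, c β₀ x ≠ 0 := by
    intro x hx
    rw [hI₁, mem_filter] at hx
    rw [← hx.2]
    exact (hbw x hx.1).2.1
  have hsup : ∀ x ∈ I₁, ∀ u ∈ Ws, c u x ≠ 0 → u.length ≤ β₀.length := by
    intro x hx u hu h
    rw [hI₁, mem_filter] at hx
    rw [← hx.2]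
    exact (hbw x hx.1).2.2 u hu h
  let c' : List ℕ → ℕ → V := fun u x => if h : c u x ∈ V then ⟨c u x, h⟩ else 0
  have hc' : ∀ x ∈ I₀, ∀ u ∈ Ws, ((c' u x : V) : ℝ) = c u x := by
    intro x hx u hu
    simp only [c', dif_pos (hcV x hx u hu)]
  obtain ⟨I, b, U, hII, hIne, hcard, hb0, hU, hspread, hone⟩ := spread_data V hD (c' β₀) I₁ hne1
    (fun x hx h0 => hlead x hx (by rw [← hc' x (hI₁sub hx) β₀ hβ₀, h0]; rfl))
  have hsum : ∀ x ∈ I, ∀ u ∈ Ws, ∑ δ, ((b.repr (c' u x) δ : ℚ) : ℝ) * ((b δ : V) : ℝ) = c u x := by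
    intro x hx u hu
    rw [← hc' x (hI₁sub (hII hx)) u hu]
    have h1 := congrArg (fun u : V => (u : ℝ)) (b.sum_repr (c' u x))
    simp only [Submodule.coe_sum, Submodule.coe_smul, Rat.smul_def] at h1
    exact h1
  refine ⟨{ q := q, w := w, e := β₀.length, DD := DD, Ws := Ws, I := I,
            vv := fun δ => ((b δ : V) : ℝ), co := fun u δ x => b.repr (c' u x) δ,
            β₀ := β₀, U := U, hq := hq, hnil := hnil, hpre := hpre, hadm := hadm, hw := hw,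
            hI := fun x hx => hI x (hI₁sub (hII hx)), hIne := hIne, hv := hb0,
            hsup := ?_, hβ₀ := hβ₀, hβe := rfl, hU := hU, hspread := hspread,
            hone := hone, hrel := ?_ }, rfl, rfl, rfl, rfl, hII.trans hI₁sub, ?_⟩
  · intro x hx u hu δ hne'
    refine hsup x (hII hx) u hu fun h0 => hne' ?_
    have h1 : c' u x = 0 := Subtype.ext (by rw [hc' x (hI₁sub (hII hx)) u hu, h0]; rfl)
    rw [h1, map_zero]
    rfl
  · intro x hx
    have h1 := hrel x (hI₁sub (hII hx))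
    rw [← h1]
    exact Finset.sum_congr rfl fun u hu => by rw [hsum x hx u hu]
  · calc I₀.card ≤ Ws.card * I₁.card := hcard1
      _ ≤ Ws.card * (2 ^ (DD + 1) * I.card) := Nat.mul_le_mul_left _ hcard
      _ = Ws.card * 2 ^ (DD + 1) * I.card := by ring

end CM68
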