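import Pool.Agent.LibMH.R1

/-!
# Row R2: the infinite sums (MEDIUM)

Plan: `pw_bound`: `pw q x v N ≤ pw 1 1 v N` (`pw_mono_x`), and with `h N = ∑ m ∈ range N, 1 / (m + 1)`: `pw 1 1 v N ≤ (h N)^(v.length)` by induction
(letters `≥ 1`, `h` monotone), `h N ≤ 1 + log N` (`harmonic_le_one_add_log`) or directly `h N ≤ C_s (N + 1)^s` for every `s > 0`
(`Real.log_le_rpow_div`-like), with `s = 1 / (2 (r + 1))`; any constant is allowed.
`summable_sw`: `k ≥ 2`: the terms are `≤ C (m + 1)^(1/2 - 2)` (`Real.summable_nat_rpow`, shifted by `1`; `Summable.of_nonneg_of_le`, `pw_nonneg`).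
`sw_split`: `v = []` trivial; `v = k :: v'`: `Summable.sum_add_tsum_nat_add` (`M` first terms: `pw q x (k :: v') M`, the term `i = 0`), the rest is
`∑' m, 1 / (q (m + M) + x)^k * pw q x v' (M + m)`, `pw_split`, exchange of the finite sum and the `tsum` (`Summable.tsum_finsetSum`;
each `k :: v'.take i` is admissible, `summable_sw` with `x + q M ≥ 1`), `tsum_mul_right`.
`sw_scale`: `tsum_mul_left`, `pw_scale`, no summability needed.
`sw_le`, `sw_mono_x`: `Summable.tsum_le_tsum`.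
-/

namespace CM68

open Finset Polynomial

private theorem R2_pw_cons (q : ℕ) (x : ℝ) (k : ℕ) (v : List ℕ) (N : ℕ) :
    pw q x (k :: v) N = ∑ m ∈ range N, 1 / ((q : ℝ) * m + x) ^ k * pw q x v m := by
  rw [pw]

private theorem R2_sw_cons (q : ℕ) (x : ℝ) (k : ℕ) (v : List ℕ) :
    sw q x (k :: v) = ∑' m : ℕ, 1 / ((q : ℝ) * m + x) ^ k * pw q x v m := by
  rw [sw]

private theorem R2_sw_nil (q : ℕ) (x : ℝ) : sw q x [] = 1 := by
  rw [sw]

private theorem R2_pw_nil (q : ℕ) (x : ℝ) (N : ℕ) : pw q x [] N = 1 := by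
  rw [pw]

private theorem R2_h (v : List ℕ) : (∀ k ∈ v, 1 ≤ k) → ∀ N : ℕ,
    pw 1 1 v N ≤ (∑ m ∈ range N, 1 / ((m : ℝ) + 1)) ^ v.length := by
  induction v with
  | nil =>
    intro _ N
    rw [R2_pw_nil, List.length_nil, pow_zero]
  | cons k v ih =>
    intro hv N
    have hk : 1 ≤ k := hv k (by simp)
    have hv' : ∀ k ∈ v, 1 ≤ k := fun j hj => hv j (by simp [hj])
    rw [R2_pw_cons, List.length_cons, pow_succ, Finset.mul_sum]
    refine Finset.sum_le_sum fun m hm => ?_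
    have hm' : m < N := Finset.mem_range.1 hm
    have h1 : (0 : ℝ) < (m : ℝ) + 1 := by positivity
    have h2 : 1 / (((1 : ℕ) : ℝ) * m + 1) ^ k ≤ 1 / ((m : ℝ) + 1) := by
      rw [Nat.cast_one, one_mul]
      refine one_div_le_one_div_of_le h1 ?_
      exact le_self_pow₀ (by linarith [Nat.cast_nonneg (α := ℝ) m]) (by omega)
    have h3 : (∑ j ∈ range m, 1 / ((j : ℝ) + 1)) ≤ ∑ j ∈ range N, 1 / ((j : ℝ) + 1) := by
      refine Finset.sum_le_sum_of_subset_of_nonneg (Finset.range_mono hm'.le) fun j _ _ => ?_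
      positivity
    have h4 : pw 1 1 v m ≤ (∑ j ∈ range N, 1 / ((j : ℝ) + 1)) ^ v.length :=
      (ih hv' m).trans (pow_le_pow_left₀ (Finset.sum_nonneg fun j _ => by positivity) h3 _)
    calc 1 / (((1 : ℕ) : ℝ) * m + 1) ^ k * pw 1 1 v m ≤
          1 / ((m : ℝ) + 1) * (∑ j ∈ range N, 1 / ((j : ℝ) + 1)) ^ v.length :=
          mul_le_mul h2 h4 (pw_nonneg 1 zero_le_one v m) (by positivity)
      _ = _ := mul_comm _ _

theorem pw_bound {v : List ℕ} (hv : ∀ k ∈ v, 1 ≤ k) :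
    ∃ C : ℝ, 0 < C ∧ ∀ (q : ℕ) (x : ℝ), 1 ≤ q → 1 ≤ x → ∀ m : ℕ,
      pw q x v m ≤ C * ((m : ℝ) + 1) ^ (1 / 2 : ℝ) := by
  obtain ⟨s, hs⟩ : ∃ s : ℝ, s = 1 / (2 * ((v.length : ℝ) + 1)) := ⟨_, rfl⟩
  have hs0 : 0 < s := by rw [hs]; positivity
  refine ⟨(1 + 1 / s) ^ v.length, by positivity, fun q x hq hx m => ?_⟩
  refine (pw_mono_x hq hx v m).trans ((R2_h v hv m).trans ?_)
  have h1 : (1 : ℝ) ≤ (m : ℝ) + 1 := by linarith [Nat.cast_nonneg (α := ℝ) m]
  have h2 : ∑ j ∈ range m, 1 / ((j : ℝ) + 1) ≤ (1 + 1 / s) * ((m : ℝ) + 1) ^ s := by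
    have h3 := harmonic_le_one_add_log m
    have h4 : ((harmonic m : ℚ) : ℝ) = ∑ j ∈ range m, 1 / ((j : ℝ) + 1) := by
      unfold harmonic
      push_cast
      refine Finset.sum_congr rfl fun j _ => ?_
      rw [one_div]
    rw [h4] at h3
    have h5 : Real.log m ≤ Real.log ((m : ℝ) + 1) := by
      rcases Nat.eq_zero_or_pos m with h6 | h6
      · rw [h6]
        simp
      · have h7 : (0 : ℝ) < m := by exact_mod_cast h6
        exact Real.log_le_log h7 (by linarith)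
    have h6 := Real.log_le_rpow_div (x := (m : ℝ) + 1) (by positivity) hs0
    have h7 : (1 : ℝ) ≤ ((m : ℝ) + 1) ^ s := Real.one_le_rpow h1 hs0.le
    have h8 : (1 + 1 / s) * ((m : ℝ) + 1) ^ s = ((m : ℝ) + 1) ^ s + ((m : ℝ) + 1) ^ s / s := by
      ring
    rw [h8]
    linarith
  have h3 : 0 ≤ ∑ j ∈ range m, 1 / ((j : ℝ) + 1) := Finset.sum_nonneg fun j _ => by positivity
  refine (pow_le_pow_left₀ h3 h2 _).trans ?_
  rw [mul_pow]
  refine mul_le_mul_of_nonneg_left ?_ (by positivity)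
  rw [← Real.rpow_natCast, ← Real.rpow_mul (by positivity)]
  refine Real.rpow_le_rpow_of_exponent_le h1 ?_
  rw [hs, one_div_mul_eq_div, div_le_div_iff₀ (by positivity) two_pos]
  linarith

theorem summable_sw {q : ℕ} (hq : 1 ≤ q) {x : ℝ} (hx : 1 ≤ x) {k : ℕ} {v : List ℕ}
    (h : Adms (k :: v)) : Summable fun m : ℕ => 1 / ((q : ℝ) * m + x) ^ k * pw q x v m := by
  have hk : 2 ≤ k := h.2 k (by simp)
  have hv : ∀ j ∈ v, 1 ≤ j := fun j hj => h.1 j (by simp [hj])
  obtain ⟨C, hC, hb⟩ := pw_bound hv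
  have hs : Summable fun m : ℕ => C * ((m : ℝ) + 1) ^ (-(3 / 2) : ℝ) := by
    have h1 : Summable fun n : ℕ => (n : ℝ) ^ (-(3 / 2) : ℝ) :=
      Real.summable_nat_rpow.2 (by norm_num)
    have h2 := ((summable_nat_add_iff 1).2 h1).mul_left C
    refine h2.congr fun m => ?_
    push_cast
    rfl
  have hq' : (1 : ℝ) ≤ q := by exact_mod_cast hq
  refine Summable.of_nonneg_of_le (fun m => ?_) (fun m => ?_) hs
  · have : 0 ≤ (q : ℝ) * m + x := by positivity
    exact mul_nonneg (by positivity) (pw_nonneg q (by linarith) v m)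
  · have hm : (0 : ℝ) ≤ m := Nat.cast_nonneg m
    have h1 : (m : ℝ) + 1 ≤ (q : ℝ) * m + x := by nlinarith
    have h0 : (0 : ℝ) < (m : ℝ) + 1 := by positivity
    have h2 : 1 / ((q : ℝ) * m + x) ^ k ≤ 1 / ((m : ℝ) + 1) ^ 2 := by
      refine one_div_le_one_div_of_le (by positivity) ?_
      calc ((m : ℝ) + 1) ^ 2 ≤ ((m : ℝ) + 1) ^ k := pow_le_pow_right₀ (by linarith) hk
        _ ≤ _ := pow_le_pow_left₀ h0.le h1 k
    calc 1 / ((q : ℝ) * m + x) ^ k * pw q x v m ≤
          1 / ((m : ℝ) + 1) ^ 2 * (C * ((m : ℝ) + 1) ^ (1 / 2 : ℝ)) :=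
          mul_le_mul h2 (hb q x hq hx m) (pw_nonneg q (by linarith) v m) (by positivity)
      _ = C * ((m : ℝ) + 1) ^ (-(3 / 2) : ℝ) := by
          have e : (-(3 / 2) : ℝ) = 1 / 2 - 2 := by norm_num
          rw [e, Real.rpow_sub h0, Real.rpow_two]
          ring

theorem sw_nonneg (q : ℕ) {x : ℝ} (hx : 0 ≤ x) (v : List ℕ) : 0 ≤ sw q x v := by
  cases v with
  | nil =>
    rw [R2_sw_nil]
    exact zero_le_one
  | cons k v =>
    rw [R2_sw_cons]
    refine tsum_nonneg fun m => ?_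
    have : 0 ≤ (q : ℝ) * m + x := by positivity
    exact mul_nonneg (by positivity) (pw_nonneg q hx v m)

theorem sw_mono_x {q : ℕ} (hq : 1 ≤ q) {x : ℝ} (hx : 1 ≤ x) {v : List ℕ} (h : Adms v) :
    sw q x v ≤ sw 1 1 v := by
  cases v with
  | nil => rw [R2_sw_nil, R2_sw_nil]
  | cons k v =>
    rw [R2_sw_cons, R2_sw_cons]
    refine Summable.tsum_le_tsum (fun m => ?_) (summable_sw hq hx h) (summable_sw le_rfl le_rfl h)
    have hq' : (1 : ℝ) ≤ q := by exact_mod_cast hq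
    have hm : (0 : ℝ) ≤ m := Nat.cast_nonneg m
    have h1 : ((1 : ℕ) : ℝ) * m + 1 ≤ (q : ℝ) * m + x := by
      rw [Nat.cast_one, one_mul]
      nlinarith
    have h0 : (0 : ℝ) < ((1 : ℕ) : ℝ) * m + 1 := by positivity
    refine mul_le_mul ?_ (pw_mono_x hq hx v m) (pw_nonneg q (by linarith) v m) (by positivity)
    exact one_div_le_one_div_of_le (by positivity) (pow_le_pow_left₀ h0.le h1 k)

theorem sw_split {q : ℕ} (hq : 1 ≤ q) {x : ℝ} (hx : 1 ≤ x) {v : List ℕ} (h : Adms v) (M : ℕ) :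
    sw q x v =
      ∑ i ∈ range (v.length + 1), sw q (x + q * M) (v.take i) * pw q x (v.drop i) M := by
  cases v with
  | nil =>
    simp [R2_sw_nil, R2_pw_nil]
  | cons k v =>
    have hx' : 1 ≤ x + q * M := by
      have : (0 : ℝ) ≤ (q : ℝ) * M := by positivity
      linarith
    have hk : ∀ j ∈ (k :: v).head?, 2 ≤ j := h.2
    have hadm : ∀ i : ℕ, Adms (k :: v.take i) := fun i => by
      refine ⟨fun j hj => ?_, fun j hj => ?_⟩
      · rcases List.mem_cons.1 hj with h1 | h1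
        · exact h.1 j (by simp [h1])
        · exact h.1 j (List.mem_cons_of_mem _ (List.mem_of_mem_take h1))
      · exact h.2 j (by simpa using hj)
    have e1 : ∑ i ∈ range ((k :: v).length + 1),
        sw q (x + q * M) ((k :: v).take i) * pw q x ((k :: v).drop i) M =
        (∑ i ∈ range (v.length + 1), sw q (x + q * M) (k :: v.take i) * pw q x (v.drop i) M) +
          pw q x (k :: v) M := by
      rw [List.length_cons, Finset.sum_range_succ']
      simp only [List.take_succ_cons, List.drop_succ_cons, List.take_zero, List.drop_zero,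
        R2_sw_nil, one_mul]
    rw [e1, R2_sw_cons, ← (summable_sw hq hx h).sum_add_tsum_nat_add M, R2_pw_cons, add_comm]
    congr 1
    have e2 : ∀ m : ℕ, 1 / ((q : ℝ) * ((m + M : ℕ) : ℝ) + x) ^ k * pw q x v (m + M) =
        ∑ i ∈ range (v.length + 1), (1 / ((q : ℝ) * m + (x + q * M)) ^ k *
          pw q (x + q * M) (v.take i) m) * pw q x (v.drop i) M := by
      intro m
      rw [add_comm m M, pw_split q x v M m, Finset.mul_sum]
      refine Finset.sum_congr rfl fun i _ => ?_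
      have e3 : (q : ℝ) * ((M + m : ℕ) : ℝ) + x = (q : ℝ) * m + (x + q * M) := by
        push_cast
        ring
      rw [e3]
      ring
    simp only [e2]
    rw [Summable.tsum_finsetSum fun i _ => (summable_sw hq hx' (hadm i)).mul_right _]
    refine Finset.sum_congr rfl fun i _ => ?_
    rw [tsum_mul_right, R2_sw_cons]

theorem sw_scale {q : ℕ} (hq : 1 ≤ q) (x : ℝ) (v : List ℕ) :
    sw q x v = 1 / (q : ℝ) ^ v.sum * sw 1 (x / q) v := by
  cases v with
  | nil => simp [R2_sw_nil]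
  | cons k v =>
    have hq0 : (0 : ℝ) < q := by exact_mod_cast hq
    rw [R2_sw_cons, R2_sw_cons, ← tsum_mul_left]
    refine tsum_congr fun m => ?_
    rw [pw_scale hq x v m, List.sum_cons]
    have e : (q : ℝ) * m + x = q * (((1 : ℕ) : ℝ) * m + x / q) := by
      rw [Nat.cast_one, one_mul, mul_add, mul_div_cancel₀ _ hq0.ne']
    rw [e, mul_pow, pow_add]
    simp only [one_div, mul_inv]
    ring

end CM68
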