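import Pool.Agent.LibMH.TSW
import Pool.Agent.LibMH.MKW

/-!
# Row REPW: the data of a set of exceptional points (SHORT; template LibCM3/RA3.lean)

`¬ IndepV`: choose `c` (`c x w`); put `c' u x = c x u * q^(u.sum)` (in `V`: rational multiple, `Rat.smul_def`); `c' u x * sw q x u = c x u * sw 1 (x / q) u`
(`sw_scale`, LibMH/R2) `= c x u * zetaH u (x / q)` (`zetaH_eq`).  Then `mkw`.
-/

namespace CM68

open Finset Pool.MH.Stmt

theorem repw {q w DD : ℕ} {V : Submodule ℚ ℝ} [Module.Finite ℚ V]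
    (hD : Module.finrank ℚ V = DD + 1) {Ws : Finset (List ℕ)} {I₀ : Finset ℕ} (hne : I₀.Nonempty)
    (hq : 2 ≤ q) (hnil : [] ∈ Ws) (hpre : ∀ u v : List ℕ, u ++ v ∈ Ws → u ∈ Ws)
    (hadm : ∀ u ∈ Ws, Admissible u) (hw : ∀ u ∈ Ws, u.sum ≤ w) (hI : ∀ x ∈ I₀, 0 < x ∧ x < q)
    (hx : ∀ x ∈ I₀, ¬ IndepV V Ws fun u => zetaH u ((x : ℝ) / q)) :
    ∃ D : MDat, D.q = q ∧ D.w = w ∧ D.Ws = Ws ∧ D.DD = DD ∧ D.I ⊆ I₀ ∧
      I₀.card ≤ Ws.card * 2 ^ (DD + 1) * D.I.card := by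
  classical
  have hex : ∀ x : ℕ, ∃ c : List ℕ → ℝ, x ∈ I₀ → (∀ u ∈ Ws, c u ∈ V) ∧
      ∑ u ∈ Ws, c u * zetaH u ((x : ℝ) / q) = 0 ∧ ∃ u ∈ Ws, c u ≠ 0 := by
    intro x
    by_cases hx0 : x ∈ I₀
    · have h1 := hx x hx0
      unfold IndepV at h1
      push Not at h1
      obtain ⟨c, h2, h3, h4⟩ := h1
      exact ⟨c, fun _ => ⟨h2, h3, h4⟩⟩
    · exact ⟨0, fun h => absurd h hx0⟩
  choose c hc using hex
  have hqR : (q : ℝ) ≠ 0 := by exact_mod_cast (by omega : q ≠ 0)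
  refine mkw V hD Ws I₀ hne (fun u x => c x u * (q : ℝ) ^ u.sum) hq hnil hpre hadm hw hI ?_ ?_ ?_
  · intro x hx0 u hu
    have h1 := (hc x hx0).1 u hu
    have h2 := V.smul_mem ((q : ℚ) ^ u.sum) h1
    rw [Rat.smul_def] at h2
    have h3 : (((q : ℚ) ^ u.sum : ℚ) : ℝ) * c x u = c x u * (q : ℝ) ^ u.sum := by
      rw [mul_comm, Rat.cast_pow, Rat.cast_natCast]
    rw [h3] at h2
    exact h2
  · intro x hx0
    obtain ⟨u, hu, hu0⟩ := (hc x hx0).2.2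
    exact ⟨u, hu, mul_ne_zero hu0 (pow_ne_zero _ hqR)⟩
  · intro x hx0
    have hxpos : (0 : ℝ) < (x : ℝ) / q := by
      have h1 := (hI x hx0).1
      have h2 : (0 : ℝ) < x := by exact_mod_cast h1
      have h3 : (0 : ℝ) < q := by exact_mod_cast (by omega : 0 < q)
      positivity
    rw [← (hc x hx0).2.1]
    apply Finset.sum_congr rfl
    intro u _
    rw [sw_scale (by omega : 1 ≤ q), ← zetaH_eq hxpos u, mul_assoc]
    congr 1
    rw [← mul_assoc, mul_one_div_cancel (pow_ne_zero _ hqR), one_mul]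

end CM68
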