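import Mathlib

/-!
Definitions used by the statement of `MP_c2d7b4_nt.HurwitzWords`.
-/

namespace Pool.MH.Stmt

open Finset

/-- The multiple Hurwitz zeta value `ζ(w; y) = ∑_{n₁ > ⋯ > n_r ≥ 0} ∏ (n_i + y)^(-w_i)` of the word `w = [w₁, …, w_r]`. -/
noncomputable def zetaH (w : List ℕ) (y : ℝ) : ℝ :=
  ∑' k : {k : Fin w.length → ℕ // StrictAnti k}, ∏ i, (((k.1 i : ℝ) + y) ^ (w.get i))⁻¹

/-- The words of the multiple zeta values: positive letters, the first one at least `2`; the empty word is allowed. -/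
def Admissible (w : List ℕ) : Prop := (∀ k ∈ w, 1 ≤ k) ∧ ∀ k ∈ w.head?, 2 ≤ k

/-- The numbers `z w`, `w ∈ W`, are linearly independent over the space `V` of coefficients. -/
def IndepV (V : Submodule ℚ ℝ) (W : Finset (List ℕ)) (z : List ℕ → ℝ) : Prop :=
  ∀ c : List ℕ → ℝ, (∀ w ∈ W, c w ∈ V) → ∑ w ∈ W, c w * z w = 0 → ∀ w ∈ W, c w = 0

end Pool.MH.Stmt
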