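import Pool.Agent.LibMH.R2
import Pool.Agent.LibMH.Stmt
import Pool.Agent.LibHB89.Stmt

/-!
# Row TSW: the multiple Hurwitz zeta value as one series (MEDIUM)

`fin_sum`: the sum over the strictly decreasing `k : Fin w.length → ℕ` with `k 0 < N` (all `k i < N`) is `pw 1 y w N`: induction on `w` (`Fin.consEquiv` / `Fin.cons`,
a strictly decreasing tuple `k` with `k 0 < N` is `m = k 0 < N` and a strictly decreasing tuple `< m`).  As `HasSum` or as a finite sum over
`Fintype.piFinset fun _ => range N` filtered by `StrictAnti`; choose what is simplest.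
`zetaH_eq`: (nonnegative terms, `0 < y`) the sum over all strictly decreasing tuples of `k :: v` is the `tsum` over `m = k 0` of the finite sums:
`Equiv` between `{k : Fin (v.length + 1) → ℕ // StrictAnti k}` and `Σ m : ℕ, {k' : Fin v.length → ℕ // StrictAnti k' ∧ ∀ i, k' i < m}`, then `tsum_sigma'` needs summability;
for an admissible word: `ENNReal.tsum_sigma` + `ENNReal.ofReal` or `summable_sigma_of_nonneg` with `summable_sw`: note `summable_sw` (LibMH/R2) is for `1 ≤ x`; for `0 < y` apply it at `x = y + 1`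
or use the equality in `ENNReal`, true for every word: `zetaH` and `sw` are then both `ENNReal.toReal` of the same sum (`ENNReal.tsum_toReal_eq`, all terms finite), EXCEPT that
a divergent real `tsum` is `0` and `ENNReal.toReal ⊤ = 0`: they agree for EVERY word and every `y > 0`.  So no admissibility is needed.
`zetaH_one`: the bijection `k ↦ k + 1` (`Equiv.tsum_eq`); `zetaH_half`: `n + 1/2 = (2 n + 1) / 2`, `tsum_mul_left`, product of the `2^(w_i)`.
-/

namespace CM68

open Finset Pool.MH.Stmt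

private theorem tsw_strictAnti {r m : ℕ} {k' : Fin r → ℕ} (h : StrictAnti k') (h2 : ∀ i, k' i < m) :
    StrictAnti (Fin.cons m k' : Fin (r + 1) → ℕ) := by
  intro i j hij
  induction j using Fin.cases with
  | zero => exact absurd hij (Fin.not_lt_zero _)
  | succ j =>
    induction i using Fin.cases with
    | zero =>
      rw [Fin.cons_zero, Fin.cons_succ]
      exact h2 j
    | succ i =>
      rw [Fin.cons_succ, Fin.cons_succ]
      exact h (Fin.succ_lt_succ_iff.1 hij)

private def tswEquiv (P : ℕ → Prop) (r : ℕ) :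
    {k : Fin (r + 1) → ℕ // StrictAnti k ∧ P (k 0)} ≃
      Σ m : {m : ℕ // P m}, {k' : Fin r → ℕ // StrictAnti k' ∧ ∀ i, k' i < m.1} where
  toFun k := ⟨⟨k.1 0, k.2.2⟩, ⟨fun i => k.1 i.succ,
    fun _ _ hij => k.2.1 (Fin.succ_lt_succ_iff.2 hij), fun i => k.2.1 (Fin.succ_pos i)⟩⟩
  invFun s := ⟨Fin.cons s.1.1 s.2.1, tsw_strictAnti s.2.2.1 s.2.2.2, s.1.2⟩
  left_inv k := by
    apply Subtype.ext
    funext i
    induction i using Fin.cases with
    | zero => rfl
    | succ i => rfl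
  right_inv s := rfl

private theorem tsw_sigma {α : Type*} {β : α → Type*} (F : (Σ a, β a) → ℝ) (h0 : ∀ x, 0 ≤ F x)
    (hfin : ∀ a, Summable fun b => F ⟨a, b⟩) : ∑' x, F x = ∑' a, ∑' b, F ⟨a, b⟩ := by
  by_cases hs : Summable F
  · exact hs.tsum_sigma' hfin
  · rw [tsum_eq_zero_of_not_summable hs, tsum_eq_zero_of_not_summable]
    intro h
    exact hs ((summable_sigma_of_nonneg h0).2 ⟨hfin, h⟩)

private instance tsw_finite (r m : ℕ) :
    Finite {k' : Fin r → ℕ // StrictAnti k' ∧ ∀ i, k' i < m} := by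
  apply Finite.of_injective (β := Fin r → Fin m) (fun k i => ⟨k.1 i, k.2.2 i⟩)
  intro a b h
  apply Subtype.ext
  funext i
  have := congrFun h i
  exact congrArg Fin.val this

private theorem tsw_step (P : ℕ → Prop) {y : ℝ} (hy : 0 < y) (k : ℕ) (v : List ℕ) :
    ∑' j : {j : Fin (k :: v).length → ℕ // StrictAnti j ∧ P (j 0)},
      ∏ i, (((j.1 i : ℝ) + y) ^ ((k :: v).get i))⁻¹ =
    ∑' m : {m : ℕ // P m}, (((m.1 : ℝ) + y) ^ k)⁻¹ *
      ∑' j : {j : Fin v.length → ℕ // StrictAnti j ∧ ∀ i, j i < m.1},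
        ∏ i, (((j.1 i : ℝ) + y) ^ (v.get i))⁻¹ := by
  set F : (Σ m : {m : ℕ // P m}, {k' : Fin v.length → ℕ // StrictAnti k' ∧ ∀ i, k' i < m.1}) → ℝ :=
    fun s => (((s.1.1 : ℝ) + y) ^ k)⁻¹ * ∏ i, (((s.2.1 i : ℝ) + y) ^ (v.get i))⁻¹ with hF
  have h1 : ∑' j : {j : Fin (k :: v).length → ℕ // StrictAnti j ∧ P (j 0)},
      ∏ i, (((j.1 i : ℝ) + y) ^ ((k :: v).get i))⁻¹ = ∑' s, F s := by
    rw [← (tswEquiv P v.length).tsum_eq F]
    apply tsum_congr
    intro j
    rw [hF]
    exact Fin.prod_univ_succ (n := v.length)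
      (fun i => (((j.1 i : ℝ) + y) ^ ((k :: v).get i))⁻¹)
  rw [h1, tsw_sigma F]
  · apply tsum_congr
    intro m
    rw [← tsum_mul_left]
  · intro s
    rw [hF]
    positivity
  · intro m
    exact (Summable.of_finite : Summable fun b => F ⟨m, b⟩)

private theorem tsw_unique (r : ℕ) (hr : r = 0) (Q : (Fin r → ℕ) → Prop) (hQ : ∀ k, Q k)
    (G : {k : Fin r → ℕ // Q k} → ℝ) (hG : ∀ k, G k = 1) : ∑' k, G k = 1 := by
  subst hr
  have hss : ∀ a b : {k : Fin 0 → ℕ // Q k}, a = b := fun a b =>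
    Subtype.ext (funext fun i => i.elim0)
  rw [tsum_eq_single ⟨fun i => i.elim0, hQ _⟩ (fun b hb => absurd (hss _ _) hb), hG]

private theorem tsw_lt_iff {r N : ℕ} {j : Fin (r + 1) → ℕ} (h : StrictAnti j) :
    (∀ i, j i < N) ↔ j 0 < N :=
  ⟨fun h2 => h2 0, fun h2 i => (h.antitone (Fin.zero_le i)).trans_lt h2⟩

private theorem tsw_inner {y : ℝ} (hy : 0 < y) (v : List ℕ) : ∀ N : ℕ,
    ∑' j : {j : Fin v.length → ℕ // StrictAnti j ∧ ∀ i, j i < N},
      ∏ i, (((j.1 i : ℝ) + y) ^ (v.get i))⁻¹ = pw 1 y v N := by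
  induction v with
  | nil =>
    intro N
    rw [pw]
    refine tsw_unique 0 rfl _ (fun k => ⟨fun i => i.elim0, fun i => i.elim0⟩) _ (fun k => ?_)
    exact Fin.prod_univ_zero _
  | cons k v ih =>
    intro N
    have h1 : ∑' j : {j : Fin (k :: v).length → ℕ // StrictAnti j ∧ ∀ i, j i < N},
        ∏ i, (((j.1 i : ℝ) + y) ^ ((k :: v).get i))⁻¹ =
        ∑' j : {j : Fin (k :: v).length → ℕ // StrictAnti j ∧ (fun m => m < N) (j 0)},
        ∏ i, (((j.1 i : ℝ) + y) ^ ((k :: v).get i))⁻¹ := by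
      refine (Equiv.tsum_eq (Equiv.subtypeEquivRight fun j => ?_)
        (fun j : {j : Fin (k :: v).length → ℕ // StrictAnti j ∧ (fun m => m < N) (j 0)} =>
          ∏ i, (((j.1 i : ℝ) + y) ^ ((k :: v).get i))⁻¹))
      exact and_congr_right fun h => tsw_lt_iff h
    rw [h1, tsw_step (fun m => m < N) hy k v, pw]
    have h2 : ∀ m : {m : ℕ // (fun m => m < N) m}, (((m.1 : ℝ) + y) ^ k)⁻¹ *
        ∑' j : {j : Fin v.length → ℕ // StrictAnti j ∧ ∀ i, j i < m.1},
          ∏ i, (((j.1 i : ℝ) + y) ^ (v.get i))⁻¹ =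
        (fun m : ℕ => 1 / (((1 : ℕ) : ℝ) * m + y) ^ k * pw 1 y v m) m.1 := by
      intro m
      rw [ih m.1]
      simp only [Nat.cast_one, one_mul, one_div]
    rw [tsum_congr h2]
    have h3 : ∀ f : ℕ → ℝ, ∑' m : {m : ℕ // (fun m => m < N) m}, f m.1 = ∑ m ∈ range N, f m := by
      intro f
      rw [← Finset.tsum_subtype (range N) f]
      refine (Equiv.tsum_eq (Equiv.subtypeEquivRight fun j => ?_)
        (fun j : {j : ℕ // j ∈ range N} => f j.1))
      exact mem_range.symm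
    exact h3 (fun m : ℕ => 1 / (((1 : ℕ) : ℝ) * m + y) ^ k * pw 1 y v m)

theorem zetaH_eq {y : ℝ} (hy : 0 < y) (w : List ℕ) : zetaH w y = sw 1 y w := by
  unfold zetaH
  cases w with
  | nil =>
    rw [sw]
    refine tsw_unique 0 rfl _ (fun k => fun i => i.elim0) _ (fun k => ?_)
    exact Fin.prod_univ_zero _
  | cons k v =>
    have h1 : ∑' j : {j : Fin (k :: v).length → ℕ // StrictAnti j},
        ∏ i, (((j.1 i : ℝ) + y) ^ ((k :: v).get i))⁻¹ =
        ∑' j : {j : Fin (k :: v).length → ℕ // StrictAnti j ∧ (fun _ => True) (j 0)},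
        ∏ i, (((j.1 i : ℝ) + y) ^ ((k :: v).get i))⁻¹ := by
      refine (Equiv.tsum_eq (Equiv.subtypeEquivRight fun j => ?_)
        (fun j : {j : Fin (k :: v).length → ℕ // StrictAnti j ∧ (fun _ => True) (j 0)} =>
          ∏ i, (((j.1 i : ℝ) + y) ^ ((k :: v).get i))⁻¹))
      exact ⟨fun h => ⟨h, trivial⟩, fun h => h.1⟩
    rw [h1, tsw_step (fun _ => True) hy k v, sw]
    have h2 : ∀ m : {m : ℕ // (fun _ => True) m}, (((m.1 : ℝ) + y) ^ k)⁻¹ *
        ∑' j : {j : Fin v.length → ℕ // StrictAnti j ∧ ∀ i, j i < m.1},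
          ∏ i, (((j.1 i : ℝ) + y) ^ (v.get i))⁻¹ =
        (fun m : ℕ => 1 / (((1 : ℕ) : ℝ) * m + y) ^ k * pw 1 y v m) m.1 := by
      intro m
      rw [tsw_inner hy v m.1]
      simp only [Nat.cast_one, one_mul, one_div]
    rw [tsum_congr h2]
    exact (Equiv.tsum_eq (Equiv.subtypeUnivEquiv fun _ => trivial)
      (fun m : ℕ => 1 / (((1 : ℕ) : ℝ) * m + y) ^ k * pw 1 y v m))

theorem zetaH_one (w : List ℕ) : zetaH w 1 = Pool.HB89.Stmt.zetaW w := by
  unfold zetaH Pool.HB89.Stmt.zetaW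
  let E : {k : Fin w.length → ℕ // StrictAnti k} ≃
      {k : Fin w.length → ℕ // StrictAnti k ∧ ∀ i, 0 < k i} :=
    { toFun := fun k => ⟨fun i => k.1 i + 1, fun _ _ h => Nat.succ_lt_succ (k.2 h),
        fun i => Nat.succ_pos _⟩
      invFun := fun k => ⟨fun i => k.1 i - 1, fun i j h => by
        have h1 := k.2.1 h
        have h2 := k.2.2 i
        have h3 := k.2.2 j
        show k.1 j - 1 < k.1 i - 1
        omega⟩
      left_inv := fun k => Subtype.ext (funext fun i => Nat.add_sub_cancel _ _)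
      right_inv := fun k => Subtype.ext (funext fun i => Nat.sub_add_cancel (k.2.2 i)) }
  rw [← E.tsum_eq]
  apply tsum_congr
  intro k
  apply prod_congr rfl
  intro i _
  have h1 : ((E k).1 i : ℝ) = (k.1 i : ℝ) + 1 := by
    show ((k.1 i + 1 : ℕ) : ℝ) = _
    push_cast
    ring
  rw [h1]

/-- at `y = 1/2`: `2^|w|` times the multiple t-value (sums over odd numbers) -/
theorem zetaH_half (w : List ℕ) : zetaH w (1 / 2) =
    2 ^ w.sum * ∑' k : {k : Fin w.length → ℕ // StrictAnti k ∧ ∀ i, Odd (k i)},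
      ∏ i, ((k.1 i : ℝ) ^ (w.get i))⁻¹ := by
  unfold zetaH
  let E : {k : Fin w.length → ℕ // StrictAnti k} ≃
      {k : Fin w.length → ℕ // StrictAnti k ∧ ∀ i, Odd (k i)} :=
    { toFun := fun k => ⟨fun i => 2 * k.1 i + 1, fun i j h => by
        have h1 := k.2 h
        show 2 * k.1 j + 1 < 2 * k.1 i + 1
        omega, fun i => ⟨k.1 i, rfl⟩⟩
      invFun := fun k => ⟨fun i => k.1 i / 2, fun i j h => by
        have h1 := k.2.1 h
        have h2 := Nat.odd_iff.1 (k.2.2 i)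
        have h3 := Nat.odd_iff.1 (k.2.2 j)
        show k.1 j / 2 < k.1 i / 2
        omega⟩
      left_inv := fun k => Subtype.ext (funext fun i => by
        show (2 * k.1 i + 1) / 2 = k.1 i
        omega)
      right_inv := fun k => Subtype.ext (funext fun i => by
        have h2 := Nat.odd_iff.1 (k.2.2 i)
        show 2 * (k.1 i / 2) + 1 = k.1 i
        omega) }
  rw [← E.tsum_eq, ← tsum_mul_left]
  apply tsum_congr
  intro k
  have h2 : (2 : ℝ) ^ w.sum = ∏ i : Fin w.length, (2 : ℝ) ^ (w.get i) := by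
    rw [Finset.prod_pow_eq_pow_sum]
    congr 1
    exact (Fin.sum_univ_getElem w).symm
  rw [h2, ← prod_mul_distrib]
  apply prod_congr rfl
  intro i _
  have h1 : ((E k).1 i : ℝ) = 2 * ((k.1 i : ℝ) + 1 / 2) := by
    show ((2 * k.1 i + 1 : ℕ) : ℝ) = _
    push_cast
    ring
  rw [h1, mul_pow, mul_inv, ← mul_assoc, mul_inv_cancel₀ (by positivity), one_mul]

end CM68
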